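import Pool.Agent.H956R3.Defs

set_option autoImplicit false
set_option linter.unusedSectionVars false

namespace Pool.Agent.H956R3.CL

open unitInterval

universe u

variable {L : Sig.{u}} {M N : Type u} [MetricSpace M] [Str L M] [MetricSpace N] [Str L N]

/-! ### Renaming of variables -/

def Term.rename {n m : ℕ} (ρ : Fin n → Fin m) : Term L n → Term L m
  | .var i => .var (ρ i)
  | .app f ts => .app f (fun i => (ts i).rename ρ)

def liftR {n m : ℕ} (ρ : Fin n → Fin m) : Fin (n + 1) → Fin (m + 1) :=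
  Fin.snoc (α := fun _ => Fin (m + 1)) (fun i => (ρ i).castSucc) (Fin.last m)

def Fml.rename : ∀ {n m : ℕ}, (Fin n → Fin m) → Fml L n → Fml L m
  | _, _, ρ, .dist s t => .dist (s.rename ρ) (t.rename ρ)
  | _, _, ρ, .pred P ts => .pred P (fun i => (ts i).rename ρ)
  | _, _, ρ, .conn c φs => .conn c (fun i => (φs i).rename ρ)
  | _, _, ρ, .inf φ => .inf (φ.rename (liftR ρ))
  | _, _, ρ, .sup φ => .sup (φ.rename (liftR ρ))

theorem Term.eval_rename {n m : ℕ} (ρ : Fin n → Fin m) (t : Term L n) (v : Fin m → M) :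
    (t.rename ρ).eval v = t.eval (v ∘ ρ) := by
  induction t with
  | var i => rfl
  | app f ts ih =>
    simp only [Term.rename, Term.eval]
    congr 1
    funext i
    exact ih i

theorem snoc_liftR {n m : ℕ} (ρ : Fin n → Fin m) (v : Fin m → M) (x : M) :
    (Fin.snoc (α := fun _ => M) v x) ∘ liftR ρ = Fin.snoc (α := fun _ => M) (v ∘ ρ) x := by
  funext i
  refine Fin.lastCases ?_ (fun i => ?_) i
  · simp [liftR, Fin.snoc_last]
  · simp [liftR, Fin.snoc_castSucc]

theorem Fml.eval_rename {n m : ℕ} (ρ : Fin n → Fin m) (φ : Fml L n) (v : Fin m → M) :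
    (φ.rename ρ).eval v = φ.eval (v ∘ ρ) := by
  induction φ generalizing m with
  | dist s t =>
    simp only [Fml.rename, Fml.eval, Term.eval_rename]
  | pred P ts =>
    simp only [Fml.rename, Fml.eval, Term.eval_rename]
  | conn c φs ih =>
    simp only [Fml.rename, Fml.eval]
    congr 1
    funext i
    exact ih i ρ v
  | inf φ ih =>
    simp only [Fml.rename, Fml.eval, ih, snoc_liftR]
  | sup φ ih =>
    simp only [Fml.rename, Fml.eval, ih, snoc_liftR]

/-! ### Connectives from real functions -/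

/-- The connective given by a continuous real function, truncated to `[0,1]`. -/
noncomputable def clampC {k : ℕ} (G : (Fin k → ℝ) → ℝ) (hG : Continuous G) :
    C(Fin k → I, I) where
  toFun v := Set.projIcc 0 1 zero_le_one (G (fun i => (v i : ℝ)))
  continuous_toFun := by
    refine continuous_projIcc.comp (hG.comp ?_)
    exact continuous_pi fun i => continuous_subtype_val.comp (continuous_apply i)

theorem clampC_apply {k : ℕ} (G : (Fin k → ℝ) → ℝ) (hG : Continuous G) (v : Fin k → I) :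
    ((clampC G hG v : I) : ℝ) = max 0 (min 1 (G (fun i => (v i : ℝ)))) := by
  simp [clampC, Set.coe_projIcc]

/-- unary connective -/
noncomputable def un {n : ℕ} (g : ℝ → ℝ) (hg : Continuous g) (φ : Fml L n) : Fml L n :=
  .conn (k := 1) (clampC (fun v => g (v 0)) (by fun_prop)) (fun _ => φ)

theorem un_eval {n : ℕ} (g : ℝ → ℝ) (hg : Continuous g) (φ : Fml L n) (v : Fin n → M) :
    ((un g hg φ).eval v : ℝ) = max 0 (min 1 (g (φ.eval v : ℝ))) := by
  simp [un, Fml.eval, clampC_apply]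

/-- binary connective -/
noncomputable def bin {n : ℕ} (g : ℝ → ℝ → ℝ) (hg : Continuous (fun p : ℝ × ℝ => g p.1 p.2))
    (φ ψ : Fml L n) : Fml L n :=
  .conn (k := 2) (clampC (fun v => g (v 0) (v 1))
    (hg.comp (Continuous.prodMk (continuous_apply 0) (continuous_apply 1)))) ![φ, ψ]

theorem bin_eval {n : ℕ} (g : ℝ → ℝ → ℝ) (hg : Continuous (fun p : ℝ × ℝ => g p.1 p.2))
    (φ ψ : Fml L n) (v : Fin n → M) :
    ((bin g hg φ ψ).eval v : ℝ) = max 0 (min 1 (g (φ.eval v : ℝ) (ψ.eval v : ℝ))) := by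
  simp [bin, Fml.eval, clampC_apply]

/-! ### Iterated infimum and supremum -/

def infN {k : ℕ} : ∀ n : ℕ, Fml L (k + n) → Fml L k
  | 0, φ => φ
  | n + 1, φ => infN n (.inf φ)

def supN {k : ℕ} : ∀ n : ℕ, Fml L (k + n) → Fml L k
  | 0, φ => φ
  | n + 1, φ => supN n (.sup φ)

theorem append_zero' {k : ℕ} (a : Fin k → M) (y : Fin 0 → M) :
    (Fin.append a y : Fin (k + 0) → M) = a := by
  funext i
  exact Fin.append_left a y i

theorem infN_eval {k n : ℕ} (φ : Fml L (k + n)) (a : Fin k → M) :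
    (infN n φ).eval a = ⨅ y : Fin n → M, φ.eval (Fin.append a y) := by
  induction n with
  | zero =>
    simp only [infN]
    rw [iInf_unique]
    rw [append_zero']
  | succ n ih =>
    simp only [infN]
    rw [ih]
    simp only [Fml.eval]
    apply le_antisymm
    · refine le_iInf fun y => ?_
      refine (iInf_le _ (Fin.init y)).trans ?_
      refine (iInf_le _ (y (Fin.last n))).trans (le_of_eq ?_)
      congr 1
      rw [← Fin.append_snoc]
      congr 1
      exact Fin.snoc_init_self y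
    · refine le_iInf fun y => le_iInf fun x => ?_
      refine (iInf_le _ (Fin.snoc (α := fun _ => M) y x)).trans (le_of_eq ?_)
      rw [Fin.append_snoc]

theorem supN_eval {k n : ℕ} (φ : Fml L (k + n)) (a : Fin k → M) :
    (supN n φ).eval a = ⨆ y : Fin n → M, φ.eval (Fin.append a y) := by
  induction n with
  | zero =>
    simp only [supN]
    rw [iSup_unique]
    rw [append_zero']
  | succ n ih =>
    simp only [supN]
    rw [ih]
    simp only [Fml.eval]
    apply le_antisymm
    · refine iSup_le fun y => iSup_le fun x => ?_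
      refine le_trans (le_of_eq ?_) (le_iSup _ (Fin.snoc (α := fun _ => M) y x))
      rw [Fin.append_snoc]
    · refine iSup_le fun y => ?_
      refine le_trans ?_ (le_iSup _ (Fin.init y))
      refine le_trans (le_of_eq ?_) (le_iSup _ (y (Fin.last n)))
      congr 1
      rw [← Fin.append_snoc]
      congr 1
      exact (Fin.snoc_init_self y).symm

/-! ### Uniform continuity of formulas -/

theorem exists_pos_lb {k : ℕ} (f : Fin k → ℝ) (hf : ∀ i, 0 < f i) : ∃ d : ℝ, 0 < d ∧ ∀ i, d ≤ f i := by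
  have h : ∀ᶠ d in nhdsWithin (0 : ℝ) (Set.Ioi 0), ∀ i, d ≤ f i := by
    rw [Filter.eventually_all]
    intro i
    exact nhdsWithin_le_nhds (Iic_mem_nhds (hf i))
  obtain ⟨d, hd, hd'⟩ := (h.and self_mem_nhdsWithin).exists
  exact ⟨d, hd', hd⟩

theorem Term.unif {n : ℕ} (t : Term L n) (e : ℝ) (he : 0 < e) :
    ∃ d : ℝ, 0 < d ∧ ∀ v w : Fin n → M, dist v w < d → dist (t.eval v) (t.eval w) < e := by
  induction t generalizing e with
  | var i => exact ⟨e, he, fun v w h => (dist_le_pi_dist v w i).trans_lt h⟩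
  | app f ts ih =>
    have h1 := L.fnMod_pos f (e / 2) (by positivity)
    choose d hd hd' using fun i => ih i (L.fnMod f (e / 2)) h1
    obtain ⟨d', hd1, hd2⟩ := exists_pos_lb d hd
    refine ⟨d', hd1, fun v w h => ?_⟩
    refine lt_of_le_of_lt (Str.fn_unif (L := L) f (e / 2) (by positivity) _ _ fun i => ?_)
        (by linarith)
    exact hd' i v w (h.trans_le (hd2 i))

theorem dist_snoc_lt {n : ℕ} (v w : Fin n → M) (x : M) (d : ℝ) (hd : 0 < d) (h : dist v w < d) :
    dist (Fin.snoc (α := fun _ => M) v x) (Fin.snoc (α := fun _ => M) w x) < d := by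
  rw [dist_pi_lt_iff hd]
  intro i
  refine Fin.lastCases ?_ (fun i => ?_) i
  · simpa using hd
  · simpa using (dist_le_pi_dist v w i).trans_lt h

theorem iInf_le_add {ι : Sort*} [Nonempty ι] (f g : ι → I) (e : ℝ)
    (h : ∀ i, (f i : ℝ) ≤ (g i : ℝ) + e) : ((⨅ i, f i : I) : ℝ) ≤ ((⨅ i, g i : I) : ℝ) + e := by
  by_contra hc
  push Not at hc
  have h1 : ((⨅ i, g i : I) : ℝ) < ((⨅ i, f i : I) : ℝ) - e := by linarith
  obtain ⟨x, hx⟩ : ∃ i, (g i : ℝ) < ((⨅ i, f i : I) : ℝ) - e := by
    by_contra hcon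
    push Not at hcon
    have h01 : ((⨅ i, f i : I) : ℝ) - e ∈ I := by
      constructor
      · have := (⨅ i, g i : I).2.1
        linarith
      · obtain ⟨i0⟩ := ‹Nonempty ι›
        exact (hcon i0).trans (g i0).2.2
    have : (⟨((⨅ i, f i : I) : ℝ) - e, h01⟩ : I) ≤ ⨅ i, g i := le_iInf fun i => hcon i
    have h2 : ((⨅ i, f i : I) : ℝ) - e ≤ ((⨅ i, g i : I) : ℝ) := this
    linarith
  have h3 : ((⨅ i, f i : I) : ℝ) ≤ (f x : ℝ) := iInf_le f x
  have h4 := h x
  linarith

theorem iSup_le_add {ι : Sort*} [Nonempty ι] (f g : ι → I) (e : ℝ)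
    (h : ∀ i, (f i : ℝ) ≤ (g i : ℝ) + e) : ((⨆ i, f i : I) : ℝ) ≤ ((⨆ i, g i : I) : ℝ) + e := by
  by_contra hc
  push Not at hc
  have h1 : ((⨆ i, g i : I) : ℝ) + e < ((⨆ i, f i : I) : ℝ) := by linarith
  have he : 0 ≤ ((⨆ i, g i : I) : ℝ) + e := by
    obtain ⟨i0⟩ := ‹Nonempty ι›
    have h2 : (g i0 : ℝ) ≤ ((⨆ i, g i : I) : ℝ) := le_iSup g i0
    have := h i0
    have := (f i0).2.1
    linarith
  have h01 : ((⨆ i, g i : I) : ℝ) + e ∈ I := ⟨he, h1.le.trans (⨆ i, f i : I).2.2⟩
  have h5 : (⨆ i, f i) ≤ (⟨((⨆ i, g i : I) : ℝ) + e, h01⟩ : I) := by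
    refine iSup_le fun i => ?_
    have h2 : (g i : ℝ) ≤ ((⨆ i, g i : I) : ℝ) := le_iSup g i
    have h3 := h i
    change (f i : ℝ) ≤ ((⨆ i, g i : I) : ℝ) + e
    linarith
  have h6 : ((⨆ i, f i : I) : ℝ) ≤ ((⨆ i, g i : I) : ℝ) + e := h5
  linarith

theorem conn_unif {k : ℕ} (c : C(Fin k → I, I)) (e : ℝ) (he : 0 < e) :
    ∃ d : ℝ, 0 < d ∧ ∀ v w : Fin k → I, (∀ i, |(v i : ℝ) - (w i : ℝ)| < d) →
      |(c v : ℝ) - (c w : ℝ)| < e := by
  have hc := CompactSpace.uniformContinuous_of_continuous c.continuous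
  rw [Metric.uniformContinuous_iff] at hc
  obtain ⟨d, hd, h⟩ := hc e he
  refine ⟨d, hd, fun v w hvw => ?_⟩
  refine h ?_
  rw [dist_pi_lt_iff hd]
  exact hvw

theorem fml_unif {n : ℕ} (φ : Fml L n) (e : ℝ) (he : 0 < e) :
    ∃ d : ℝ, 0 < d ∧ ∀ v w : Fin n → M, dist v w < d → (φ.eval v : ℝ) ≤ (φ.eval w : ℝ) + e := by
  induction φ generalizing e with
  | dist s t =>
    obtain ⟨d1, hd1, h1⟩ := Term.unif (M := M) s (e / 2) (by positivity)
    obtain ⟨d2, hd2, h2⟩ := Term.unif (M := M) t (e / 2) (by positivity)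
    refine ⟨min d1 d2, lt_min hd1 hd2, fun v w h => ?_⟩
    have h3 := h1 v w (h.trans_le (min_le_left _ _))
    have h4 := h2 v w (h.trans_le (min_le_right _ _))
    simp only [Fml.eval]
    have := dist_triangle4 (s.eval v) (s.eval w) (t.eval w) (t.eval v)
    rw [dist_comm (t.eval w)] at this
    linarith
  | @pred n k P ts =>
    have h1 := L.prMod_pos P e he
    choose d hd hd' using fun i => Term.unif (M := M) (ts i) (L.prMod P e) h1
    obtain ⟨d', hd1, hd2⟩ := exists_pos_lb d hd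
    refine ⟨d', hd1, fun v w h => ?_⟩
    have := Str.pr_unif (L := L) (M := M) P e he (fun i => (ts i).eval v) (fun i => (ts i).eval w)
      fun i => hd' i v w (h.trans_le (hd2 i))
    simp only [Fml.eval]
    linarith [(abs_le.1 this).2]
  | conn c φs ih =>
    obtain ⟨d0, hd0, hc⟩ := conn_unif c e he
    choose d hd hd' using fun i => ih i (d0 / 2) (by positivity)
    obtain ⟨d', hd1, hd2⟩ := exists_pos_lb d hd
    refine ⟨d', hd1, fun v w h => ?_⟩
    have := hc (fun i => (φs i).eval v) (fun i => (φs i).eval w) fun i => ?_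
    · simp only [Fml.eval]
      linarith [(abs_lt.1 this).2]
    · have h1 := hd' i v w (h.trans_le (hd2 i))
      have h2 := hd' i w v (by rw [dist_comm]; exact h.trans_le (hd2 i))
      rw [abs_lt]
      constructor <;> linarith
  | inf φ ih =>
    obtain ⟨d, hd, h⟩ := ih e he
    refine ⟨d, hd, fun v w hvw => ?_⟩
    simp only [Fml.eval]
    have := Str.nonempty (L := L) (M := M)
    exact iInf_le_add _ _ _ fun x => h _ _ (dist_snoc_lt v w x d hd hvw)
  | sup φ ih =>
    obtain ⟨d, hd, h⟩ := ih e he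
    refine ⟨d, hd, fun v w hvw => ?_⟩
    simp only [Fml.eval]
    have := Str.nonempty (L := L) (M := M)
    exact iSup_le_add _ _ _ fun x => h _ _ (dist_snoc_lt v w x d hd hvw)

theorem continuous_eval {n : ℕ} (φ : Fml L n) : Continuous (fun v : Fin n → M => (φ.eval v : ℝ)) := by
  rw [Metric.continuous_iff]
  intro w e he
  obtain ⟨d, hd, h⟩ := fml_unif (M := M) φ (e / 2) (by positivity)
  refine ⟨d, hd, fun v hv => ?_⟩
  rw [Real.dist_eq, abs_lt]
  have h1 := h v w hv
  have h2 := h w v (by rwa [dist_comm])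
  constructor <;> linarith

end Pool.Agent.H956R3.CL
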