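import Mathlib

/-!
# Continuous first-order logic for metric structures

Values of formulas lie in the unit interval, all structures have diameter at most one.
-/

set_option autoImplicit false

namespace Pool.Agent.H956R3.CL

open unitInterval

universe u

/-- A metric signature: function symbols and predicate symbols with arities, each with a modulus of
uniform continuity. -/
structure Sig where
  Fn : ℕ → Type u
  Pr : ℕ → Type u
  fnMod : ∀ {n : ℕ}, Fn n → ℝ → ℝ
  prMod : ∀ {n : ℕ}, Pr n → ℝ → ℝ
  fnMod_pos : ∀ {n : ℕ} (f : Fn n) (e : ℝ), 0 < e → 0 < fnMod f e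
  prMod_pos : ∀ {n : ℕ} (P : Pr n) (e : ℝ), 0 < e → 0 < prMod P e

/-- A metric structure in the signature `L`: a nonempty complete metric space of diameter at most
one, with uniformly continuous functions and `[0,1]`-valued predicates obeying the moduli. -/
class Str (L : Sig.{u}) (M : Type u) [MetricSpace M] where
  nonempty : Nonempty M
  complete : CompleteSpace M
  dist_le_one : ∀ x y : M, dist x y ≤ 1
  fn : ∀ {n : ℕ}, L.Fn n → (Fin n → M) → M
  pr : ∀ {n : ℕ}, L.Pr n → (Fin n → M) → I
  fn_unif : ∀ {n : ℕ} (f : L.Fn n) (e : ℝ), 0 < e → ∀ x y : Fin n → M,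
    (∀ i, dist (x i) (y i) < L.fnMod f e) → dist (fn f x) (fn f y) ≤ e
  pr_unif : ∀ {n : ℕ} (P : L.Pr n) (e : ℝ), 0 < e → ∀ x y : Fin n → M,
    (∀ i, dist (x i) (y i) < L.prMod P e) → |(pr P x : ℝ) - (pr P y : ℝ)| ≤ e

/-- Terms with variables `x_0, …, x_{n-1}`. -/
inductive Term (L : Sig.{u}) (n : ℕ) : Type u
  | var : Fin n → Term L n
  | app {k : ℕ} : L.Fn k → (Fin k → Term L n) → Term L n

/-- Formulas with free variables `x_0, …, x_{n-1}`.  The connectives are all continuous functions
`[0,1]^k → [0,1]`; the quantifiers `inf` and `sup` bind the last variable. -/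
inductive Fml (L : Sig.{u}) : ℕ → Type u
  | dist {n : ℕ} : Term L n → Term L n → Fml L n
  | pred {n k : ℕ} : L.Pr k → (Fin k → Term L n) → Fml L n
  | conn {n k : ℕ} : C(Fin k → I, I) → (Fin k → Fml L n) → Fml L n
  | inf {n : ℕ} : Fml L (n + 1) → Fml L n
  | sup {n : ℕ} : Fml L (n + 1) → Fml L n

section eval

variable {L : Sig.{u}} {M : Type u} [MetricSpace M] [Str L M]

/-- Interpretation of terms. -/
def Term.eval {n : ℕ} : Term L n → (Fin n → M) → M
  | .var i, v => v i
  | .app f ts, v => Str.fn f (fun i => (ts i).eval v)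

/-- Interpretation of formulas. -/
noncomputable def Fml.eval : ∀ {n : ℕ}, Fml L n → (Fin n → M) → I
  | _, .dist s t, v => ⟨Dist.dist (s.eval v) (t.eval v), dist_nonneg, Str.dist_le_one L _ _⟩
  | _, .pred P ts, v => Str.pr P (fun i => (ts i).eval v)
  | _, .conn c φs, v => c (fun i => (φs i).eval v)
  | _, .inf φ, v => ⨅ x : M, φ.eval (Fin.snoc (α := fun _ => M) v x)
  | _, .sup φ, v => ⨆ x : M, φ.eval (Fin.snoc (α := fun _ => M) v x)

end eval

/-- `j` is an elementary embedding. -/
def Elementary (L : Sig.{u}) {M N : Type u} [MetricSpace M] [Str L M] [MetricSpace N] [Str L N]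
    (j : M → N) : Prop :=
  ∀ (n : ℕ) (φ : Fml L n) (v : Fin n → M), φ.eval (j ∘ v) = φ.eval v

/-- A theory: a set of closed conditions `φ = 0`. -/
abbrev Thy (L : Sig.{u}) := Set (Fml L 0)

/-- `M` is a model of `T`. -/
def Models {L : Sig.{u}} (M : Type u) [MetricSpace M] [Str L M] (T : Thy L) : Prop :=
  ∀ φ ∈ T, φ.eval (Fin.elim0 : Fin 0 → M) = 0

/-- Formulas in `n` variables with parameters from `A`: a formula in `k + n` variables together with
a `k`-tuple from `A` plugged in for the first `k` variables. -/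
structure PFml (L : Sig.{u}) {M : Type u} (A : Set M) (n : ℕ) where
  k : ℕ
  fml : Fml L (k + n)
  par : Fin k → A

/-- Value of a formula with parameters from `A ⊆ M` at a tuple of an extension `j : M → N`. -/
noncomputable def PFml.val {L : Sig.{u}} {M N : Type u} {A : Set M} {n : ℕ} [MetricSpace N]
    [Str L N] (φ : PFml L A n) (j : M → N) (b : Fin n → N) : I :=
  φ.fml.eval (Fin.append (fun i => j (φ.par i : M)) b)

/-- The type over `A` of a tuple `b` of `N`, where `j : M → N`. -/
noncomputable def tp (L : Sig.{u}) {M N : Type u} (A : Set M) {n : ℕ} [MetricSpace N] [Str L N]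
    (j : M → N) (b : Fin n → N) : PFml L A n → I :=
  fun φ => φ.val j b

/-- `p` is a complete `n`-type over `A ⊆ M`: the type over `A` of some `n`-tuple in an elementary
extension of `M`. -/
def IsType (L : Sig.{u}) {M : Type u} [MetricSpace M] [Str L M] (A : Set M) (n : ℕ)
    (p : PFml L A n → I) : Prop :=
  ∃ (N : Type u) (_ : MetricSpace N) (_ : Str L N) (j : M → N), Elementary L j ∧
    ∃ b : Fin n → N, tp L A j b = p

/-- `d(p, q) < r` in the metric on types: some elementary extension of `M` contains realizations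
of `p` and of `q` at distance `< r`. -/
def TypesWithin (L : Sig.{u}) {M : Type u} [MetricSpace M] [Str L M] (A : Set M) (n : ℕ)
    (p q : PFml L A n → I) (r : ℝ) : Prop :=
  ∃ (N : Type u) (_ : MetricSpace N) (_ : Str L N) (j : M → N), Elementary L j ∧
    ∃ a b : Fin n → N, tp L A j a = p ∧ tp L A j b = q ∧ dist a b < r

/-- The set `p(M)` of realizations of `p` in `M`. -/
def realizations (L : Sig.{u}) {M : Type u} [MetricSpace M] [Str L M] (A : Set M) (n : ℕ)
    (p : PFml L A n → I) : Set (Fin n → M) :=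
  {b | tp L A (id : M → M) b = p}

/-- `F : M^n → ℝ` is a definable predicate over `A`: a uniform limit of formulas with parameters
from `A`. -/
def DefPred (L : Sig.{u}) {M : Type u} [MetricSpace M] [Str L M] (A : Set M) {n : ℕ}
    (F : (Fin n → M) → ℝ) : Prop :=
  ∀ e : ℝ, 0 < e → ∃ φ : PFml L A n, ∀ b : Fin n → M, |F b - (φ.val (id : M → M) b : ℝ)| ≤ e

/-- `D ⊆ M^n` is d-definable over `A`: it is closed and `dist(x, D)` is a definable predicate
over `A`. -/
def DDef (L : Sig.{u}) {M : Type u} [MetricSpace M] [Str L M] (A : Set M) {n : ℕ}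
    (D : Set (Fin n → M)) : Prop :=
  IsClosed D ∧ DefPred L A (fun x => Metric.infDist x D)

/-- `T` has enough d-definable sets: for all models `M`, all `A ⊆ M`, and all complete types `p`
over `A`, the set `p(M)` is an intersection of sets that are d-definable in `M` over `A`. -/
def Enough {L : Sig.{u}} (T : Thy L) : Prop :=
  ∀ (M : Type u) [MetricSpace M] [Str L M], Models M T → ∀ (A : Set M) (n : ℕ)
    (p : PFml L A n → I), IsType L A n p →
    ∃ 𝒟 : Set (Set (Fin n → M)), (∀ D ∈ 𝒟, DDef L A D) ∧ realizations L A n p = ⋂₀ 𝒟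

/-- The same property with nonempty d-definable sets only. -/
def EnoughNonempty {L : Sig.{u}} (T : Thy L) : Prop :=
  ∀ (M : Type u) [MetricSpace M] [Str L M], Models M T → ∀ (A : Set M) (n : ℕ)
    (p : PFml L A n → I), IsType L A n p →
    ∃ 𝒟 : Set (Set (Fin n → M)), (∀ D ∈ 𝒟, D.Nonempty ∧ DDef L A D) ∧
      realizations L A n p = ⋂₀ 𝒟

/-- `T` is `κ`-stable: over every parameter set of cardinality at most `κ` the space of `n`-types
has a subset of cardinality at most `κ` that is dense for the metric on types. -/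
def KStable {L : Sig.{u}} (T : Thy L) (κ : Cardinal.{u}) : Prop :=
  ∀ (M : Type u) [MetricSpace M] [Str L M], Models M T → ∀ A : Set M, Cardinal.mk A ≤ κ →
    ∀ n : ℕ, ∃ C : Set (PFml L A n → I), Cardinal.mk C ≤ κ ∧
      (∀ q ∈ C, IsType L A n q) ∧
      ∀ p : PFml L A n → I, IsType L A n p → ∀ e : ℝ, 0 < e → ∃ q ∈ C, TypesWithin L A n p q e

/-- `T` is stable: it is `κ`-stable for some infinite `κ`. -/
def Stable {L : Sig.{u}} (T : Thy L) : Prop :=
  ∃ κ : Cardinal.{u}, Cardinal.aleph0 ≤ κ ∧ KStable T κ

/-- `T` is `ℵ₀`-stable: over every countable parameter set the space of `n`-types is separable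
in the metric on types. -/
def AlephZeroStable {L : Sig.{u}} (T : Thy L) : Prop :=
  KStable T Cardinal.aleph0

/-- `T` has a model. -/
def Satisfiable {L : Sig.{u}} (T : Thy L) : Prop :=
  ∃ (M : Type u) (i₁ : MetricSpace M) (i₂ : Str L M), Models (L := L) M T

/-- `T` is complete: every sentence has the same value in all models. -/
def Complete {L : Sig.{u}} (T : Thy L) : Prop :=
  ∀ (M N : Type u) [MetricSpace M] [Str L M] [MetricSpace N] [Str L N], Models M T → Models N T →
    ∀ φ : Fml L 0, φ.eval (Fin.elim0 : Fin 0 → M) = φ.eval (Fin.elim0 : Fin 0 → N)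

end Pool.Agent.H956R3.CL
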