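import Pool.Agent.H956R3.Omega

/-!
# A stable continuous theory without enough d-definable sets

The theory of a discrete metric space with a generic `[0,1]`-valued unary predicate.
-/

set_option autoImplicit false
set_option linter.unusedSectionVars false
set_option linter.constructorNameAsVariable false

namespace Pool.Agent.H956R3.CL

open unitInterval Filter Topology

/-- One unary predicate symbol. -/
inductive PrOne : ℕ → Type
  | P : PrOne 1

/-- The signature with one unary predicate and no function symbols. -/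
noncomputable def L1 : Sig.{0} where
  Fn _ := Empty
  Pr := PrOne
  fnMod f := nomatch f
  prMod _ _ := 1 / 2
  fnMod_pos f := nomatch f
  prMod_pos _ _ _ := by norm_num

/-- Points `(t, k)` with `t ∈ [0,1]`, `k ∈ ℕ`. -/
structure Pt where
  val : I
  idx : ℕ

open Classical in
/-- the discrete metric -/
noncomputable def ptDist (x y : Pt) : ℝ := if x = y then 0 else 1

noncomputable instance : MetricSpace Pt where
  dist := ptDist
  dist_self x := by simp [ptDist]
  dist_comm x y := by
    by_cases h : x = y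
    · simp [h]
    · simp [ptDist, h, Ne.symm h]
  dist_triangle x y z := by
    unfold ptDist
    by_cases h : x = z
    · simp only [h, if_true]
      split_ifs <;> norm_num
    · by_cases h2 : x = y
      · subst h2
        simp [h]
      · simp only [h, h2, if_false]
        split_ifs <;> norm_num
  eq_of_dist_eq_zero {x y} h := by
    by_contra hne
    simp [ptDist, hne] at h

theorem pt_dist {x y : Pt} (h : x ≠ y) : dist x y = 1 := by
  change ptDist x y = 1
  simp [ptDist, h]

noncomputable instance : Str L1 Pt where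
  nonempty := ⟨⟨0, 0⟩⟩
  complete := by
    refine Metric.complete_of_cauchySeq_tendsto fun u hu => ?_
    rw [Metric.cauchySeq_iff'] at hu
    obtain ⟨n0, h0⟩ := hu 1 one_pos
    refine ⟨u n0, ?_⟩
    refine tendsto_const_nhds.congr' ?_
    filter_upwards [eventually_ge_atTop n0] with n hn
    by_contra hne
    have := h0 n hn
    rw [pt_dist (Ne.symm hne)] at this
    exact lt_irrefl _ this
  dist_le_one x y := by
    by_cases h : x = y
    · subst h
      simp
    · rw [pt_dist h]
  fn f := nomatch f
  pr {n} P x := match n, P, x with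
    | _, PrOne.P, x => (x 0).val
  fn_unif f := nomatch f
  pr_unif {n} P e he x y h := by
    cases P
    have h0 : x 0 = y 0 := by
      by_contra hne
      have := h 0
      rw [pt_dist hne] at this
      simp only [L1] at this
      norm_num at this
    simp only [h0, sub_self, abs_zero]
    exact he.le

section rich

variable {N N' : Type} [MetricSpace N] [Str L1 N] [MetricSpace N'] [Str L1 N']

/-- value of the predicate -/
def pv (y : N) : I := Str.pr (L := L1) PrOne.P (fun _ => y)

/-- Structures with discrete metric and generic predicate. -/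
structure Rich (N : Type) [MetricSpace N] [Str L1 N] : Prop where
  disc : ∀ x y : N, x ≠ y → dist x y = 1
  rich : ∀ (m : ℕ) (c : Fin m → N) (r : I) (δ : ℝ), 0 < δ →
    ∃ y : N, (∀ i, y ≠ c i) ∧ |(pv y : ℝ) - (r : ℝ)| ≤ δ

/-- `c` and `c'` have the same equality pattern and `δ`-close predicate values. -/
def Close {m : ℕ} (δ : ℝ) (c : Fin m → N) (c' : Fin m → N') : Prop :=
  (∀ i j, c i = c j ↔ c' i = c' j) ∧ ∀ i, |(pv (c i) : ℝ) - (pv (c' i) : ℝ)| ≤ δ

theorem Close.symm {m : ℕ} {δ : ℝ} {c : Fin m → N} {c' : Fin m → N'} (h : Close δ c c') :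
    Close δ c' c :=
  ⟨fun i j => (h.1 i j).symm, fun i => by rw [abs_sub_comm]; exact h.2 i⟩

theorem Close.mono {m : ℕ} {δ δ' : ℝ} {c : Fin m → N} {c' : Fin m → N'} (h : Close δ c c')
    (hd : δ ≤ δ') : Close δ' c c' :=
  ⟨h.1, fun i => (h.2 i).trans hd⟩

theorem Close.extend {m : ℕ} {δ : ℝ} (hδ : 0 < δ) {c : Fin m → N} {c' : Fin m → N'}
    (h : Close δ c c') (hN' : Rich N') (y : N) :
    ∃ y' : N', Close δ (Fin.snoc (α := fun _ => N) c y) (Fin.snoc (α := fun _ => N') c' y') := by
  by_cases hy : ∃ i, c i = y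
  · obtain ⟨i0, rfl⟩ := hy
    refine ⟨c' i0, ?_, ?_⟩
    · intro i j
      refine Fin.lastCases ?_ (fun i => ?_) i <;> refine Fin.lastCases ?_ (fun j => ?_) j
      · simp
      · simpa using h.1 i0 j
      · simpa using h.1 i i0
      · simpa using h.1 i j
    · intro i
      refine Fin.lastCases ?_ (fun i => ?_) i
      · simpa using h.2 i0
      · simpa using h.2 i
  · push Not at hy
    obtain ⟨y', hy1, hy2⟩ := hN'.rich m c' (pv y) δ hδ
    refine ⟨y', ?_, ?_⟩
    · intro i j
      refine Fin.lastCases ?_ (fun i => ?_) i <;> refine Fin.lastCases ?_ (fun j => ?_) j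
      · simp
      · simp [(hy j).symm, hy1 j]
      · simp [hy i, (hy1 i).symm]
      · simpa using h.1 i j
    · intro i
      refine Fin.lastCases ?_ (fun i => ?_) i
      · simpa [abs_sub_comm] using hy2
      · simpa using h.2 i

theorem iInf_le_add' {ι κ : Type} [Nonempty ι] (f : ι → I) (g : κ → I) (e : ℝ)
    (h : ∀ i, ∃ k, (g k : ℝ) ≤ (f i : ℝ) + e) :
    ((⨅ k, g k : I) : ℝ) ≤ ((⨅ i, f i : I) : ℝ) + e := by
  have := iInf_le_add (fun _ : ι => (⨅ k, g k : I)) f e (fun i => by
    obtain ⟨k, hk⟩ := h i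
    have h1 : ((⨅ k, g k : I) : ℝ) ≤ (g k : ℝ) := iInf_le g k
    linarith)
  rwa [iInf_const] at this

theorem iSup_le_add' {ι κ : Type} [Nonempty κ] (f : ι → I) (g : κ → I) (e : ℝ)
    (h : ∀ k, ∃ i, (g k : ℝ) ≤ (f i : ℝ) + e) :
    ((⨆ k, g k : I) : ℝ) ≤ ((⨆ i, f i : I) : ℝ) + e := by
  have := iSup_le_add g (fun _ : κ => (⨆ i, f i : I)) e (fun k => by
    obtain ⟨i, hi⟩ := h k
    have h1 : (f i : ℝ) ≤ ((⨆ i, f i : I) : ℝ) := le_iSup f i
    linarith)
  rwa [iSup_const] at this

end rich

theorem bf {m : ℕ} (φ : Fml L1 m) (e : ℝ) (he : 0 < e) :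
    ∃ δ : ℝ, 0 < δ ∧ ∀ (N N' : Type) [MetricSpace N] [Str L1 N] [MetricSpace N'] [Str L1 N'],
      Rich N → Rich N' → ∀ (c : Fin m → N) (c' : Fin m → N'), Close δ c c' →
        (φ.eval c' : ℝ) ≤ (φ.eval c : ℝ) + e := by
  induction φ generalizing e with
  | dist s t =>
    refine ⟨1, one_pos, fun N N' _ _ _ _ hN hN' c c' h => ?_⟩
    cases s with
    | app f _ => exact nomatch f
    | var i =>
      cases t with
      | app f _ => exact nomatch f
      | var j =>
        simp only [Fml.eval, Term.eval]
        by_cases hij : c i = c j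
        · rw [(h.1 i j).1 hij, hij]
          simp [he.le]
        · rw [hN.disc _ _ hij, hN'.disc _ _ (fun h' => hij ((h.1 i j).2 h'))]
          linarith
  | pred P ts =>
    refine ⟨e, he, fun N N' _ _ _ _ hN hN' c c' h => ?_⟩
    cases P
    have ht : ∃ i, ts = fun _ => Term.var i := by
      cases h0 : ts 0 with
      | app f _ => exact nomatch f
      | var i =>
        refine ⟨i, ?_⟩
        funext j
        rw [Subsingleton.elim j 0, h0]
    obtain ⟨i, rfl⟩ := ht
    simp only [Fml.eval, Term.eval]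
    have := h.2 i
    rw [abs_le] at this
    have h1 := this.1
    simp only [pv] at h1
    linarith
  | conn c φs ih =>
    obtain ⟨d0, hd0, hc⟩ := conn_unif c e he
    choose d hd hd' using fun i => ih i (d0 / 2) (by positivity)
    obtain ⟨d', hd1, hd2⟩ := exists_pos_lb d hd
    refine ⟨d', hd1, fun N N' _ _ _ _ hN hN' a a' h => ?_⟩
    have := hc (fun i => (φs i).eval a') (fun i => (φs i).eval a) fun i => ?_
    · simp only [Fml.eval]
      linarith [(abs_lt.1 this).2]
    · have h1 := hd' i N N' hN hN' a a' (h.mono (hd2 i))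
      have h2 := hd' i N' N hN' hN a' a (h.mono (hd2 i)).symm
      rw [abs_lt]
      constructor <;> linarith
  | inf φ ih =>
    obtain ⟨d, hd, h⟩ := ih e he
    refine ⟨d, hd, fun N N' _ _ _ _ hN hN' a a' haa => ?_⟩
    simp only [Fml.eval]
    have := Str.nonempty (L := L1) (M := N)
    refine iInf_le_add' _ _ _ fun y => ?_
    obtain ⟨y', hy'⟩ := haa.extend hd hN' y
    exact ⟨y', h N N' hN hN' _ _ hy'⟩
  | sup φ ih =>
    obtain ⟨d, hd, h⟩ := ih e he
    refine ⟨d, hd, fun N N' _ _ _ _ hN hN' a a' haa => ?_⟩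
    simp only [Fml.eval]
    have := Str.nonempty (L := L1) (M := N')
    refine iSup_le_add' _ _ _ fun y' => ?_
    obtain ⟨y, hy⟩ := haa.symm.extend hd hN y'
    exact ⟨y, h N N' hN hN' _ _ hy.symm⟩

/-- The complete theory of `Pt`. -/
def T1 : Thy L1 := {φ | φ.eval (Fin.elim0 : Fin 0 → Pt) = 0}

/-- the metric takes only the values `0` and `1` -/
noncomputable def discS : Fml L1 (0 + 2) :=
  un (fun d => min d (1 - d)) (by fun_prop)
    (.dist (.var (Fin.natAdd 0 (0 : Fin 2))) (.var (Fin.natAdd 0 (1 : Fin 2))))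

/-- `max(|P(y) - r|, 1 - d(y, x_i))` -/
noncomputable def richS (m : ℕ) (r : I) : Fml L1 (0 + m + 1) :=
  .conn (supC (m + 1)) (Fin.snoc (α := fun _ => Fml L1 (0 + m + 1))
    (fun i => un (fun d => 1 - d) (by fun_prop)
      (.dist (.var (Fin.last _)) (.var (Fin.castSucc (Fin.natAdd 0 i)))))
    (un (fun z => |z - r|) (by fun_prop) (.pred PrOne.P (fun _ => .var (Fin.last _)))))

theorem abs_sub_le_one (a b : I) : |(a : ℝ) - (b : ℝ)| ≤ 1 := by
  rw [abs_le]
  constructor <;> linarith [a.2.1, a.2.2, b.2.1, b.2.2]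

section
variable {N : Type} [MetricSpace N] [Str L1 N]

theorem discS_eval (y : Fin 2 → N) :
    ((discS.eval (Fin.append (Fin.elim0 : Fin 0 → N) y) : I) : ℝ) =
      min (dist (y 0) (y 1)) (1 - dist (y 0) (y 1)) := by
  rw [discS, un_eval]
  simp only [Fml.eval, Term.eval, Fin.append_right]
  have h1 : dist (y 0) (y 1) ≤ 1 := Str.dist_le_one L1 _ _
  have h0 : 0 ≤ dist (y 0) (y 1) := dist_nonneg
  rw [min_eq_right, max_eq_right]
  · exact le_min h0 (by linarith)
  · exact (min_le_left _ _).trans h1

theorem richS_lt {m : ℕ} (r : I) (c : Fin m → N) (y : N) (h : ℝ) (h0 : 0 < h) :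
    (((richS m r).eval (Fin.snoc (α := fun _ => N)
      (Fin.append (Fin.elim0 : Fin 0 → N) c) y) : I) : ℝ) < h ↔
      (|(pv y : ℝ) - (r : ℝ)| < h ∧ ∀ i, 1 - dist y (c i) < h) := by
  have hlast : ((un (L := L1) (fun z => |z - (r : ℝ)|) (by fun_prop)
      (.pred PrOne.P (fun _ => .var (Fin.last (0 + m))))).eval
      (Fin.snoc (α := fun _ => N) (Fin.append (Fin.elim0 : Fin 0 → N) c) y) : ℝ) =
      |(pv y : ℝ) - (r : ℝ)| := by
    rw [un_eval]
    simp only [Fml.eval, Term.eval, Fin.snoc_last]
    rw [min_eq_right (abs_sub_le_one _ _), max_eq_right (abs_nonneg _)]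
    rfl
  have hi : ∀ i : Fin m, ((un (L := L1) (fun d => 1 - d) (by fun_prop)
      (.dist (.var (Fin.last (0 + m))) (.var (Fin.castSucc (Fin.natAdd 0 i))))).eval
      (Fin.snoc (α := fun _ => N) (Fin.append (Fin.elim0 : Fin 0 → N) c) y) : ℝ) =
      1 - dist y (c i) := by
    intro i
    rw [un_eval]
    simp only [Fml.eval, Term.eval, Fin.snoc_last, Fin.snoc_castSucc, Fin.append_right]
    have h1 : dist y (c i) ≤ 1 := Str.dist_le_one L1 _ _
    have h0 : 0 ≤ dist y (c i) := dist_nonneg
    rw [min_eq_right (by linarith), max_eq_right (by linarith)]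
  rw [richS]
  simp only [Fml.eval, supC, ContinuousMap.coe_mk]
  constructor
  · intro hlt
    constructor
    · rw [← hlast]
      refine lt_of_le_of_lt ?_ hlt
      have := Finset.le_sup (f := fun i => ((Fin.snoc (α := fun _ => Fml L1 (0 + m + 1))
        (fun i => un (fun d => 1 - d) (by fun_prop)
          (.dist (.var (Fin.last _)) (.var (Fin.castSucc (Fin.natAdd 0 i)))))
        (un (fun z => |z - (r : ℝ)|) (by fun_prop)
          (.pred PrOne.P (fun _ => .var (Fin.last _)))) i : Fml L1 (0 + m + 1)).eval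
            (Fin.snoc (α := fun _ => N) (Fin.append (Fin.elim0 : Fin 0 → N) c) y)))
        (Finset.mem_univ (Fin.last m))
      simp only [Fin.snoc_last] at this
      exact this
    · intro i
      rw [← hi i]
      refine lt_of_le_of_lt ?_ hlt
      have := Finset.le_sup (f := fun i => ((Fin.snoc (α := fun _ => Fml L1 (0 + m + 1))
        (fun i => un (fun d => 1 - d) (by fun_prop)
          (.dist (.var (Fin.last _)) (.var (Fin.castSucc (Fin.natAdd 0 i)))))
        (un (fun z => |z - (r : ℝ)|) (by fun_prop)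
          (.pred PrOne.P (fun _ => .var (Fin.last _)))) i : Fml L1 (0 + m + 1)).eval
            (Fin.snoc (α := fun _ => N) (Fin.append (Fin.elim0 : Fin 0 → N) c) y)))
        (Finset.mem_univ (Fin.castSucc i))
      simp only [Fin.snoc_castSucc] at this
      exact this
  · rintro ⟨h1, h2⟩
    by_cases hh : h ≤ 1
    · have hI : h ∈ I := ⟨h0.le, hh⟩
      have : (Finset.univ.sup (fun i => ((Fin.snoc (α := fun _ => Fml L1 (0 + m + 1))
        (fun i => un (fun d => 1 - d) (by fun_prop)
          (.dist (.var (Fin.last _)) (.var (Fin.castSucc (Fin.natAdd 0 i)))))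
        (un (fun z => |z - (r : ℝ)|) (by fun_prop)
          (.pred PrOne.P (fun _ => .var (Fin.last _)))) i : Fml L1 (0 + m + 1)).eval
            (Fin.snoc (α := fun _ => N) (Fin.append (Fin.elim0 : Fin 0 → N) c) y))) : I) <
          ⟨h, hI⟩ := by
        rw [Finset.sup_lt_iff (by exact (show (0 : ℝ) < h from h0))]
        intro i _
        refine Fin.lastCases ?_ (fun i => ?_) i
        · simp only [Fin.snoc_last]
          rw [← hlast] at h1
          exact h1
        · simp only [Fin.snoc_castSucc]
          have := h2 i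
          rw [← hi i] at this
          exact this
      exact this
    · push Not at hh
      exact lt_of_le_of_lt (unitInterval.le_one _) hh

end

end Pool.Agent.H956R3.CL
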