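import Pool.Agent.H956R3.Gen

set_option autoImplicit false
set_option linter.unusedSectionVars false
set_option linter.constructorNameAsVariable false

namespace Pool.Agent.H956R3.CL

open unitInterval Filter Topology

theorem discS_pt (y : Fin 2 → Pt) :
    (discS.eval (Fin.append (Fin.elim0 : Fin 0 → Pt) y) : I) = 0 := by
  apply Subtype.ext
  rw [discS_eval]
  by_cases h : y 0 = y 1
  · simp [h]
  · rw [pt_dist h]
    simp

theorem pv_pt (x : Pt) : pv x = x.val := rfl

theorem rich_pt : Rich Pt where
  disc x y h := pt_dist h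
  rich m c r δ hδ := by
    obtain ⟨k, hk⟩ : ∃ k : ℕ, ∀ i, (c i).idx ≠ k := by
      have : (Set.range fun i => (c i).idx).Finite := Set.finite_range _
      obtain ⟨k, hk⟩ := this.exists_notMem
      exact ⟨k, fun i hi => hk ⟨i, hi⟩⟩
    refine ⟨⟨r, k⟩, fun i hi => hk i (by rw [← hi]), ?_⟩
    rw [pv_pt]
    simp [hδ.le]

theorem richS_pt (m : ℕ) (r : I) (c : Fin m → Pt) :
    ((Fml.inf (richS m r)).eval (Fin.append (Fin.elim0 : Fin 0 → Pt) c) : I) = 0 := by
  simp only [Fml.eval]
  apply Subtype.ext
  refine le_antisymm (le_of_forall_pos_le_add fun e he => ?_) (unitInterval.nonneg _)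
  obtain ⟨y, hy1, hy2⟩ := rich_pt.rich m c r (e / 2) (by positivity)
  refine le_trans (Subtype.coe_le_coe.2 (iInf_le _ y)) ?_
  refine le_trans ?_ (le_of_eq (zero_add e).symm)
  refine le_of_lt ((richS_lt r c y e he).2 ⟨by linarith, fun i => ?_⟩)
  rw [pt_dist (hy1 i)]
  linarith

theorem discS_mem : supN 2 discS ∈ T1 := by
  change (supN 2 discS).eval (Fin.elim0 : Fin 0 → Pt) = 0
  rw [supN_eval]
  have : Nonempty Pt := ⟨⟨0, 0⟩⟩
  simp only [discS_pt, iSup_const]

theorem richS_mem (m : ℕ) (r : I) : supN m (Fml.inf (richS m r)) ∈ T1 := by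
  change (supN m (Fml.inf (richS m r))).eval (Fin.elim0 : Fin 0 → Pt) = 0
  rw [supN_eval]
  have : Nonempty Pt := ⟨⟨0, 0⟩⟩
  simp only [richS_pt, iSup_const]

/-- Every model of `T1` is rich. -/
theorem rich_of_models {N : Type} [MetricSpace N] [Str L1 N] (h : Models N T1) : Rich N where
  disc x y hxy := by
    have h1 := h _ discS_mem
    rw [supN_eval] at h1
    have h2 : (discS.eval (Fin.append (Fin.elim0 : Fin 0 → N) ![x, y]) : I) ≤ 0 := by
      rw [← h1]
      exact le_iSup (fun y : Fin 2 → N => discS.eval (Fin.append (Fin.elim0 : Fin 0 → N) y)) ![x, y]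
    have h3 : ((discS.eval (Fin.append (Fin.elim0 : Fin 0 → N) ![x, y]) : I) : ℝ) ≤ 0 := h2
    rw [discS_eval] at h3
    simp only [Matrix.cons_val_zero, Matrix.cons_val_one] at h3
    have h4 := dist_pos.2 hxy
    have h5 : dist x y ≤ 1 := Str.dist_le_one L1 _ _
    rcases min_le_iff.1 h3 with h6 | h6
    · linarith
    · linarith
  rich m c r δ hδ := by
    have h1 := h _ (richS_mem m r)
    rw [supN_eval] at h1
    have h2 : ((Fml.inf (richS m r)).eval (Fin.append (Fin.elim0 : Fin 0 → N) c) : I) ≤ 0 := by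
      rw [← h1]
      exact le_iSup (fun c : Fin m → N => (Fml.inf (richS m r)).eval
        (Fin.append (Fin.elim0 : Fin 0 → N) c)) c
    simp only [Fml.eval] at h2
    have h3 : (⨅ x : N, (richS m r).eval (Fin.snoc (α := fun _ => N)
        (Fin.append (Fin.elim0 : Fin 0 → N) c) x) : I) <
        ⟨min δ (1 / 2), ⟨le_min hδ.le (by norm_num), (min_le_right _ _).trans (by norm_num)⟩⟩ := by
      refine lt_of_le_of_lt h2 ?_
      change (0 : ℝ) < min δ (1 / 2)
      exact lt_min hδ (by norm_num)
    rw [iInf_lt_iff] at h3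
    obtain ⟨y, hy⟩ := h3
    have hy' : (((richS m r).eval (Fin.snoc (α := fun _ => N)
        (Fin.append (Fin.elim0 : Fin 0 → N) c) y) : I) : ℝ) < min δ (1 / 2) := hy
    rw [richS_lt r c y _ (lt_min hδ (by norm_num))] at hy'
    refine ⟨y, fun i hi => ?_, (hy'.1.trans_le (min_le_left _ _)).le⟩
    have := (hy'.2 i).trans_le (min_le_right _ _)
    rw [hi, dist_self] at this
    linarith

theorem models_of_elementary {M N : Type} [MetricSpace M] [Str L1 M] [MetricSpace N] [Str L1 N]
    {T : Thy L1} (h : Models M T) (j : M → N) (hj : Elementary L1 j) : Models N T := by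
  intro φ hφ
  have h1 := hj 0 φ Fin.elim0
  have h2 : (j ∘ Fin.elim0 : Fin 0 → N) = Fin.elim0 := by
    funext i
    exact i.elim0
  rw [h2] at h1
  rw [h1]
  exact h φ hφ

/-- `T1` is complete: all models have the same value of every sentence. -/
theorem complete_T1 (M N : Type) [MetricSpace M] [Str L1 M] [MetricSpace N] [Str L1 N]
    (hM : Models M T1) (hN : Models N T1) (φ : Fml L1 0) :
    φ.eval (Fin.elim0 : Fin 0 → M) = φ.eval (Fin.elim0 : Fin 0 → N) := by
  apply Subtype.ext
  apply le_antisymm
  · refine le_of_forall_pos_le_add fun e he => ?_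
    obtain ⟨δ, -, h⟩ := bf φ e he
    exact h N M (rich_of_models hN) (rich_of_models hM) _ _ ⟨fun i => i.elim0, fun i => i.elim0⟩
  · refine le_of_forall_pos_le_add fun e he => ?_
    obtain ⟨δ, -, h⟩ := bf φ e he
    exact h M N (rich_of_models hM) (rich_of_models hN) _ _ ⟨fun i => i.elim0, fun i => i.elim0⟩

theorem elementary_injective {M N : Type} [MetricSpace M] [Str L1 M] [MetricSpace N] [Str L1 N]
    (j : M → N) (hj : Elementary L1 j) : Function.Injective j := by
  intro x y hxy
  have h := hj 2 (.dist (.var 0) (.var 1)) ![x, y]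
  have h2 := congrArg (Subtype.val) h
  simp only [Fml.eval, Term.eval, Function.comp_apply, Matrix.cons_val_zero,
    Matrix.cons_val_one, hxy, dist_self] at h2
  exact dist_eq_zero.1 h2.symm

theorem elementary_pv {M N : Type} [MetricSpace M] [Str L1 M] [MetricSpace N] [Str L1 N]
    (j : M → N) (hj : Elementary L1 j) (x : M) : pv (j x) = pv x :=
  hj 1 (.pred PrOne.P (fun _ => .var 0)) (fun _ => x)

section types

variable {M : Type} [MetricSpace M] [Str L1 M]

/-- Two tuples in elementary extensions with the same data have the same type. -/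
theorem tp_eq {N N' : Type} [MetricSpace N] [Str L1 N] [MetricSpace N'] [Str L1 N']
    (A : Set M) {n : ℕ} (hM : Models M T1) (j : M → N) (hj : Elementary L1 j) (j' : M → N')
    (hj' : Elementary L1 j') (b : Fin n → N) (b' : Fin n → N')
    (h1 : ∀ i, pv (b i) = pv (b' i)) (h2 : ∀ i i', b i = b i' ↔ b' i = b' i')
    (h3 : ∀ i (a : A), b i = j a ↔ b' i = j' a) : tp L1 A j b = tp L1 A j' b' := by
  have hN := rich_of_models (models_of_elementary hM j hj)
  have hN' := rich_of_models (models_of_elementary hM j' hj')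
  funext φ
  obtain ⟨k, φ, a⟩ := φ
  simp only [tp, PFml.val]
  have key : ∀ δ : ℝ, 0 < δ → Close δ (Fin.append (fun i => j (a i : M)) b)
      (Fin.append (fun i => j' (a i : M)) b') := by
    intro δ hδ
    constructor
    · intro i i'
      refine Fin.addCases (fun i => ?_) (fun i => ?_) i <;>
        refine Fin.addCases (fun i' => ?_) (fun i' => ?_) i'
      · simp only [Fin.append_left]
        rw [(elementary_injective j hj).eq_iff, (elementary_injective j' hj').eq_iff]
      · simp only [Fin.append_left, Fin.append_right]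
        rw [eq_comm, h3 i' (a i), eq_comm]
      · simp only [Fin.append_left, Fin.append_right]
        exact h3 i (a i')
      · simp only [Fin.append_right]
        exact h2 i i'
    · intro i
      refine Fin.addCases (fun i => ?_) (fun i => ?_) i
      · simp only [Fin.append_left]
        rw [elementary_pv j hj, elementary_pv j' hj']
        simp [hδ.le]
      · simp only [Fin.append_right]
        rw [h1 i]
        simp [hδ.le]
  apply Subtype.ext
  apply le_antisymm
  · refine le_of_forall_pos_le_add fun e he => ?_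
    obtain ⟨δ, hδ, h⟩ := bf φ e he
    exact h N' N hN' hN _ _ (key δ hδ).symm
  · refine le_of_forall_pos_le_add fun e he => ?_
    obtain ⟨δ, hδ, h⟩ := bf φ e he
    exact h N N' hN hN' _ _ (key δ hδ)

open Classical in
/-- There are at most continuum many types over a set of size at most continuum. -/
theorem card_types (hM : Models M T1) (A : Set M) (hA : Cardinal.mk A ≤ Cardinal.continuum)
    (n : ℕ) : Cardinal.mk {q : PFml L1 A n → I | IsType L1 A n q} ≤ Cardinal.continuum := by
  -- choose realizations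
  have hch : ∀ q : {q : PFml L1 A n → I | IsType L1 A n q},
      ∃ c : (Fin n → I) × (Fin n → Fin n → Prop) × (Fin n → Option A),
      ∃ (N : Type) (_ : MetricSpace N) (_ : Str L1 N) (j : M → N), Elementary L1 j ∧
        ∃ b : Fin n → N, tp L1 A j b = q.1 ∧ (∀ i, c.1 i = pv (b i)) ∧
          (∀ i i', c.2.1 i i' ↔ b i = b i') ∧ (∀ i (a : A), c.2.2 i = some a ↔ b i = j a) := by
    rintro ⟨q, N, i1, i2, j, hj, b, hb⟩
    refine ⟨⟨fun i => pv (b i), fun i i' => b i = b i', fun i =>
      if h : ∃ a : A, b i = j a then some h.choose else none⟩,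
      N, i1, i2, j, hj, b, hb, fun i => rfl, fun i i' => Iff.rfl, fun i a => ?_⟩
    constructor
    · intro h
      simp only at h
      split_ifs at h with h1
      have h2 := h1.choose_spec
      rw [Option.some.injEq] at h
      rw [h] at h2
      exact h2
    · intro h
      have h1 : ∃ a : A, b i = j a := ⟨a, h⟩
      simp only [dif_pos h1, Option.some.injEq]
      have h2 := h1.choose_spec
      exact Subtype.ext (elementary_injective j hj (h2.symm.trans h))
  choose c hc using hch
  have hinj : Function.Injective c := by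
    intro q q' hqq
    obtain ⟨N, i1, i2, j, hj, b, hb, h1, h2, h3⟩ := hc q
    obtain ⟨N', i1', i2', j', hj', b', hb', h1', h2', h3'⟩ := hc q'
    apply Subtype.ext
    rw [← hb, ← hb']
    rw [← hqq] at h1' h2' h3'
    refine tp_eq A hM j hj j' hj' b b' (fun i => ?_) (fun i i' => ?_) (fun i a => ?_)
    · rw [← h1, ← h1']
    · rw [← h2, ← h2']
    · rw [← h3, ← h3']
  refine (Cardinal.mk_le_of_injective hinj).trans ?_
  have hI : Cardinal.mk I ≤ Cardinal.continuum :=
    (Cardinal.mk_Icc_real (zero_lt_one' ℝ)).le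
  have hpow : ∀ X : Type, Cardinal.mk X ≤ Cardinal.continuum →
      Cardinal.mk (Fin n → X) ≤ Cardinal.continuum := by
    intro X hX
    rw [← Cardinal.power_def, Cardinal.mk_fin]
    refine (Cardinal.power_le_power_right hX).trans ?_
    exact Cardinal.power_nat_le Cardinal.aleph0_le_continuum
  rw [Cardinal.mk_prod, Cardinal.mk_prod, Cardinal.lift_id, Cardinal.lift_id, Cardinal.lift_id,
    Cardinal.lift_id]
  have hfin : Cardinal.mk (Fin n → Fin n → Prop) ≤ Cardinal.continuum :=
    (Cardinal.lt_aleph0_of_finite _).le.trans Cardinal.aleph0_le_continuum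
  have hopt : Cardinal.mk (Option A) ≤ Cardinal.continuum := by
    rw [Cardinal.mk_option]
    refine (add_le_add hA (Cardinal.one_lt_aleph0.le.trans Cardinal.aleph0_le_continuum)).trans ?_
    rw [Cardinal.continuum_add_self]
  calc _ ≤ Cardinal.continuum * (Cardinal.continuum * Cardinal.continuum) :=
        mul_le_mul' (hpow _ hI) (mul_le_mul' hfin (hpow _ hopt))
    _ = Cardinal.continuum := by rw [Cardinal.continuum_mul_self, Cardinal.continuum_mul_self]

end types

theorem kstable_T1 : KStable T1 Cardinal.continuum := by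
  intro M _ _ hM A hA n
  refine ⟨{q | IsType L1 A n q}, card_types hM A hA n, fun q hq => hq, fun p hp e he => ⟨p, hp, ?_⟩⟩
  obtain ⟨N, i1, i2, j, hj, b, hb⟩ := hp
  exact ⟨N, i1, i2, j, hj, b, b, hb, hb, by rwa [dist_self]⟩

theorem pt_tuple_dist {x y : Fin 1 → Pt} (h : x ≠ y) : dist x y = 1 := by
  have h0 : x 0 ≠ y 0 := fun h' => h (by
    funext i
    rw [Subsingleton.elim i 0, h'])
  apply le_antisymm
  · rw [dist_pi_le_iff zero_le_one]
    exact fun i => Str.dist_le_one L1 _ _
  · rw [← pt_dist h0]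
    exact dist_le_pi_dist x y 0

/-- In `Pt`, only the empty set and the whole of `Pt` are d-definable without parameters. -/
theorem ddef_trivial (D : Set (Fin 1 → Pt)) (hD : DDef L1 (∅ : Set Pt) D) :
    D = ∅ ∨ D = Set.univ := by
  rcases D.eq_empty_or_nonempty with h | hne
  · exact Or.inl h
  right
  obtain ⟨-, hdef⟩ := hD
  obtain ⟨φ, hφ⟩ := hdef (1 / 8) (by norm_num)
  obtain ⟨k, φ, a⟩ := φ
  have hk : k = 0 := by
    rcases Nat.eq_zero_or_pos k with h | h
    · exact h
    · exact (Set.notMem_empty _ (a ⟨0, h⟩).2).elim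
  subst hk
  obtain ⟨δ, hδ, hbf⟩ := bf φ (1 / 8) (by norm_num)
  have hin : ∀ x ∈ D, Metric.infDist x D = 0 := fun x hx => Metric.infDist_zero_of_mem hx
  have hout : ∀ x, x ∉ D → 1 ≤ Metric.infDist x D := by
    intro x hx
    rw [Metric.le_infDist hne]
    intro y hy
    rw [pt_tuple_dist (fun h => hx (by rw [h]; exact hy))]
  -- closeness implies the same membership
  have hclose : ∀ x y : Fin 1 → Pt, |((x 0).val : ℝ) - ((y 0).val : ℝ)| ≤ δ → (x ∈ D → y ∈ D) := by
    intro x y hxy hx
    by_contra hy
    have h1 := hφ x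
    have h2 := hφ y
    simp only [PFml.val, id] at h1 h2
    rw [hin x hx] at h1
    have h3 := hout y hy
    have h4 := hbf Pt Pt rich_pt rich_pt (Fin.append (fun i => (a i : Pt)) x)
      (Fin.append (fun i => (a i : Pt)) y) ⟨?_, ?_⟩
    · rw [abs_le] at h1 h2
      linarith [h1.1, h1.2, h2.1, h2.2]
    · intro i j
      have hij : i = j := Fin.ext (by omega)
      subst hij
      simp
    · intro i
      refine Fin.addCases (fun i => i.elim0) (fun i => ?_) i
      simp only [Fin.append_right, pv_pt]
      rw [Subsingleton.elim i 0]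
      exact hxy
  let S : Set I := {t | (fun _ => ⟨t, 0⟩ : Fin 1 → Pt) ∈ D}
  have hS : IsClopen S := by
    constructor
    · rw [← isOpen_compl_iff, Metric.isOpen_iff]
      intro t ht
      refine ⟨δ, hδ, fun t' ht' => fun hcon => ht ?_⟩
      refine hclose _ _ ?_ hcon
      exact (Metric.mem_ball.1 ht').le
    · rw [Metric.isOpen_iff]
      intro t ht
      refine ⟨δ, hδ, fun t' ht' => ?_⟩
      refine hclose _ _ ?_ ht
      have : dist t' t < δ := Metric.mem_ball.1 ht'
      rw [dist_comm] at this
      exact this.le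
  have hmem : ∀ x : Fin 1 → Pt, x ∈ D ↔ (x 0).val ∈ S := by
    intro x
    constructor
    · exact hclose _ _ (by simp [hδ.le])
    · exact hclose _ _ (by simp [hδ.le])
  rcases isClopen_iff.1 hS with h | h
  · exfalso
    obtain ⟨x, hx⟩ := hne
    have := (hmem x).1 hx
    rw [h] at this
    exact this
  · ext x
    simp [hmem x, h]

theorem not_enough_T1 : ¬ Enough T1 := by
  intro h
  have hM : Models Pt T1 := fun φ hφ => hφ
  let b : Fin 1 → Pt := fun _ => ⟨0, 0⟩
  let c : Fin 1 → Pt := fun _ => ⟨1, 0⟩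
  obtain ⟨𝒟, h𝒟, heq⟩ := h Pt hM ∅ 1 (tp L1 (∅ : Set Pt) (id : Pt → Pt) b)
    ⟨Pt, inferInstance, inferInstance, id, fun _ _ _ => rfl, b, rfl⟩
  have hb : b ∈ realizations L1 (∅ : Set Pt) 1 (tp L1 (∅ : Set Pt) (id : Pt → Pt) b) := rfl
  have hc : c ∉ realizations L1 (∅ : Set Pt) 1 (tp L1 (∅ : Set Pt) (id : Pt → Pt) b) := by
    intro hc
    have h1 := congrFun hc ⟨0, .pred PrOne.P (fun _ => .var (Fin.natAdd 0 (0 : Fin 1))), Fin.elim0⟩
    simp only [tp, PFml.val, Fml.eval, Term.eval, Fin.append_right] at h1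
    have h2 : (1 : I) = 0 := h1
    exact one_ne_zero h2
  rw [heq] at hb hc
  apply hc
  rw [Set.mem_sInter]
  intro D hD
  rcases ddef_trivial D (h𝒟 D hD) with h1 | h1
  · exfalso
    have := Set.mem_sInter.1 hb D hD
    rw [h1] at this
    exact this
  · rw [h1]
    trivial

end Pool.Agent.H956R3.CL
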