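import Pool.Agent.H956R3.Ultra

/-!
# Every `ℵ₀`-stable continuous theory has enough d-definable sets
-/

set_option autoImplicit false
set_option linter.unusedSectionVars false

namespace Pool.Agent.H956R3.CL

open unitInterval Filter Topology

universe u

variable {L : Sig.{u}} {M N : Type u} [MetricSpace M] [Str L M] [MetricSpace N] [Str L N]

/-- The connective `max(v_0, …, v_{n-1})`. -/
noncomputable def supC (n : ℕ) : C(Fin n → I, I) where
  toFun v := Finset.univ.sup v
  continuous_toFun := by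
    exact Continuous.finset_sup_apply fun i _ => continuous_apply i

/-- `max_i d(x_i, y_i)` in the variables `(a, x, y)`. -/
noncomputable def dTup (L : Sig.{u}) (k n : ℕ) : Fml L (k + n + n) :=
  .conn (supC n) fun i =>
    .dist (.var (Fin.castAdd n (Fin.natAdd k i))) (.var (Fin.natAdd (k + n) i))

theorem dTup_eval {k n : ℕ} (a : Fin k → M) (x y : Fin n → M) :
    (((dTup L k n).eval (Fin.append (Fin.append a x) y) : I) : ℝ) = dist x y := by
  simp only [dTup, Fml.eval, Term.eval, Fin.append_left, Fin.append_right]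
  apply le_antisymm
  · have h0 : dist x y ∈ I := ⟨dist_nonneg, by
      rw [dist_pi_le_iff zero_le_one]
      exact fun i => Str.dist_le_one L _ _⟩
    have : Finset.univ.sup (fun i => (⟨dist (x i) (y i), dist_nonneg, Str.dist_le_one L _ _⟩ : I))
        ≤ ⟨dist x y, h0⟩ := by
      refine Finset.sup_le fun i _ => ?_
      exact dist_le_pi_dist x y i
    exact this
  · rw [dist_pi_le_iff (unitInterval.nonneg _)]
    intro i
    have := Finset.le_sup (f := fun i => (⟨dist (x i) (y i), dist_nonneg,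
      Str.dist_le_one L _ _⟩ : I)) (Finset.mem_univ i)
    exact this

/-- Renaming `(a, y)` to `(a, x, y)`. -/
def rY (k n : ℕ) : Fin (k + n) → Fin (k + n + n) :=
  Fin.addCases (fun i => Fin.castAdd n (Fin.castAdd n i)) (fun j => Fin.natAdd (k + n) j)

theorem append_rY {k n : ℕ} (a : Fin k → M) (x y : Fin n → M) :
    (Fin.append (Fin.append a x) y) ∘ rY k n = Fin.append a y := by
  funext i
  refine Fin.addCases (fun i => ?_) (fun i => ?_) i
  · simp [rY, Fin.append_left]
  · simp [rY, Fin.append_right]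

/-- `inf_y g(φ(a,y), d(x,y))`, a formula in the variables `(a, x)`. -/
noncomputable def infG {k n : ℕ} (φ : Fml L (k + n)) (g : ℝ → ℝ → ℝ)
    (hg : Continuous (fun p : ℝ × ℝ => g p.1 p.2)) : Fml L (k + n) :=
  infN n (bin g hg (φ.rename (rY k n)) (dTup L k n))

theorem infG_eval {k n : ℕ} (φ : Fml L (k + n)) (g : ℝ → ℝ → ℝ)
    (hg : Continuous (fun p : ℝ × ℝ => g p.1 p.2)) (a : Fin k → M) (x : Fin n → M) :
    (infG φ g hg).eval (Fin.append a x) =
      ⨅ y : Fin n → M, (bin g hg (φ.rename (rY k n)) (dTup L k n)).eval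
        (Fin.append (Fin.append a x) y) := by
  rw [infG, infN_eval]

theorem infG_val {k n : ℕ} (φ : Fml L (k + n)) (g : ℝ → ℝ → ℝ)
    (hg : Continuous (fun p : ℝ × ℝ => g p.1 p.2)) (a : Fin k → M) (x y : Fin n → M) :
    (((bin g hg (φ.rename (rY k n)) (dTup L k n)).eval
        (Fin.append (Fin.append a x) y) : I) : ℝ) =
      max 0 (min 1 (g (φ.eval (Fin.append a y) : ℝ) (dist x y))) := by
  rw [bin_eval, dTup_eval, Fml.eval_rename, append_rY]

/-- `χ_{s,r}(a,x) = inf_y max(φ(a,y) - s, d(x,y) - r)` -/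
noncomputable def chi {k n : ℕ} (φ : Fml L (k + n)) (s r : ℝ) : Fml L (k + n) :=
  infG φ (fun p d => max (p - s) (d - r)) (by fun_prop)

theorem chi_lt {k n : ℕ} (φ : Fml L (k + n)) (s r : ℝ) (a : Fin k → M) (x : Fin n → M) (h : ℝ)
    (h0 : 0 < h) (h1 : h ≤ 1) :
    (((chi φ s r).eval (Fin.append a x) : I) : ℝ) < h ↔
      ∃ y : Fin n → M, (φ.eval (Fin.append a y) : ℝ) < s + h ∧ dist x y < r + h := by
  have hI : h ∈ I := ⟨h0.le, h1⟩
  rw [chi, infG_eval]
  have : ((⨅ y : Fin n → M, (bin (fun p d => max (p - s) (d - r)) (by fun_prop)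
      (φ.rename (rY k n)) (dTup L k n)).eval (Fin.append (Fin.append a x) y) : I) : ℝ) < h ↔
      (⨅ y : Fin n → M, (bin (fun p d => max (p - s) (d - r)) (by fun_prop)
      (φ.rename (rY k n)) (dTup L k n)).eval (Fin.append (Fin.append a x) y) : I) < ⟨h, hI⟩ :=
    Iff.rfl
  rw [this, iInf_lt_iff]
  refine exists_congr fun y => ?_
  rw [← Subtype.coe_lt_coe, infG_val, max_lt_iff, min_lt_iff, max_lt_iff]
  constructor
  · rintro ⟨-, h2 | ⟨h2, h3⟩⟩
    · exact absurd h2 (not_lt.2 h1)
    · constructor <;> linarith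
  · rintro ⟨h2, h3⟩
    exact ⟨h0, Or.inr ⟨by linarith, by linarith⟩⟩

/-- `t` is `e`-bad for `φ(a, x)`. -/
def Bad {k n : ℕ} (φ : Fml L (k + n)) (a : Fin k → M) (e t : ℝ) : Prop :=
  ∀ δ : ℝ, 0 < δ → ∃ x : Fin n → M, (φ.eval (Fin.append a x) : ℝ) ≤ t + δ ∧
    ∀ y : Fin n → M, (φ.eval (Fin.append a y) : ℝ) ≤ t → e ≤ dist x y

theorem append_mkT {k n : ℕ} (a : Fin k → M) (x : ℕ → Fin n → M) :
    (Fin.append (fun i => (diag (L := L) (a i) : UP L M)) (mkT (L := L) x)) =
      mkT (L := L) (fun m => Fin.append a (x m)) := by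
  funext i
  refine Fin.addCases (fun i => ?_) (fun i => ?_) i
  · simp [mkT, diag, Fin.append_left]
  · simp [mkT, Fin.append_right]

theorem exists_bad_type {k n : ℕ} (φ : Fml L (k + n)) (A : Set M) (a : Fin k → A) (e t : ℝ)
    (he : 0 < e) (hbad : Bad φ (fun i => (a i : M)) e t) :
    ∃ q : PFml L A n → I, IsType L A n q ∧ (q ⟨k, φ, a⟩ : ℝ) = t ∧
      ∀ s r : ℝ, s < t → r < e → 0 < (q ⟨k, chi φ s r, a⟩ : ℝ) := by
  choose x hx1 hx2 using fun m : ℕ => hbad (1 / ((m : ℝ) + 1)) (by positivity)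
  refine ⟨tp L A (diag : M → UP L M) (mkT (L := L) x),
    ⟨UP L M, inferInstance, inferInstance, diag, diag_elementary, mkT (L := L) x, rfl⟩, ?_, ?_⟩
  · simp only [tp, PFml.val]
    rw [append_mkT, los]
    have h1 : Tendsto (fun m => (φ.eval (Fin.append (fun i => (a i : M)) (x m)) : ℝ))
        (UU : Filter ℕ) (𝓝 t) := by
      have hle : (UU : Filter ℕ) ≤ atTop := by
        rw [← Nat.cofinite_eq_atTop]
        exact Filter.hyperfilter_le_cofinite
      refine Tendsto.mono_left ?_ hle
      have h3 : Tendsto (fun m : ℕ => t + 1 / ((m : ℝ) + 1)) atTop (𝓝 (t + 0)) :=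
        tendsto_const_nhds.add tendsto_one_div_add_atTop_nhds_zero_nat
      rw [add_zero] at h3
      refine tendsto_of_tendsto_of_tendsto_of_le_of_le tendsto_const_nhds h3 (fun m => ?_) hx1
      by_contra hcon
      push Not at hcon
      have := hx2 m (x m) hcon.le
      rw [dist_self] at this
      linarith
    exact tendsto_nhds_unique (tendsto_ulim_real _) h1
  · intro s r hs hr
    simp only [tp, PFml.val]
    rw [append_mkT, los]
    have hpos : 0 < min (min (t - s) (e - r)) 1 := by
      refine lt_min (lt_min ?_ ?_) one_pos <;> linarith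
    refine lt_of_lt_of_le hpos ?_
    refine ge_of_tendsto' (tendsto_ulim_real _) fun m => ?_
    by_contra hcon
    push Not at hcon
    rw [chi_lt _ _ _ _ _ _ hpos (min_le_right _ _)] at hcon
    obtain ⟨y, hy1, hy2⟩ := hcon
    have h1 : min (min (t - s) (e - r)) 1 ≤ t - s := (min_le_left _ _).trans (min_le_left _ _)
    have h2 : min (min (t - s) (e - r)) 1 ≤ e - r := (min_le_left _ _).trans (min_le_right _ _)
    have := hx2 m y (by linarith)
    linarith

theorem bad_separated {k n : ℕ} (φ : Fml L (k + n)) (A : Set M) (a : Fin k → A) (e s t : ℝ)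
    (hst : s < t) (qs qt c : PFml L A n → I)
    (hqs : (qs ⟨k, φ, a⟩ : ℝ) = s)
    (hqt : ∀ s r : ℝ, s < t → r < e → 0 < (qt ⟨k, chi φ s r, a⟩ : ℝ))
    (h1 : TypesWithin L A n qt c (e / 2)) (h2 : TypesWithin L A n qs c (e / 2)) : False := by
  obtain ⟨N1, i1, i2, j1, -, a1, b1, ha1, hb1, hd1⟩ := h1
  obtain ⟨N2, i3, i4, j2, -, a2, b2, ha2, hb2, hd2⟩ := h2
  have hc0 : ∀ h : ℝ, 0 < h → h ≤ 1 → (c ⟨k, chi φ s (dist a2 b2), a⟩ : ℝ) < h := by
    intro h h0 h1
    rw [← hb2]
    simp only [tp, PFml.val]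
    rw [chi_lt _ _ _ _ _ _ h0 h1]
    refine ⟨a2, ?_, ?_⟩
    · have h3 := congrFun ha2 ⟨k, φ, a⟩
      simp only [tp, PFml.val] at h3
      rw [h3, hqs]
      linarith
    · rw [dist_comm]
      linarith
  have hpos := hqt s (dist a1 b1 + dist a2 b2) hst (by linarith)
  set w := (qt ⟨k, chi φ s (dist a1 b1 + dist a2 b2), a⟩ : ℝ) with hw
  have hw1 : w ≤ 1 := unitInterval.le_one _
  have h4 := hc0 w hpos hw1
  rw [← hb1] at h4
  simp only [tp, PFml.val] at h4
  rw [chi_lt _ _ _ _ _ _ hpos hw1] at h4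
  obtain ⟨y, hy1, hy2⟩ := h4
  have h5 : w < w := by
    conv_lhs => rw [hw]
    rw [← ha1]
    simp only [tp, PFml.val]
    rw [chi_lt _ _ _ _ _ _ hpos hw1]
    refine ⟨y, hy1, ?_⟩
    have := dist_triangle a1 b1 y
    linarith
  exact lt_irrefl _ h5

theorem countable_bad {T : Thy L} (hT : KStable T Cardinal.aleph0) (hM : Models M T)
    {k n : ℕ} (φ : Fml L (k + n)) (a : Fin k → M) (e : ℝ) (he : 0 < e) :
    {t : ℝ | Bad φ a e t}.Countable := by
  have hA : Cardinal.mk (Set.range a) ≤ Cardinal.aleph0 :=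
    Cardinal.mk_le_aleph0_iff.2 (Set.countable_range a).to_subtype
  obtain ⟨C, hC, -, hdense⟩ := hT M hM (Set.range a) hA n
  rw [Cardinal.le_aleph0_iff_set_countable] at hC
  let a' : Fin k → Set.range a := fun i => ⟨a i, Set.mem_range_self i⟩
  have hq : ∀ t : {t : ℝ // Bad φ a e t}, ∃ q : PFml L (Set.range a) n → I,
      IsType L (Set.range a) n q ∧ (q ⟨k, φ, a'⟩ : ℝ) = t ∧
      ∀ s r : ℝ, s < t → r < e → 0 < (q ⟨k, chi φ s r, a'⟩ : ℝ) :=
    fun t => exists_bad_type φ (Set.range a) a' e t he t.2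
  choose q hq1 hq2 hq3 using hq
  choose c hc1 hc2 using fun t => hdense (q t) (hq1 t) (e / 2) (by positivity)
  have hinj : Function.Injective (fun t => (⟨c t, hc1 t⟩ : C)) := by
    intro s t hst
    have hst' : c s = c t := congrArg Subtype.val hst
    by_contra hne
    have hne' : (s : ℝ) ≠ t := fun h => hne (Subtype.ext h)
    rcases lt_or_gt_of_ne hne' with h | h
    · exact bad_separated φ _ a' e s t h (q s) (q t) (c t) (hq2 s) (hq3 t) (hc2 t)
        (hst' ▸ hc2 s)
    · exact bad_separated φ _ a' e t s h (q t) (q s) (c s) (hq2 t) (hq3 s) (hc2 s)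
        (hst' ▸ hc2 t)
  have : Countable C := hC.to_subtype
  exact (hinj.countable : Countable {t : ℝ // Bad φ a e t})

theorem ddef_of_good {A : Set M} {n : ℕ} (φ : PFml L A n) (t : ℝ)
    (hgood : ∀ e : ℝ, 0 < e → ¬ Bad φ.fml (fun i => (φ.par i : M)) e t)
    (hne : ∃ y : Fin n → M, (φ.val (id : M → M) y : ℝ) ≤ t) :
    DDef L A {y : Fin n → M | (φ.val (id : M → M) y : ℝ) ≤ t} := by
  obtain ⟨k, φ, a⟩ := φ
  simp only [PFml.val, id] at hne hgood ⊢
  set D : Set (Fin n → M) := {y | (φ.eval (Fin.append (fun i => (a i : M)) y) : ℝ) ≤ t} with hD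
  have hDne : D.Nonempty := hne
  refine ⟨?_, ?_⟩
  · refine isClosed_le ?_ continuous_const
    refine (continuous_eval φ).comp ?_
    refine continuous_pi fun i => ?_
    refine Fin.addCases (fun i => ?_) (fun i => ?_) i
    · simp only [Fin.append_left]
      exact continuous_const
    · simp only [Fin.append_right]
      exact continuous_apply i
  · intro e he
    have h1 := hgood (e / 2) (by positivity)
    simp only [Bad] at h1
    push Not at h1
    obtain ⟨δ, hδ, h1⟩ := h1
    refine ⟨⟨k, infG φ (fun p d => d + 1 / δ * max 0 (p - t)) (by fun_prop), a⟩, fun x => ?_⟩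
    simp only [PFml.val, id]
    rw [infG_eval]
    have hle1 : Metric.infDist x D ≤ 1 := by
      obtain ⟨y, hy⟩ := hDne
      refine (Metric.infDist_le_dist_of_mem hy).trans ?_
      rw [dist_pi_le_iff zero_le_one]
      exact fun i => Str.dist_le_one L _ _
    have hI : Metric.infDist x D ∈ I := ⟨Metric.infDist_nonneg, hle1⟩
    have hneM := Str.nonempty (L := L) (M := M)
    rw [abs_le]
    constructor
    · -- inf ≤ F + e
      have : ((⨅ y : Fin n → M, (bin (fun p d => d + 1 / δ * max 0 (p - t)) (by fun_prop)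
        (φ.rename (rY k n)) (dTup L k n)).eval
          (Fin.append (Fin.append (fun i => (a i : M)) x) y) : I) : ℝ) ≤ Metric.infDist x D := by
        rw [Metric.infDist_eq_iInf]
        have := hDne.to_subtype
        refine le_ciInf fun y => ?_
        refine le_trans (Subtype.coe_le_coe.2 (iInf_le _ (y : Fin n → M))) ?_
        rw [infG_val]
        have hy : (φ.eval (Fin.append (fun i => (a i : M)) y) : ℝ) ≤ t := y.2
        rw [max_eq_left (by linarith : (φ.eval (Fin.append (fun i => (a i : M)) y) : ℝ) - t ≤ 0)]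
        simp only [mul_zero, add_zero]
        exact max_le dist_nonneg (min_le_right _ _)
      linarith
    · -- F ≤ inf + e
      have h3 : ∀ y : Fin n → M, ((⟨Metric.infDist x D, hI⟩ : I) : ℝ) ≤
          (((bin (fun p d => d + 1 / δ * max 0 (p - t)) (by fun_prop)
        (φ.rename (rY k n)) (dTup L k n)).eval
          (Fin.append (Fin.append (fun i => (a i : M)) x) y) : I) : ℝ) + e := by
        intro y
        rw [infG_val]
        change Metric.infDist x D ≤ _
        rcases le_or_gt (φ.eval (Fin.append (fun i => (a i : M)) y) : ℝ) (t + δ) with h | h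
        · obtain ⟨z, hz1, hz2⟩ := h1 y h
          have h4 : Metric.infDist x D ≤ dist x y + e / 2 := by
            refine (Metric.infDist_le_dist_of_mem (show z ∈ D from hz1)).trans ?_
            have := dist_triangle x y z
            linarith
          have h5 : 0 ≤ 1 / δ * max 0 ((φ.eval (Fin.append (fun i => (a i : M)) y) : ℝ) - t) :=
            mul_nonneg (by positivity) (le_max_left _ _)
          rcases le_total 1 (dist x y + 1 / δ *
            max 0 ((φ.eval (Fin.append (fun i => (a i : M)) y) : ℝ) - t)) with h6 | h6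
          · rw [min_eq_left h6]
            have := le_max_right (0 : ℝ) 1
            linarith
          · rw [min_eq_right h6]
            have := le_max_right (0 : ℝ) (dist x y + 1 / δ *
              max 0 ((φ.eval (Fin.append (fun i => (a i : M)) y) : ℝ) - t))
            linarith
        · have h6 : 1 ≤ dist x y + 1 / δ *
              max 0 ((φ.eval (Fin.append (fun i => (a i : M)) y) : ℝ) - t) := by
            have h7 : δ ≤ max 0 ((φ.eval (Fin.append (fun i => (a i : M)) y) : ℝ) - t) :=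
              le_trans (by linarith) (le_max_right _ _)
            have h8 : 1 / δ * δ ≤ 1 / δ *
              max 0 ((φ.eval (Fin.append (fun i => (a i : M)) y) : ℝ) - t) :=
              mul_le_mul_of_nonneg_left h7 (by positivity)
            rw [one_div_mul_cancel hδ.ne'] at h8
            have := dist_nonneg (x := x) (y := y)
            linarith
          rw [min_eq_left h6]
          have := le_max_right (0 : ℝ) 1
          linarith
      have h9 := iInf_le_add (fun _ : Fin n → M => (⟨Metric.infDist x D, hI⟩ : I)) _ e h3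
      rw [iInf_const] at h9
      change Metric.infDist x D ≤ _ at h9
      linarith

/-- In a model of an `ℵ₀`-stable theory, all but countably many sublevel sets of a formula with
parameters are d-definable. -/
theorem exists_good {T : Thy L} (hT : KStable T Cardinal.aleph0) (hM : Models M T)
    {A : Set M} {n : ℕ} (φ : PFml L A n) (s : ℝ) (hs : 0 < s)
    (hinf : ∀ t : ℝ, 0 < t → ∃ y : Fin n → M, (φ.val (id : M → M) y : ℝ) ≤ t) :
    ∃ t : ℝ, 0 < t ∧ t < s ∧ DDef L A {y : Fin n → M | (φ.val (id : M → M) y : ℝ) ≤ t} := by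
  have hc : (⋃ m : ℕ, {t : ℝ | Bad φ.fml (fun i => (φ.par i : M)) (1 / ((m : ℝ) + 1)) t}).Countable :=
    Set.countable_iUnion fun m => countable_bad hT hM _ _ _ (by positivity)
  obtain ⟨t, ht1, ht2⟩ := (hc.dense_compl ℝ).exists_between hs
  refine ⟨t, ht2.1, ht2.2, ddef_of_good φ t ?_ (hinf t ht2.1)⟩
  intro e he hbad
  apply ht1
  obtain ⟨m, hm⟩ := exists_nat_one_div_lt he
  refine Set.mem_iUnion.2 ⟨m, fun δ hδ => ?_⟩
  obtain ⟨x, hx1, hx2⟩ := hbad δ hδ
  exact ⟨x, hx1, fun y hy => hm.le.trans (hx2 y hy)⟩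

theorem elementary_exists {A : Set M} {n : ℕ} (j : M → N) (hj : Elementary L j)
    (φ : PFml L A n) (b : Fin n → N) (t : ℝ) (ht : 0 < t)
    (hb : (φ.val j b : ℝ) = 0) : ∃ y : Fin n → M, (φ.val (id : M → M) y : ℝ) ≤ t := by
  obtain ⟨k, φ, a⟩ := φ
  simp only [PFml.val, id] at hb ⊢
  have h1 := hj k (infN n φ) (fun i => (a i : M))
  rw [infN_eval, infN_eval] at h1
  have h2 : (⨅ y : Fin n → N, φ.eval (Fin.append (j ∘ fun i => (a i : M)) y) : I) = 0 := by
    refine le_antisymm ((iInf_le _ b).trans ?_) bot_le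
    exact le_of_eq (Subtype.ext hb)
  rw [h2] at h1
  by_contra hcon
  push Not at hcon
  have hneM := Str.nonempty (L := L) (M := M)
  have h3 := iInf_le_add (fun _ : Fin n → M => (1 : I))
    (fun y : Fin n → M => φ.eval (Fin.append (fun i => (a i : M)) y)) (1 - t) (fun y => by
      have := hcon y
      simp only [Set.Icc.coe_one]
      linarith)
  rw [iInf_const, ← h1] at h3
  simp only [Set.Icc.coe_one, Set.Icc.coe_zero] at h3
  linarith

/-- Every `ℵ₀`-stable continuous theory has enough d-definable sets; moreover the d-definable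
sets can be taken nonempty. -/
theorem enough_of_aleph0_stable (T : Thy L) (hT : KStable T Cardinal.aleph0)
    (hM : Models M T) (A : Set M) (n : ℕ) (p : PFml L A n → I) (hp : IsType L A n p) :
    ∃ 𝒟 : Set (Set (Fin n → M)), (∀ D ∈ 𝒟, D.Nonempty ∧ DDef L A D) ∧
      realizations L A n p = ⋂₀ 𝒟 := by
  refine ⟨{D | (D.Nonempty ∧ DDef L A D) ∧ realizations L A n p ⊆ D}, fun D hD => hD.1, ?_⟩
  apply Set.Subset.antisymm
  · intro x hx
    rw [Set.mem_sInter]
    exact fun D hD => hD.2 hx
  · intro x hx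
    by_contra hxp
    have h1 : tp L A (id : M → M) x ≠ p := hxp
    obtain ⟨φ, hφ⟩ := Function.ne_iff.1 h1
    obtain ⟨N, i1, i2, j, hj, b, hb⟩ := hp
    -- the formula |φ - p(φ)|
    set r : ℝ := (p φ : ℝ) with hr
    let ψ : PFml L A n := ⟨φ.k, un (fun z => |z - r|) (by fun_prop) φ.fml, φ.par⟩
    have hr0 : 0 ≤ r := (p φ).2.1
    have hr1 : r ≤ 1 := (p φ).2.2
    have hψ : ∀ (N' : Type u) [MetricSpace N'] [Str L N'] (j' : M → N') (y : Fin n → N'),
        (ψ.val j' y : ℝ) = |(φ.val j' y : ℝ) - r| := by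
      intro N' _ _ j' y
      simp only [ψ, PFml.val]
      rw [un_eval]
      have h2 := (φ.fml.eval (Fin.append (fun i => j' (φ.par i : M)) y)).2.1
      have h3 := (φ.fml.eval (Fin.append (fun i => j' (φ.par i : M)) y)).2.2
      have h4 : |((φ.fml.eval (Fin.append (fun i => j' (φ.par i : M)) y) : I) : ℝ) - r| ≤ 1 := by
        rw [abs_le]
        constructor <;> linarith
      rw [min_eq_right h4, max_eq_right (abs_nonneg _)]
    have hb0 : (ψ.val j b : ℝ) = 0 := by
      rw [hψ]
      have : φ.val j b = p φ := congrFun hb φ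
      rw [this, ← hr]
      simp
    have hinf := fun t (ht : 0 < t) => elementary_exists j hj ψ b t ht hb0
    have hs : 0 < |(φ.val (id : M → M) x : ℝ) - r| := by
      rw [abs_pos, sub_ne_zero]
      intro h
      exact hφ (Subtype.ext h)
    obtain ⟨t, ht0, hts, hD⟩ := exists_good hT hM ψ _ hs hinf
    have h5 : x ∈ {y : Fin n → M | (ψ.val (id : M → M) y : ℝ) ≤ t} := by
      refine Set.mem_sInter.1 hx _ ⟨⟨hinf t ht0, hD⟩, fun y hy => ?_⟩
      have h6 : φ.val (id : M → M) y = p φ := congrFun hy φ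
      change (ψ.val (id : M → M) y : ℝ) ≤ t
      rw [hψ, h6, ← hr]
      simpa using ht0.le
    have h7 : (ψ.val (id : M → M) x : ℝ) ≤ t := h5
    rw [hψ] at h7
    linarith

end Pool.Agent.H956R3.CL
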