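import Mathlib

/-!
# Generic combs in a tree: reducing `k`-inconsistency to `2`-inconsistency

Nodes of the tree `ω^{<ω}` are lists of natural numbers.
-/

set_option autoImplicit false

namespace Pool.Agent.H956R3.TP

open Filter

/-- a nonprincipal ultrafilter -/
noncomputable abbrev UU : Ultrafilter ℕ := Filter.hyperfilter ℕ

/-- The product `p * u * q`. -/
noncomputable def sw (p q : Ultrafilter (List ℕ)) : Ultrafilter (List ℕ) :=
  p.bind (fun r => UU.bind (fun i => q.map (fun s => r ++ i :: s)))

theorem eventually_sw (p q : Ultrafilter (List ℕ)) (R : List ℕ → Prop) :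
    (∀ᶠ t in (sw p q : Filter (List ℕ)), R t) ↔
      ∀ᶠ r in (p : Filter (List ℕ)), ∀ᶠ i in (UU : Filter ℕ), ∀ᶠ s in (q : Filter (List ℕ)),
        R (r ++ i :: s) :=
  Iff.rfl

theorem sw_assoc (p q r : Ultrafilter (List ℕ)) : sw (sw p q) r = sw p (sw q r) := by
  apply Ultrafilter.coe_injective
  apply Filter.ext
  intro s
  have h1 : (∀ᶠ t in (sw (sw p q) r : Filter (List ℕ)), t ∈ s) ↔
      (∀ᶠ t in (sw p (sw q r) : Filter (List ℕ)), t ∈ s) := by
    simp only [eventually_sw, List.append_assoc, List.cons_append]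
  exact h1

theorem exists_p : ∃ p : Ultrafilter (List ℕ), sw p p = p := by
  let _ : Semigroup (Ultrafilter (List ℕ)) := { mul := sw, mul_assoc := sw_assoc }
  refine exists_idempotent_of_compact_t2_of_continuous_mul_left ?_
  intro r
  have hbase := ultrafilterBasis_is_basis (α := List ℕ)
  rw [hbase.continuous_iff]
  rintro _ ⟨s, rfl⟩
  have : (fun x : Ultrafilter (List ℕ) => x * r) ⁻¹' {u | s ∈ u} =
      {u : Ultrafilter (List ℕ) | {t : List ℕ | ∀ᶠ i in (UU : Filter ℕ),
        ∀ᶠ w in (r : Filter (List ℕ)), t ++ i :: w ∈ s} ∈ u} := by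
    ext x
    exact eventually_sw x r (fun t => t ∈ s)
  rw [this]
  exact ultrafilter_isOpen_basic _

/-- An ultrafilter on `ω^{<ω}` with `p * u * p = p`. -/
noncomputable def pp : Ultrafilter (List ℕ) := exists_p.choose

theorem pp_skip (R : List ℕ → Prop) :
    (∀ᶠ t in (pp : Filter (List ℕ)), R t) ↔
      ∀ᶠ r in (pp : Filter (List ℕ)), ∀ᶠ i in (UU : Filter ℕ), ∀ᶠ s in (pp : Filter (List ℕ)),
        R (r ++ i :: s) := by
  have h : sw pp pp = pp := exists_p.choose_spec
  rw [← eventually_sw, h]

abbrev Node := List ℕ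

/-- Generic choice of `c` teeth and one path child at the node `v`. -/
def kids : ℕ → (Finset Node → Node → Prop) → Node → Prop
  | 0, Q, v => ∀ᶠ i in (UU : Filter ℕ), Q {v ++ [i]} (v ++ [i])
  | c + 1, Q, v => ∀ᶠ j in (UU : Filter ℕ), kids c (fun D e => Q (insert (v ++ [j]) D) e) v

theorem kids_mono (c : ℕ) {Q Q' : Finset Node → Node → Prop} (h : ∀ D e, Q D e → Q' D e) (v : Node) :
    kids c Q v → kids c Q' v := by
  induction c generalizing Q Q' with
  | zero =>
    intro hQ
    exact hQ.mono fun i hi => h _ _ hi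
  | succ c ih =>
    intro hQ
    refine hQ.mono fun j hj => ?_
    exact ih (fun D e => h _ _) hj

theorem kids_and (c : ℕ) {Q Q' : Finset Node → Node → Prop} (v : Node) (h : kids c Q v)
    (h' : kids c Q' v) : kids c (fun D e => Q D e ∧ Q' D e) v := by
  induction c generalizing Q Q' with
  | zero => exact Filter.Eventually.and h h'
  | succ c ih =>
    have h1 : ∀ᶠ j in (UU : Filter ℕ), kids c (fun D e => Q (insert (v ++ [j]) D) e) v := h
    have h2 : ∀ᶠ j in (UU : Filter ℕ), kids c (fun D e => Q' (insert (v ++ [j]) D) e) v := h'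
    exact (h1.and h2).mono fun j hj => ih hj.1 hj.2

theorem kids_not (c : ℕ) {Q : Finset Node → Node → Prop} (v : Node) (h : ¬ kids c Q v) :
    kids c (fun D e => ¬ Q D e) v := by
  induction c generalizing Q with
  | zero => exact Ultrafilter.eventually_not.2 h
  | succ c ih =>
    have h1 : ∀ᶠ j in (UU : Filter ℕ), ¬ kids c (fun D e => Q (insert (v ++ [j]) D) e) v :=
      Ultrafilter.eventually_not.2 h
    exact h1.mono fun j hj => ih hj

theorem kids_last (c : ℕ) (v : Node) (R : ℕ → Prop) (h : ∀ᶠ i in (UU : Filter ℕ), R i) :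
    kids c (fun D e => ∃ i, R i ∧ e = v ++ [i] ∧ v ++ [i] ∈ D ∧ D.card ≤ c + 1) v := by
  have key : ∀ (c : ℕ) , kids c (fun D e => ∃ i, R i ∧ e = v ++ [i] ∧ v ++ [i] ∈ D ∧
      D.card ≤ c + 1) v := by
    intro c
    induction c with
    | zero =>
      refine h.mono fun i hi => ⟨i, hi, rfl, Finset.mem_singleton_self _, ?_⟩
      simp
    | succ c ih =>
      refine Filter.Eventually.of_forall fun j => ?_
      refine kids_mono c ?_ v ih
      rintro D e ⟨i, hi, he, hm, hc⟩
      refine ⟨i, hi, he, Finset.mem_insert_of_mem hm, ?_⟩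
      exact (Finset.card_insert_le _ _).trans (by omega)
  exact key c

theorem kids_exists (c : ℕ) {Q : Finset Node → Node → Prop} (v : Node) (h : kids c Q v) :
    ∃ D e, Q D e := by
  induction c generalizing Q with
  | zero =>
    obtain ⟨i, hi⟩ := Filter.Eventually.exists h
    exact ⟨_, _, hi⟩
  | succ c ih =>
    obtain ⟨j, hj⟩ := Filter.Eventually.exists h
    obtain ⟨D, e, hDe⟩ := ih hj
    exact ⟨_, _, hDe⟩

theorem kids_all {ι : Type*} (s : Finset ι) (c : ℕ) {Q : ι → Finset Node → Node → Prop} (v : Node)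
    (h : ∀ a ∈ s, kids c (Q a) v) : kids c (fun D e => ∀ a ∈ s, Q a D e) v := by
  classical
  induction s using Finset.induction_on with
  | empty =>
    refine kids_mono c ?_ v (kids_last c v (fun _ => True) (Filter.Eventually.of_forall fun _ => trivial))
    intro D e _ a ha
    exact absurd ha (Finset.notMem_empty a)
  | insert a s ha ih =>
    have h1 := kids_and c v (h a (Finset.mem_insert_self a s))
      (ih fun b hb => h b (Finset.mem_insert_of_mem hb))
    refine kids_mono c ?_ v h1
    rintro D e ⟨h2, h3⟩ b hb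
    rcases Finset.mem_insert.1 hb with rfl | hb
    · exact h2
    · exact h3 b hb

/-- Generic step from the node `e`. -/
def step (c : ℕ) (Q : Finset Node → Node → Prop) (e : Node) : Prop :=
  ∀ᶠ r in (pp : Filter (List ℕ)), kids c Q (e ++ r)

theorem step_mono (c : ℕ) {Q Q' : Finset Node → Node → Prop} (h : ∀ D e, Q D e → Q' D e) (v : Node) :
    step c Q v → step c Q' v := fun hQ => hQ.mono fun _ hr => kids_mono c h _ hr

theorem step_and (c : ℕ) {Q Q' : Finset Node → Node → Prop} (v : Node) (h : step c Q v)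
    (h' : step c Q' v) : step c (fun D e => Q D e ∧ Q' D e) v :=
  (h.and h').mono fun _ hr => kids_and c _ hr.1 hr.2

theorem step_not (c : ℕ) {Q : Finset Node → Node → Prop} (v : Node) (h : ¬ step c Q v) :
    step c (fun D e => ¬ Q D e) v :=
  (Ultrafilter.eventually_not.2 h).mono fun _ hr => kids_not c _ hr

theorem step_exists (c : ℕ) {Q : Finset Node → Node → Prop} (v : Node) (h : step c Q v) :
    ∃ D e, Q D e := by
  obtain ⟨r, hr⟩ := Filter.Eventually.exists h
  exact kids_exists c _ hr

theorem step_all {ι : Type*} (s : Finset ι) (c : ℕ) {Q : ι → Finset Node → Node → Prop} (v : Node)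
    (h : ∀ a ∈ s, step c (Q a) v) : step c (fun D e => ∀ a ∈ s, Q a D e) v := by
  have h1 : ∀ᶠ r in (pp : Filter (List ℕ)), ∀ a ∈ s, kids c (Q a) (v ++ r) := by
    rw [Filter.eventually_all_finset]
    exact h
  exact h1.mono fun r hr => kids_all s c _ hr

theorem step_card (c : ℕ) (v : Node) : step c (fun D _ => D.card ≤ c + 1) v := by
  refine Filter.Eventually.of_forall fun r => ?_
  refine kids_mono c ?_ _ (kids_last c _ (fun _ => True) (Filter.Eventually.of_forall fun _ => trivial))
  rintro D e ⟨i, -, -, -, h⟩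
  exact h

/-- the skip property: a generic step can be inserted. -/
theorem skip (c d : ℕ) (Q : Finset Node → Node → Prop) (v : Node) (h : step d Q v) :
    ∀ᶠ r in (pp : Filter (List ℕ)), ∀ᶠ i in (UU : Filter ℕ), step d Q (v ++ r ++ [i]) := by
  have h1 := (pp_skip (fun r => kids d Q (v ++ r))).1 h
  refine h1.mono fun r hr => hr.mono fun i hi => ?_
  refine Filter.Eventually.mono hi fun s hs => ?_
  simpa [List.append_assoc] using hs

theorem skip_step (c d : ℕ) (Q : Finset Node → Node → Prop) (v : Node) (h : step d Q v) :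
    step c (fun _ e => step d Q e) v := by
  refine (skip c d Q v h).mono fun r hr => ?_
  refine kids_mono c ?_ _ (kids_last c _ _ hr)
  rintro D e ⟨i, hi, rfl, -, -⟩
  exact hi

section Con

variable {X : Type*} (S : Node → Set X)

/-- The sets `S ν`, `ν ∈ B`, have a common point. -/
def Con (B : Finset Node) : Prop := ∃ x, ∀ ν ∈ B, x ∈ S ν

variable {S} in
theorem Con.mono {B B' : Finset Node} (h : Con S B) (hB : B' ⊆ B) : Con S B' := by
  obtain ⟨x, hx⟩ := h
  exact ⟨x, fun ν hν => hx ν (hB hν)⟩

/-- Generic truth of consistency along a comb with teeth prescribed by the word `σ`. -/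
def Gen : List ℕ → Finset Node → Node → Prop
  | [], B, _ => Con S B
  | c :: σ, B, e => step c (fun D e' => Gen σ (B ∪ D) e') e

/-- Generic quantifier along a word, with an arbitrary final predicate. -/
def GenQ : List ℕ → (Finset Node → Node → Prop) → Finset Node → Node → Prop
  | [], Q, B, e => Q B e
  | c :: τ, Q, B, e => step c (fun D e' => GenQ τ Q (B ∪ D) e') e

theorem gen_append (τ σ : List ℕ) (B : Finset Node) (e : Node) :
    Gen S (τ ++ σ) B e ↔ GenQ τ (Gen S σ) B e := by
  induction τ generalizing B e with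
  | nil => rfl
  | cons c τ ih =>
    simp only [List.cons_append, Gen, GenQ, ih]

theorem genQ_mono (τ : List ℕ) {Q Q' : Finset Node → Node → Prop} (h : ∀ B e, Q B e → Q' B e)
    (B : Finset Node) (e : Node) : GenQ τ Q B e → GenQ τ Q' B e := by
  induction τ generalizing B e with
  | nil => exact h B e
  | cons c τ ih => exact step_mono _ (fun D e' => ih (B ∪ D) e') e

theorem genQ_and (τ : List ℕ) {Q Q' : Finset Node → Node → Prop} (B : Finset Node) (e : Node) :
    GenQ τ Q B e → GenQ τ Q' B e → GenQ τ (fun B e => Q B e ∧ Q' B e) B e := by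
  induction τ generalizing B e with
  | nil => exact fun h h' => ⟨h, h'⟩
  | cons c τ ih =>
    intro h h'
    refine step_mono c ?_ e (step_and c e h h')
    rintro D e' ⟨h1, h2⟩
    exact ih _ _ h1 h2

theorem genQ_not (τ : List ℕ) {Q : Finset Node → Node → Prop} (B : Finset Node) (e : Node)
    (h : ¬ GenQ τ Q B e) : GenQ τ (fun B e => ¬ Q B e) B e := by
  induction τ generalizing B e with
  | nil => exact h
  | cons c τ ih =>
    refine step_mono c ?_ e (step_not c e h)
    intro D e' h'
    exact ih _ _ h'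

/-- bound for the number of nodes added along a word -/
def wt : List ℕ → ℕ
  | [] => 0
  | c :: τ => (c + 1) + wt τ

theorem genQ_exists (τ : List ℕ) {Q : Finset Node → Node → Prop} (B : Finset Node) (e : Node)
    (h : GenQ τ Q B e) : ∃ B' e', Q B' e' ∧ B'.card ≤ B.card + wt τ ∧ B ⊆ B' := by
  induction τ generalizing B e with
  | nil => exact ⟨B, e, h, by simp [wt], subset_rfl⟩
  | cons c τ ih =>
    obtain ⟨D, e', h1, h2⟩ := step_exists c e (step_and c e h (step_card c e))
    obtain ⟨B', e'', h3, h4, h5⟩ := ih _ _ h1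
    refine ⟨B', e'', h3, h4.trans ?_, Finset.subset_union_left.trans h5⟩
    have := Finset.card_union_le B D
    simp only [wt]
    omega

theorem gen_zero (h1 : ∀ η : Node, ∃ x, ∀ ζ, ζ <+: η → x ∈ S ζ) (N : ℕ) (B : Finset Node)
    (e : Node) (hB : ∀ ζ ∈ B, ζ <+: e) : Gen S (List.replicate N 0) B e := by
  induction N generalizing B e with
  | zero =>
    obtain ⟨x, hx⟩ := h1 e
    exact ⟨x, fun ν hν => hx ν (hB ν hν)⟩
  | succ N ih =>
    refine Filter.Eventually.of_forall fun r => Filter.Eventually.of_forall fun i => ?_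
    refine ih _ _ ?_
    intro ζ hζ
    rcases Finset.mem_union.1 hζ with h | h
    · exact (hB ζ h).trans ⟨r ++ [i], by simp⟩
    · rw [Finset.mem_singleton] at h
      rw [h]

theorem kids_con (c : ℕ) (v : Node) (P : Finset Node → Prop) (h : kids c (fun D _ => P D) v) (F : Finset ℕ) :
    ∃ J : Finset ℕ, J.card = c + 1 ∧ Disjoint J F ∧ P (J.image fun i => v ++ [i]) := by
  classical
  induction c generalizing P F with
  | zero =>
    have h2 : ∀ᶠ i in (UU : Filter ℕ), i ∉ F := by
      refine Filter.mem_hyperfilter_of_finite_compl ?_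
      refine F.finite_toSet.subset ?_
      intro i hi
      simpa using hi
    obtain ⟨i, hi, hi2⟩ := (Filter.Eventually.and h h2).exists
    refine ⟨{i}, by simp, by simpa using hi2, ?_⟩
    simpa using hi
  | succ c ih =>
    have h2 : ∀ᶠ i in (UU : Filter ℕ), i ∉ F := by
      refine Filter.mem_hyperfilter_of_finite_compl ?_
      refine F.finite_toSet.subset ?_
      intro i hi
      simpa using hi
    obtain ⟨j, hj, hj2⟩ := (Filter.Eventually.and h h2).exists
    obtain ⟨J, hJ1, hJ2, hJ3⟩ := ih (fun D => P (insert (v ++ [j]) D)) hj (insert j F)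
    have hjJ : j ∉ J := fun h => Finset.disjoint_left.1 hJ2 h (Finset.mem_insert_self j F)
    refine ⟨insert j J, ?_, ?_, ?_⟩
    · rw [Finset.card_insert_of_notMem hjJ, hJ1]
    · rw [Finset.disjoint_insert_left]
      exact ⟨hj2, hJ2.mono_right (Finset.subset_insert _ _)⟩
    · rw [Finset.image_insert]
      exact hJ3

/-- The optimal comb. -/
theorem exists_comb (h1 : ∀ η : Node, ∃ x, ∀ ζ, ζ <+: η → x ∈ S ζ) (k : ℕ)
    (h2 : ∀ (ξ : Node) (J : Finset ℕ), J.card = k → ¬ ∃ x, ∀ i ∈ J, x ∈ S (ξ ++ [i])) :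
    ∃ (c l : ℕ) (τ : List ℕ), (∀ N, Gen S (τ ++ List.replicate N c) {[]} []) ∧
      ¬ Gen S (τ ++ (c + 1) :: List.replicate l c) {[]} [] := by
  classical
  -- the number of teeth
  have hA0 : ∀ N, Gen S (List.replicate N 0) {[]} [] := fun N =>
    gen_zero S h1 N {[]} [] (by simp)
  obtain ⟨k', rfl⟩ : ∃ k', k = k' + 1 := by
    rcases Nat.eq_zero_or_pos k with h | h
    · subst h
      exfalso
      obtain ⟨x, -⟩ := h1 []
      exact h2 [] ∅ rfl ⟨x, by simp⟩
    · exact ⟨k - 1, by omega⟩
  have hAk : ¬ ∀ N, Gen S (List.replicate N k') {[]} [] := by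
    intro h
    have h3 : Gen S [k'] {[]} [] := h 1
    obtain ⟨r, hr⟩ := Filter.Eventually.exists (f := (pp : Filter (List ℕ))) h3
    have hr' : kids k' (fun D _ => Con S ({[]} ∪ D)) ([] ++ r) := hr
    obtain ⟨J, hJ1, -, x, hx⟩ := kids_con k' _ (fun D => Con S ({[]} ∪ D)) hr' ∅
    refine h2 ([] ++ r) J hJ1 ⟨x, fun i hi => hx _ ?_⟩
    exact Finset.mem_union_right _ (Finset.mem_image_of_mem _ hi)
  obtain ⟨c, hc, hc'⟩ : ∃ c, (∀ N, Gen S (List.replicate N c) {[]} []) ∧
      ¬ ∀ N, Gen S (List.replicate N (c + 1)) {[]} [] := by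
    by_contra hcon
    push Not at hcon
    apply hAk
    clear hAk h2
    induction k' with
    | zero => exact hA0
    | succ k' ih => exact hcon k' ih
  push Not at hc'
  obtain ⟨N0, hN0⟩ := hc'
  -- the number of wide levels
  obtain ⟨r, hr, hr'⟩ : ∃ r, (∀ N, Gen S (List.replicate r (c + 1) ++ List.replicate N c) {[]} []) ∧
      ¬ ∀ N, Gen S (List.replicate (r + 1) (c + 1) ++ List.replicate N c) {[]} [] := by
    by_contra hcon
    push Not at hcon
    have : ∀ r, ∀ N, Gen S (List.replicate r (c + 1) ++ List.replicate N c) {[]} [] := by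
      intro r
      induction r with
      | zero => simpa using hc
      | succ r ih => exact hcon r ih
    exact hN0 (by simpa using this N0 0)
  push Not at hr'
  obtain ⟨l, hl⟩ := hr'
  refine ⟨c, l, List.replicate r (c + 1), hr, ?_⟩
  rwa [List.replicate_succ', List.append_assoc] at hl

end Con

end Pool.Agent.H956R3.TP
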