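import Pool.Agent.H956R3.TP1

set_option autoImplicit false

namespace Pool.Agent.H956R3.TP

open Filter

theorem step_not' (c : ℕ) {Q : Finset Node → Node → Prop} (v : Node)
    (h : step c (fun D e => ¬ Q D e) v) : ¬ step c Q v := by
  intro h'
  obtain ⟨D, e, h1, h2⟩ := step_exists c v (step_and c v h h')
  exact h1 h2

variable {X : Type*} (S : Node → Set X) (c l : ℕ) (B₀ : Finset Node)

theorem gen_con (σ : List ℕ) (B : Finset Node) (e : Node) (h : Gen S σ B e) : Con S B := by
  induction σ generalizing B e with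
  | nil => exact h
  | cons c σ ih =>
    obtain ⟨D, e', h1⟩ := step_exists c e h
    exact (ih _ _ h1).mono Finset.subset_union_left

/-- The invariant: a wide level above `e` followed by `l` levels is inconsistent with `B₀`. -/
def Inv (e : Node) : Prop :=
  step (c + 1) (fun D e' => ¬ Gen S (List.replicate l c) (B₀ ∪ D) e') e

theorem inv_of_not (e : Node) (h : ¬ Gen S ((c + 1) :: List.replicate l c) B₀ e) :
    Inv S c l B₀ e := step_not _ _ h

theorem run (l' N : ℕ) (B : Finset Node) (e : Node)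
    (hG : Gen S (List.replicate (l' + N) c) B e) (𝒞 : Finset (Finset Node))
    (h𝒞 : ∀ C ∈ 𝒞, ¬ Gen S (List.replicate l' c) C e) (hI : Inv S c l B₀ e) :
    ∃ D e', D.card ≤ l' * (c + 1) ∧ Gen S (List.replicate N c) (B ∪ D) e' ∧
      (∀ C ∈ 𝒞, ¬ Con S (C ∪ D)) ∧ Inv S c l B₀ e' := by
  classical
  induction l' generalizing B e 𝒞 with
  | zero =>
    refine ⟨∅, e, by simp, by simpa using hG, ?_, hI⟩
    intro C hC
    simpa [Gen] using h𝒞 C hC
  | succ l' ih =>
    have hG' : step c (fun D e' => Gen S (List.replicate (l' + N) c) (B ∪ D) e') e := by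
      have : l' + 1 + N = (l' + N) + 1 := by omega
      rw [this] at hG
      exact hG
    have h1 := step_all 𝒞 c (Q := fun C D e' => ¬ Gen S (List.replicate l' c) (C ∪ D) e') e
      (fun C hC => step_not c e (h𝒞 C hC))
    have h2 := skip_step c (c + 1) _ e hI
    obtain ⟨D, e', ⟨⟨h3, h4⟩, h5⟩, h6⟩ := step_exists c e
      (step_and c e (step_and c e (step_and c e hG' h1) h2) (step_card c e))
    obtain ⟨D', e'', h7, h8, h9, h10⟩ := ih (B ∪ D) e' h3 (𝒞.image fun C => C ∪ D) (by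
      intro C hC
      obtain ⟨C', hC', rfl⟩ := Finset.mem_image.1 hC
      exact h4 C' hC') h5
    refine ⟨D ∪ D', e'', ?_, ?_, ?_, h10⟩
    · have := Finset.card_union_le D D'
      have h11 : (l' + 1) * (c + 1) = l' * (c + 1) + (c + 1) := by ring
      omega
    · rwa [Finset.union_assoc] at h8
    · intro C hC
      have := h9 (C ∪ D) (Finset.mem_image_of_mem _ hC)
      rwa [Finset.union_assoc] at this

theorem children (w N : ℕ) (B : Finset Node) (e : Node)
    (hG : Gen S (List.replicate ((l + 1) + N) c) B e) (hI : Inv S c l B₀ e) :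
    ∃ (blk : ℕ → Finset Node) (en : ℕ → Node), ∀ t < w,
      (blk t).card ≤ (l + 1) * (c + 1) ∧ Gen S (List.replicate N c) (B ∪ blk t) (en t) ∧
      Inv S c l B₀ (en t) ∧ ∀ s < t, ¬ Con S (B₀ ∪ blk s ∪ blk t) := by
  classical
  have hG' : step c (fun D e' => Gen S (List.replicate (l + N) c) (B ∪ D) e') e := by
    have : l + 1 + N = (l + N) + 1 := by omega
    rw [this] at hG
    exact hG
  obtain ⟨r, ⟨hr1, hr2⟩, hr3⟩ := ((Filter.Eventually.and hG' hI).and
    (skip (c := c) (d := c + 1) _ e hI)).exists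
  set v := e ++ r with hv
  let K : ℕ → Prop := fun j =>
    kids c (fun D e' => ¬ Gen S (List.replicate l c) (B₀ ∪ insert (v ++ [j]) D) e') v
  have hK : ∀ᶠ j in (UU : Filter ℕ), K j := hr2
  have key : ∀ w : ℕ, ∃ (blk : ℕ → Finset Node) (en : ℕ → Node) (idx : ℕ → ℕ), ∀ t < w,
      ((blk t).card ≤ (l + 1) * (c + 1) ∧ Gen S (List.replicate N c) (B ∪ blk t) (en t) ∧
      Inv S c l B₀ (en t)) ∧ (∀ s < t, ¬ Con S (B₀ ∪ blk s ∪ blk t)) ∧ K (idx t) ∧
      v ++ [idx t] ∈ blk t := by
    intro w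
    induction w with
    | zero => exact ⟨fun _ => ∅, fun _ => [], fun _ => 0, fun t ht => absurd ht (Nat.not_lt_zero t)⟩
    | succ w ih =>
      obtain ⟨blk, en, idx, h⟩ := ih
      have h1 := kids_all (Finset.range w) c (Q := fun s D e' =>
        ¬ Gen S (List.replicate l c) (B₀ ∪ insert (v ++ [idx s]) D) e') v
        (fun s hs => (h s (Finset.mem_range.1 hs)).2.2.1)
      have h2 := kids_last c v (fun i => K i ∧ Inv S c l B₀ (v ++ [i])) (hK.and hr3)
      obtain ⟨D, e', ⟨h3, h4⟩, i, ⟨h5, h6⟩, rfl, h7, h8⟩ := kids_exists c v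
        (kids_and c v (kids_and c v hr1 h1) h2)
      obtain ⟨D', e'', h9, h10, h11, h12⟩ := run S c l B₀ l N (B ∪ D) (v ++ [i]) h3
        ((Finset.range w).image fun s => B₀ ∪ insert (v ++ [idx s]) D) (by
          intro C hC
          obtain ⟨s, hs, rfl⟩ := Finset.mem_image.1 hC
          exact h4 s hs) h6
      refine ⟨Function.update blk w (D ∪ D'), Function.update en w e'',
        Function.update idx w i, ?_⟩
      intro t ht
      rcases Nat.lt_succ_iff_lt_or_eq.1 ht with ht' | rfl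
      · have hne : t ≠ w := ht'.ne
        simp only [Function.update_of_ne hne]
        refine ⟨(h t ht').1, fun s hs => ?_, (h t ht').2.2.1, (h t ht').2.2.2⟩
        have hne' : s ≠ w := (hs.trans ht').ne
        rw [Function.update_of_ne hne']
        exact (h t ht').2.1 s hs
      · simp only [Function.update_self]
        refine ⟨⟨?_, ?_, h12⟩, fun s hs => ?_, h5, Finset.mem_union_left _ h7⟩
        · have := Finset.card_union_le D D'
          have h13 : (l + 1) * (c + 1) = l * (c + 1) + (c + 1) := by ring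
          omega
        · rwa [Finset.union_assoc] at h10
        · rw [Function.update_of_ne hs.ne]
          have h14 := h11 (B₀ ∪ insert (v ++ [idx s]) D)
            (Finset.mem_image_of_mem _ (Finset.mem_range.2 hs))
          intro hcon
          apply h14
          refine hcon.mono ?_
          intro ν hν
          simp only [Finset.mem_union, Finset.mem_insert] at hν ⊢
          rcases hν with (h15 | h15 | h15) | h15
          · exact Or.inl (Or.inl h15)
          · rw [h15]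
            exact Or.inl (Or.inr (h s hs).2.2.2)
          · exact Or.inr (Or.inl h15)
          · exact Or.inr (Or.inr h15)
  obtain ⟨blk, en, idx, h⟩ := key w
  exact ⟨blk, en, fun t ht => ⟨(h t ht).1.1, (h t ht).1.2.1, (h t ht).1.2.2, (h t ht).2.1⟩⟩

theorem tree (w n : ℕ) (B : Finset Node) (e : Node)
    (hG : Gen S (List.replicate (n * (l + 1)) c) B e) (hI : Inv S c l B₀ e) :
    ∃ β : List ℕ → Finset Node, (∀ θ, (β θ).card ≤ (l + 1) * (c + 1)) ∧
      (∀ θ : List ℕ, θ.length ≤ n → (∀ a ∈ θ, a < w) → ∃ x, (∀ ν ∈ B, x ∈ S ν) ∧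
        ∀ ζ, ζ ≠ [] → ζ <+: θ → ∀ ν ∈ β ζ, x ∈ S ν) ∧
      (∀ (ξ : List ℕ) (a b : ℕ), ξ.length < n → (∀ i ∈ ξ, i < w) → a < w → b < w → a ≠ b →
        ¬ Con S (B₀ ∪ β (ξ ++ [a]) ∪ β (ξ ++ [b]))) := by
  classical
  induction n generalizing B e with
  | zero =>
    refine ⟨fun _ => ∅, by simp, ?_, fun ξ a b h => absurd h (Nat.not_lt_zero _)⟩
    intro θ hθ _
    obtain ⟨x, hx⟩ := gen_con S _ _ _ hG
    refine ⟨x, hx, fun ζ _ _ ν hν => absurd hν (Finset.notMem_empty ν)⟩
  | succ n ih =>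
    have hG' : Gen S (List.replicate ((l + 1) + n * (l + 1)) c) B e := by
      have : (n + 1) * (l + 1) = (l + 1) + n * (l + 1) := by ring
      rwa [this] at hG
    obtain ⟨blk, en, h⟩ := children S c l B₀ w _ B e hG' hI
    have h1 : ∀ t, ∃ β : List ℕ → Finset Node, (∀ θ, (β θ).card ≤ (l + 1) * (c + 1)) ∧ (t < w →
      (∀ θ : List ℕ, θ.length ≤ n → (∀ a ∈ θ, a < w) → ∃ x, (∀ ν ∈ B ∪ blk t, x ∈ S ν) ∧
        ∀ ζ, ζ ≠ [] → ζ <+: θ → ∀ ν ∈ β ζ, x ∈ S ν) ∧
      (∀ (ξ : List ℕ) (a b : ℕ), ξ.length < n → (∀ i ∈ ξ, i < w) → a < w → b < w → a ≠ b →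
        ¬ Con S (B₀ ∪ β (ξ ++ [a]) ∪ β (ξ ++ [b])))) := by
      intro t
      by_cases ht : t < w
      · obtain ⟨β, hβ1, hβ2, hβ3⟩ := ih _ _ (h t ht).2.1 (h t ht).2.2.1
        exact ⟨β, hβ1, fun _ => ⟨hβ2, hβ3⟩⟩
      · exact ⟨fun _ => ∅, by simp, fun h' => absurd h' ht⟩
    choose βs hβ1 hβ2 using h1
    let β : List ℕ → Finset Node := fun θ => match θ with
      | [] => ∅
      | t :: [] => if t < w then blk t else ∅
      | t :: a :: θ' => βs t (a :: θ')
    have hβs : ∀ t (θ' : List ℕ), θ' ≠ [] → β (t :: θ') = βs t θ' := by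
      intro t θ' hθ'
      match θ', hθ' with
      | a :: θ'', _ => rfl
    have hβb : ∀ t, t < w → β [t] = blk t := by
      intro t ht
      simp only [β]
      rw [if_pos ht]
    refine ⟨β, ?_, ?_, ?_⟩
    · intro θ
      match θ with
      | [] => simp [β]
      | [t] =>
        simp only [β]
        split_ifs with ht
        · exact (h t ht).1
        · simp
      | t :: a :: θ' => exact hβ1 t _
    · intro θ hθ hw
      match θ with
      | [] =>
        obtain ⟨x, hx⟩ := gen_con S _ _ _ hG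
        refine ⟨x, hx, fun ζ hζ hp => absurd (List.prefix_nil.1 hp) hζ⟩
      | t :: θ' =>
        have ht : t < w := hw t List.mem_cons_self
        obtain ⟨x, hx1, hx2⟩ := (hβ2 t ht).1 θ' (by simpa using hθ)
          (fun a ha => hw a (List.mem_cons_of_mem _ ha))
        refine ⟨x, fun ν hν => hx1 ν (Finset.mem_union_left _ hν), ?_⟩
        intro ζ hζ hp ν hν
        match ζ, hζ with
        | t' :: ζ', _ =>
          rw [List.cons_prefix_cons] at hp
          obtain ⟨rfl, hp⟩ := hp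
          by_cases hζ' : ζ' = []
          · subst hζ'
            rw [hβb _ ht] at hν
            exact hx1 ν (Finset.mem_union_right _ hν)
          · rw [hβs _ _ hζ'] at hν
            exact hx2 ζ' hζ' hp ν hν
    · intro ξ a b hξ hw ha hb hab
      match ξ with
      | [] =>
        simp only [List.nil_append]
        rw [hβb a ha, hβb b hb]
        rcases lt_or_gt_of_ne hab with h' | h'
        · exact (h b hb).2.2.2 a h'
        · have := (h a ha).2.2.2 b h'
          rwa [Finset.union_right_comm]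
      | t :: ξ' =>
        have ht : t < w := hw t List.mem_cons_self
        simp only [List.cons_append]
        rw [hβs _ _ (by simp), hβs _ _ (by simp)]
        exact (hβ2 t ht).2 ξ' a b (by simpa using hξ)
          (fun i hi => hw i (List.mem_cons_of_mem _ hi)) ha hb hab

theorem exists_enum {α : Type*} (A : Finset α) (m : ℕ) (hA : A.Nonempty) (h : A.card ≤ m) :
    ∃ f : Fin m → α, Set.range f = (A : Set α) := by
  classical
  obtain ⟨a0, ha0⟩ := hA
  let e := A.equivFin
  refine ⟨fun i => if hi : (i : ℕ) < A.card then (e.symm ⟨i, hi⟩ : α) else a0, ?_⟩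
  ext y
  simp only [Set.mem_range, Finset.mem_coe]
  constructor
  · rintro ⟨i, rfl⟩
    split_ifs with hi
    · exact (e.symm ⟨i, hi⟩).2
    · exact ha0
  · intro hy
    have hlt := (e ⟨y, hy⟩).2
    refine ⟨⟨e ⟨y, hy⟩, hlt.trans_le h⟩, ?_⟩
    rw [dif_pos hlt]
    simp

/-- Reduction from `k`-inconsistency to `2`-inconsistency: for a fixed number `m` of nodes, there
are trees of all finite sizes of `m`-tuples of nodes with pairwise inconsistent siblings. -/
theorem two_tree (h1 : ∀ η : Node, ∃ x, ∀ ζ, ζ <+: η → x ∈ S ζ) (k : ℕ)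
    (h2 : ∀ (ξ : Node) (J : Finset ℕ), J.card = k → ¬ ∃ x, ∀ i ∈ J, x ∈ S (ξ ++ [i])) :
    ∃ m : ℕ, ∀ n w : ℕ, ∃ f : List ℕ → Fin m → Node,
      (∀ θ : List ℕ, θ.length ≤ n → (∀ a ∈ θ, a < w) → ∃ x, ∀ ζ, ζ ≠ [] → ζ <+: θ →
        ∀ i, x ∈ S (f ζ i)) ∧
      (∀ (ξ : List ℕ) (a b : ℕ), ξ.length < n → (∀ i ∈ ξ, i < w) → a < w → b < w → a ≠ b →
        ¬ ∃ x, (∀ i, x ∈ S (f (ξ ++ [a]) i)) ∧ ∀ i, x ∈ S (f (ξ ++ [b]) i)) := by
  classical
  obtain ⟨c, l, τ, hτ1, hτ2⟩ := exists_comb S h1 k h2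
  refine ⟨1 + wt τ + (l + 1) * (c + 1), fun n w => ?_⟩
  have h3 := (gen_append S τ (List.replicate (n * (l + 1)) c) {[]} []).1 (hτ1 _)
  have h4 : ¬ GenQ τ (Gen S ((c + 1) :: List.replicate l c)) {[]} [] := fun h =>
    hτ2 ((gen_append S _ _ _ _).2 h)
  obtain ⟨B₀, e₀, ⟨h5, h6⟩, h7, h8⟩ := genQ_exists τ _ _ (genQ_and τ _ _ h3 (genQ_not τ _ _ h4))
  obtain ⟨β, hβ1, hβ2, hβ3⟩ := tree S c l B₀ w n B₀ e₀ h5 (inv_of_not S c l B₀ e₀ h6)
  have hf : ∀ θ, ∃ f : Fin (1 + wt τ + (l + 1) * (c + 1)) → Node,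
      Set.range f = ((B₀ ∪ β θ : Finset Node) : Set Node) := by
    intro θ
    refine exists_enum _ _ ⟨[], Finset.mem_union_left _ (h8 (Finset.mem_singleton_self _))⟩ ?_
    have h9 := Finset.card_union_le B₀ (β θ)
    have h10 := hβ1 θ
    have h11 : ({[]} : Finset Node).card = 1 := rfl
    omega
  choose f hf using hf
  have hf' : ∀ θ x, (∀ i, x ∈ S (f θ i)) ↔ ∀ ν ∈ B₀ ∪ β θ, x ∈ S ν := by
    intro θ x
    constructor
    · intro h ν hν
      have : ν ∈ Set.range (f θ) := by
        rw [hf]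
        exact hν
      obtain ⟨i, rfl⟩ := this
      exact h i
    · intro h i
      refine h _ ?_
      have : f θ i ∈ Set.range (f θ) := Set.mem_range_self i
      rw [hf] at this
      exact this
  refine ⟨f, ?_, ?_⟩
  · intro θ hθ hw
    obtain ⟨x, hx1, hx2⟩ := hβ2 θ hθ hw
    refine ⟨x, fun ζ hζ hp => ?_⟩
    rw [hf']
    intro ν hν
    rcases Finset.mem_union.1 hν with h | h
    · exact hx1 ν h
    · exact hx2 ζ hζ hp ν h
  · rintro ξ a b hξ hw ha hb hab ⟨x, hx1, hx2⟩
    rw [hf'] at hx1 hx2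
    refine hβ3 ξ a b hξ hw ha hb hab ⟨x, fun ν hν => ?_⟩
    rcases Finset.mem_union.1 hν with h | h
    · exact hx1 ν h
    · exact hx2 ν (Finset.mem_union_right _ h)

end Pool.Agent.H956R3.TP
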