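import Pool.Agent.H956R3.TP2

/-!
# Exact trees by counting

Nodes are now written in reversed order (the head of the list is the last coordinate), so that
initial segments of a node are suffixes of the list.
-/

set_option autoImplicit false

namespace Pool.Agent.H956R3.TP

/-- lists of length at most `n` with entries below `w` -/
def Valid (n w : ℕ) (θ : List ℕ) : Prop := θ.length ≤ n ∧ ∀ a ∈ θ, a < w

theorem finite_valid (n w : ℕ) : {θ | Valid n w θ}.Finite := by
  have h := (List.finite_length_le (Fin w) n).image (List.map (Fin.val))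
  refine h.subset ?_
  rintro θ ⟨h1, h2⟩
  refine ⟨θ.pmap (fun a ha => (⟨a, ha⟩ : Fin w)) h2, by simpa using h1, ?_⟩
  simp [List.map_pmap]

/-- thinning of the tree -/
def thin (K : ℕ) (G : List ℕ → ℕ) : List ℕ → List ℕ
  | [] => []
  | a :: θ => (a * K + G (a :: θ)) :: thin K G θ

theorem thin_length (K : ℕ) (G : List ℕ → ℕ) (θ : List ℕ) : (thin K G θ).length = θ.length := by
  induction θ with
  | nil => rfl
  | cons a θ ih => simp [thin, ih]

theorem head_lt {a w K g : ℕ} (ha : a < w) (hg : g < K) : a * K + g < w * K := by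
  calc a * K + g < a * K + K := by omega
    _ = (a + 1) * K := by ring
    _ ≤ w * K := Nat.mul_le_mul_right K ha

theorem thin_lt {K w : ℕ} {G : List ℕ → ℕ} (hG : ∀ θ, G θ < K) (θ : List ℕ) (h : ∀ a ∈ θ, a < w) :
    ∀ a ∈ thin K G θ, a < w * K := by
  induction θ with
  | nil => simp [thin]
  | cons a θ ih =>
    intro b hb
    rcases List.mem_cons.1 hb with rfl | hb
    · exact head_lt (h a List.mem_cons_self) (hG _)
    · exact ih (fun a ha => h a (List.mem_cons_of_mem _ ha)) b hb

theorem thin_valid {K n w : ℕ} {G : List ℕ → ℕ} (hG : ∀ θ, G θ < K) {θ : List ℕ}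
    (h : Valid n w θ) : Valid n (w * K) (thin K G θ) :=
  ⟨(thin_length K G θ).le.trans h.1, thin_lt hG θ h.2⟩

theorem thin_congr {K : ℕ} {G G' : List ℕ → ℕ} (θ : List ℕ)
    (h : ∀ ζ, ζ ≠ [] → ζ <:+ θ → G ζ = G' ζ) : thin K G θ = thin K G' θ := by
  induction θ with
  | nil => rfl
  | cons a θ ih =>
    simp only [thin]
    rw [h (a :: θ) (by simp) (List.suffix_refl _),
      ih fun ζ hζ hs => h ζ hζ (hs.trans (List.suffix_cons a θ))]

theorem thin_suffix {K : ℕ} {G : List ℕ → ℕ} {ζ θ : List ℕ} (h : ζ <:+ θ) :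
    thin K G ζ <:+ thin K G θ := by
  induction θ with
  | nil =>
    rw [List.suffix_nil] at h
    rw [h]
  | cons a θ ih =>
    rcases List.suffix_cons_iff.1 h with h | h
    · rw [h]
    · exact (ih h).trans (List.suffix_cons _ _)

variable {X Y : Type*} (Rel : X → Y → Prop)

/-- a finite tree with consistent paths and pairwise inconsistent siblings -/
def TwoTree (n w : ℕ) : Prop :=
  ∃ b : List ℕ → Y,
    (∀ θ, Valid n w θ → ∃ x, ∀ ζ, ζ ≠ [] → ζ <:+ θ → Rel x (b ζ)) ∧
    ∀ (ξ : List ℕ) (a a' : ℕ), ξ.length < n → (∀ i ∈ ξ, i < w) → a < w → a' < w → a ≠ a' →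
      ¬ ∃ x, Rel x (b (a :: ξ)) ∧ Rel x (b (a' :: ξ))

/-- the same with exactly known membership of the chosen points -/
def Exact (n w : ℕ) : Prop :=
  ∃ (b : List ℕ → Y) (x : List ℕ → X),
    (∀ θ ζ, Valid n w θ → Valid n w ζ → ζ ≠ [] → (Rel (x θ) (b ζ) ↔ ζ <:+ θ)) ∧
    ∀ (ξ : List ℕ) (a a' : ℕ), ξ.length < n → (∀ i ∈ ξ, i < w) → a < w → a' < w → a ≠ a' →
      ¬ ∃ x, Rel x (b (a :: ξ)) ∧ Rel x (b (a' :: ξ))

variable {Rel}

theorem exact_of_twoTree (h : ∀ n w, TwoTree Rel n w) (n w : ℕ) : Exact Rel n w := by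
  classical
  let E : Finset (List ℕ) := (finite_valid n w).toFinset
  have hE : ∀ θ, θ ∈ E ↔ Valid n w θ := fun θ => by simp [E]
  set K : ℕ := E.card * E.card + 1 with hK
  have hK0 : 0 < K := by omega
  obtain ⟨b, hb1, hb2⟩ := h n (w * K)
  have hx : ∀ θ, ∃ x, Valid n (w * K) θ → ∀ ζ, ζ ≠ [] → ζ <:+ θ → Rel x (b ζ) := by
    intro θ
    by_cases hθ : Valid n (w * K) θ
    · obtain ⟨x, hx⟩ := hb1 θ hθ
      exact ⟨x, fun _ => hx⟩
    · obtain ⟨x, -⟩ := hb1 [] ⟨Nat.zero_le _, by simp⟩
      exact ⟨x, fun h' => absurd h' hθ⟩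
  choose x hx using hx
  let ext : ({θ // θ ∈ E} → Fin K) → List ℕ → ℕ := fun g θ =>
    if hθ : θ ∈ E then (g ⟨θ, hθ⟩ : ℕ) else 0
  have hext : ∀ g θ, ext g θ < K := by
    intro g θ
    simp only [ext]
    split_ifs with hθ
    · exact (g _).2
    · exact hK0
  let Bad : List ℕ × List ℕ → Finset ({θ // θ ∈ E} → Fin K) := fun p =>
    Finset.univ.filter fun g => Rel (x (thin K (ext g) p.1)) (b (thin K (ext g) p.2))
  let pairs : Finset (List ℕ × List ℕ) :=
    (E ×ˢ E).filter fun p => p.2 ≠ [] ∧ ¬ p.2 <:+ p.1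
  have hcount : ∀ p ∈ pairs, (Bad p).card * K ≤ Fintype.card ({θ // θ ∈ E} → Fin K) := by
    rintro ⟨θ, ζ⟩ hp
    simp only [pairs, Finset.mem_filter, Finset.mem_product] at hp
    obtain ⟨⟨hθE, hζE⟩, hζ0, hsuf⟩ := hp
    have h1 : (Bad (θ, ζ)).card * K = (Bad (θ, ζ) ×ˢ (Finset.univ : Finset (Fin K))).card := by
      rw [Finset.card_product, Finset.card_univ, Fintype.card_fin]
    rw [h1, ← Finset.card_univ]
    refine Finset.card_le_card_of_injOn (fun q => Function.update q.1 ⟨ζ, hζE⟩ q.2)
      (fun _ _ => Finset.mem_coe.2 (Finset.mem_univ _)) ?_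
    rintro ⟨g, v⟩ hg ⟨g', v'⟩ hg' heq
    simp only [Finset.coe_product, Set.mem_prod, Finset.mem_coe] at hg hg'
    have hv : v = v' := by
      have := congrFun heq ⟨ζ, hζE⟩
      simpa using this
    have hoff : ∀ e : {θ // θ ∈ E}, e ≠ ⟨ζ, hζE⟩ → g e = g' e := by
      intro e he
      have := congrFun heq e
      simpa [Function.update_of_ne he] using this
    have hextoff : ∀ ξ, ξ ≠ ζ → ext g ξ = ext g' ξ := by
      intro ξ hξ
      simp only [ext]
      split_ifs with h2
      · rw [hoff ⟨ξ, h2⟩ (fun h3 => hξ (congrArg Subtype.val h3))]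
      · rfl
    have hgB := (Finset.mem_filter.1 hg.1).2
    have hgB' := (Finset.mem_filter.1 hg'.1).2
    have hθθ : thin K (ext g) θ = thin K (ext g') θ := by
      refine thin_congr θ fun ξ _ hs => hextoff ξ fun h2 => hsuf ?_
      rw [← h2]
      exact hs
    match ζ, hζ0 with
    | a :: ξ, _ =>
      have hξξ : thin K (ext g) ξ = thin K (ext g') ξ := by
        refine thin_congr ξ fun χ _ hs => hextoff χ fun h2 => ?_
        have := hs.length_le
        rw [h2] at this
        simp at this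
      have hval : Valid n w (a :: ξ) := (hE _).1 hζE
      by_contra hne
      have hgne : g ⟨a :: ξ, hζE⟩ ≠ g' ⟨a :: ξ, hζE⟩ := by
        intro h3
        apply hne
        have : g = g' := by
          funext e
          by_cases he : e = ⟨a :: ξ, hζE⟩
          · rw [he, h3]
          · exact hoff e he
        rw [this, hv]
      have hgne' : a * K + ext g (a :: ξ) ≠ a * K + ext g' (a :: ξ) := by
        intro h3
        apply hgne
        apply Fin.ext
        have h4 : ext g (a :: ξ) = ext g' (a :: ξ) := by omega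
        simpa [ext, hζE] using h4
      simp only [thin] at hgB hgB'
      rw [← hθθ, ← hξξ] at hgB'
      refine hb2 (thin K (ext g) ξ) _ _ ?_ ?_ ?_ ?_ hgne' ⟨_, hgB, hgB'⟩
      · rw [thin_length]
        have := hval.1
        simp at this
        omega
      · exact thin_lt (hext g) ξ fun a ha => hval.2 a (List.mem_cons_of_mem _ ha)
      · exact head_lt (hval.2 a List.mem_cons_self) (hext g _)
      · exact head_lt (hval.2 a List.mem_cons_self) (hext g' _)
  obtain ⟨g, hg⟩ : ∃ g : {θ // θ ∈ E} → Fin K, ∀ p ∈ pairs, g ∉ Bad p := by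
    by_contra hcon
    push Not at hcon
    have h1 : (Finset.univ : Finset ({θ // θ ∈ E} → Fin K)) ⊆ pairs.biUnion Bad := by
      intro g _
      obtain ⟨p, hp, hgp⟩ := hcon g
      exact Finset.mem_biUnion.2 ⟨p, hp, hgp⟩
    have h2 := (Finset.card_le_card h1).trans Finset.card_biUnion_le
    rw [Finset.card_univ] at h2
    have h3 : Fintype.card ({θ // θ ∈ E} → Fin K) * K ≤
        pairs.card * Fintype.card ({θ // θ ∈ E} → Fin K) := by
      calc Fintype.card ({θ // θ ∈ E} → Fin K) * K ≤ (∑ p ∈ pairs, (Bad p).card) * K :=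
            Nat.mul_le_mul_right K h2
        _ = ∑ p ∈ pairs, (Bad p).card * K := Finset.sum_mul _ _ _
        _ ≤ ∑ _p ∈ pairs, Fintype.card ({θ // θ ∈ E} → Fin K) := Finset.sum_le_sum hcount
        _ = _ := by rw [Finset.sum_const, smul_eq_mul]
    have h4 : pairs.card ≤ E.card * E.card := by
      rw [← Finset.card_product]
      exact Finset.card_filter_le _ _
    have h5 : 0 < Fintype.card ({θ // θ ∈ E} → Fin K) := by
      have : Nonempty (Fin K) := ⟨⟨0, hK0⟩⟩
      exact Fintype.card_pos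
    have h6 : K * Fintype.card ({θ // θ ∈ E} → Fin K) ≤
        (E.card * E.card) * Fintype.card ({θ // θ ∈ E} → Fin K) := by
      calc K * Fintype.card ({θ // θ ∈ E} → Fin K) = Fintype.card ({θ // θ ∈ E} → Fin K) * K :=
            Nat.mul_comm _ _
        _ ≤ _ := h3
        _ ≤ _ := Nat.mul_le_mul_right _ h4
    have h7 := Nat.le_of_mul_le_mul_right h6 h5
    omega
  refine ⟨fun ζ => b (thin K (ext g) ζ), fun θ => x (thin K (ext g) θ), ?_, ?_⟩
  · intro θ ζ hθ hζ hζ0
    constructor
    · intro hR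
      by_contra hsuf
      refine hg (θ, ζ) ?_ ?_
      · simp only [pairs, Finset.mem_filter, Finset.mem_product]
        exact ⟨⟨(hE θ).2 hθ, (hE ζ).2 hζ⟩, hζ0, hsuf⟩
      · simp only [Bad, Finset.mem_filter, Finset.mem_univ, true_and]
        exact hR
    · intro hs
      refine hx _ (thin_valid (hext g) hθ) _ ?_ (thin_suffix hs)
      intro h0
      have := congrArg List.length h0
      rw [thin_length] at this
      simp at this
      exact hζ0 this
  · intro ξ a a' hξ hw ha ha' hne
    simp only [thin]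
    refine hb2 _ _ _ ?_ (thin_lt (hext g) ξ hw) (head_lt ha (hext g _)) (head_lt ha' (hext g _)) ?_
    · rwa [thin_length]
    · intro heq
      apply hne
      have h1 := hext g (a :: ξ)
      have h2 := hext g (a' :: ξ)
      rcases lt_trichotomy a a' with h | h | h
      · exfalso
        have : (a + 1) * K ≤ a' * K := Nat.mul_le_mul_right K h
        have h3 : (a + 1) * K = a * K + K := by ring
        omega
      · exact h
      · exfalso
        have : (a' + 1) * K ≤ a * K := Nat.mul_le_mul_right K h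
        have h3 : (a' + 1) * K = a' * K + K := by ring
        omega

end Pool.Agent.H956R3.TP
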