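import Mathlib

/-!
# The tree property and poset versions of the strict order property
-/

set_option autoImplicit false

namespace Pool.Agent.H956R3.TP

open FirstOrder FirstOrder.Language

universe u v w

/-- The initial segment `β|n = (β 0, …, β (n-1))` of a branch `β : ω → ω`. -/
def branch (β : ℕ → ℕ) (n : ℕ) : List ℕ := (List.range n).map β

/-- The tree property: there are a model `M` of `T`, a formula `φ(x, y)` and tuples `a_η`,
`η ∈ ω^{<ω}`, of `M` such that (1) for every branch `β` the set `{φ(x, a_{β|n}) : n < ω}` is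
consistent (finitely satisfiable in `M`), and (2) for some `k`, for every `η`, any `k` of the
formulas `φ(x, a_{η⌢i})`, `i < ω`, are inconsistent. -/
def HasTP {L : FirstOrder.Language.{u, v}} (T : L.Theory) : Prop :=
  ∃ (M : Theory.ModelType.{u, v, w} T) (n m : ℕ) (φ : L.Formula (Fin n ⊕ Fin m))
    (a : List ℕ → Fin m → M),
    (∀ (β : ℕ → ℕ) (F : Finset ℕ), ∃ x : Fin n → M, ∀ i ∈ F,
      φ.Realize (Sum.elim x (a (branch β i)))) ∧
    ∃ k : ℕ, ∀ (η : List ℕ) (J : Finset ℕ), J.card = k →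
      ¬ ∃ x : Fin n → M, ∀ i ∈ J, φ.Realize (Sum.elim x (a (η ++ [i])))

/-- `Σ`-SOP for a poset `Σ = S`: there are a model `M` of `T`, a formula `φ(x, y)` and tuples
`a_s`, `s ∈ S`, of `M` with `M ⊨ ∀ x (φ(x, a_s) → φ(x, a_t))` if and only if `s ≤ t`. -/
def HasSOP (S : Type) [PartialOrder S] {L : FirstOrder.Language.{u, v}} (T : L.Theory) : Prop :=
  ∃ (M : Theory.ModelType.{u, v, w} T) (n m : ℕ) (φ : L.Formula (Fin n ⊕ Fin m))
    (a : S → Fin m → M), ∀ s t : S,
      (∀ x : Fin n → M, φ.Realize (Sum.elim x (a s)) → φ.Realize (Sum.elim x (a t))) ↔ s ≤ t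

end Pool.Agent.H956R3.TP
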