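import Pool.Agent.H956R3.TP3
import Pool.Agent.H956R3.TPDefs

/-!
# The poset and its realization by finite exact trees
-/

set_option autoImplicit false

namespace Pool.Agent.H956R3.TP

/-- four kinds of elements -/
inductive Kind
  | C | P | N | D
  deriving DecidableEq

/-- The poset: elements are `(κ, a, ξ)` for a kind `κ` and a node `a :: ξ ≠ []`. -/
structure Pos where
  kind : Kind
  hd : ℕ
  tl : List ℕ

/-- the node of an element -/
def Pos.nd (s : Pos) : List ℕ := s.hd :: s.tl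

/-- siblings -/
def Sib (s t : Pos) : Prop := s.tl = t.tl ∧ s.hd ≠ t.hd

def leP (s t : Pos) : Prop :=
  match s.kind, t.kind with
  | .C, .C => s.nd = t.nd
  | .C, .P => t.nd <:+ s.nd
  | .C, .N => ¬ t.nd <:+ s.nd
  | .C, .D => s.nd ≠ t.nd
  | .P, .P => s.nd = t.nd
  | .P, .N => Sib s t
  | .P, .D => ¬ s.nd <:+ t.nd
  | .N, .N => s.nd = t.nd
  | .N, .D => s.nd <:+ t.nd
  | .D, .D => s.nd = t.nd
  | _, _ => False

theorem pos_ext {s t : Pos} (h : s.kind = t.kind) (h' : s.nd = t.nd) : s = t := by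
  cases s
  cases t
  simp only [Pos.nd, List.cons.injEq] at h h'
  simp only [Pos.mk.injEq]
  exact ⟨h, h'.1, h'.2⟩

theorem suffix_sib {s t : Pos} {l : List ℕ} (h : Sib s t) (h1 : s.nd <:+ l) (h2 : t.nd <:+ l) :
    False := by
  have h3 : s.nd = t.nd := by
    rcases List.suffix_or_suffix_of_suffix h1 h2 with h4 | h4
    · refine h4.eq_of_length ?_
      simp [Pos.nd, h.1]
    · refine (h4.eq_of_length ?_).symm
      simp [Pos.nd, h.1]
  simp only [Pos.nd, List.cons.injEq] at h3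
  exact h.2 h3.1

instance : PartialOrder Pos where
  le := leP
  le_refl s := by
    obtain ⟨κ, a, ξ⟩ := s
    cases κ <;> simp [leP]
  le_antisymm s t h h' := by
    obtain ⟨κ, a, ξ⟩ := s
    obtain ⟨κ', a', ξ'⟩ := t
    cases κ <;> cases κ' <;> simp only [leP] at h h' <;> first
      | exact h.elim
      | exact h'.elim
      | exact pos_ext rfl h
  le_trans s t r h h' := by
    obtain ⟨κ, a, ξ⟩ := s
    obtain ⟨κ', a', ξ'⟩ := t
    obtain ⟨κ'', a'', ξ''⟩ := r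
    cases κ <;> cases κ' <;> cases κ'' <;> simp only [leP] at h h' ⊢ <;> first
      | exact h.elim
      | exact h'.elim
      | exact h.trans h'
      | (rw [h]; exact h')
      | (rw [← h']; exact h)
      | skip
    -- remaining cases
    · intro h3
      exact suffix_sib h' h h3
    · intro h3
      rw [h3] at h
      exact h' h
    · intro h3
      rw [h3] at h
      exact h h'
    · obtain ⟨h1, h2⟩ := h'
      simp only [Pos.nd, List.cons.injEq] at h
      exact ⟨h.2.trans h1, fun h3 => h2 (h.1.symm.trans h3)⟩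
    · obtain ⟨h1, h2⟩ := h
      simp only [Pos.nd, List.cons.injEq] at h'
      exact ⟨h1.trans h'.2, fun h3 => h2 (h3.trans h'.1.symm)⟩
    · intro h3
      exact suffix_sib h h3 h'

/-- first component of the sets attached to the elements -/
def mem1 {X Y : Type*} (Rel : X → Y → Prop) (κ : Kind) (y : Y) (x₀ x : X) : Prop :=
  match κ with
  | .C => x = x₀
  | .P => Rel x y
  | .N => ¬ Rel x y
  | .D => x ≠ x₀

/-- second component of the sets attached to the elements -/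
def mem2 {M : Type*} (κ : Kind) (t t' z z' : M) : Prop :=
  match κ with
  | .C => False
  | .P => z = t ∧ z' = t'
  | .N => z' = t' ∧ z ≠ t
  | .D => True

theorem incl {X Y M : Type*} [Infinite M] {Rel : X → Y → Prop} {n w : ℕ} {b : List ℕ → Y}
    {x : List ℕ → X}
    (hex : ∀ θ ζ, Valid n w θ → Valid n w ζ → ζ ≠ [] → (Rel (x θ) (b ζ) ↔ ζ <:+ θ))
    (hsib : ∀ (ξ : List ℕ) (a a' : ℕ), ξ.length < n → (∀ i ∈ ξ, i < w) → a < w → a' < w →
      a ≠ a' → ¬ ∃ x, Rel x (b (a :: ξ)) ∧ Rel x (b (a' :: ξ)))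
    {lab : List ℕ → M} (hlab : Function.Injective lab) (s t : Pos) (hs : Valid n w s.nd)
    (ht : Valid n w t.nd) :
    ((∀ x', mem1 Rel s.kind (b s.nd) (x s.nd) x' → mem1 Rel t.kind (b t.nd) (x t.nd) x') ∧
      (∀ z z', mem2 s.kind (lab s.nd) (lab s.tl) z z' → mem2 t.kind (lab t.nd) (lab t.tl) z z')) ↔
      s ≤ t := by
  have hne : ∀ r : Pos, r.nd ≠ [] := fun r => by simp [Pos.nd]
  have hxx : x s.nd = x t.nd → s.nd = t.nd := by
    intro h
    have h1 := (hex s.nd s.nd hs hs (hne s)).2 (List.suffix_refl _)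
    rw [h, hex t.nd s.nd ht hs (hne s)] at h1
    have h2 := (hex t.nd t.nd ht ht (hne t)).2 (List.suffix_refl _)
    rw [← h, hex s.nd t.nd hs ht (hne t)] at h2
    exact h1.eq_of_length (le_antisymm h1.length_le h2.length_le)
  have hst := hex s.nd t.nd hs ht (hne t)
  have hts := hex t.nd s.nd ht hs (hne s)
  have hfresh : ∀ a c : M, ∃ z : M, z ≠ a ∧ z ≠ c := by
    intro a c
    classical
    obtain ⟨z, hz⟩ := Infinite.exists_notMem_finset ({a, c} : Finset M)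
    simp only [Finset.mem_insert, Finset.mem_singleton, not_or] at hz
    exact ⟨z, hz.1, hz.2⟩
  change _ ↔ leP s t
  obtain ⟨κ, hd, tl⟩ := s
  obtain ⟨κ', hd', tl'⟩ := t
  cases κ <;> cases κ' <;> simp only [mem1, mem2, leP] <;> constructor
  -- C C
  · rintro ⟨h1, -⟩
    exact hxx (h1 _ rfl)
  · intro h
    refine ⟨fun x' h' => ?_, fun _ _ h' => h'⟩
    rw [h', h]
  -- C P
  · rintro ⟨h1, -⟩
    exact hst.1 (h1 _ rfl)
  · intro h
    refine ⟨fun x' h' => ?_, fun _ _ h' => h'.elim⟩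
    rw [h']
    exact hst.2 h
  -- C N
  · rintro ⟨h1, -⟩ h2
    exact h1 _ rfl (hst.2 h2)
  · intro h
    refine ⟨fun x' h' h'' => ?_, fun _ _ h' => h'.elim⟩
    rw [h'] at h''
    exact h (hst.1 h'')
  -- C D
  · rintro ⟨h1, -⟩ h2
    refine h1 _ rfl ?_
    rw [h2]
  · intro h
    refine ⟨fun x' h' h'' => ?_, fun _ _ h' => h'.elim⟩
    rw [h'] at h''
    exact h (hxx h'')
  -- P C
  · rintro ⟨-, h2⟩
    exact h2 _ _ ⟨rfl, rfl⟩
  · exact fun h => h.elim
  -- P P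
  · rintro ⟨-, h2⟩
    exact hlab (h2 _ _ ⟨rfl, rfl⟩).1
  · intro h
    have h' : hd = hd' ∧ tl = tl' := by simpa [Pos.nd] using h
    obtain ⟨rfl, rfl⟩ := h'
    exact ⟨fun _ h' => h', fun _ _ h' => h'⟩
  -- P N
  · rintro ⟨-, h2⟩
    obtain ⟨h3, h4⟩ := h2 _ _ ⟨rfl, rfl⟩
    refine ⟨hlab h3, fun h5 => h4 ?_⟩
    have h6 : tl = tl' := hlab h3
    have h5' : hd = hd' := h5
    subst h5' h6
    rfl
  · rintro ⟨h1, h2⟩
    have h1' : tl = tl' := h1
    subst h1'
    refine ⟨fun x' h3 h4 => ?_, ?_⟩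
    · have hl := hs.1
      simp only [Pos.nd, List.length_cons] at hl
      refine hsib tl hd hd' (by omega) ?_ ?_ ?_ h2 ⟨x', h3, h4⟩
      · exact fun i hi => hs.2 i (List.mem_cons_of_mem _ hi)
      · exact hs.2 hd List.mem_cons_self
      · exact ht.2 hd' List.mem_cons_self
    · rintro z z' ⟨rfl, rfl⟩
      refine ⟨rfl, fun h3 => h2 ?_⟩
      have := hlab h3
      simp only [Pos.nd, List.cons.injEq] at this
      exact this.1
  -- P D
  · rintro ⟨h1, -⟩ h2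
    exact h1 _ (hts.2 h2) rfl
  · intro h
    refine ⟨fun x' h1 h2 => ?_, fun _ _ _ => trivial⟩
    rw [h2] at h1
    exact h (hts.1 h1)
  -- N C
  · rintro ⟨-, h2⟩
    obtain ⟨z, hz, -⟩ := hfresh (lab (Pos.nd ⟨.N, hd, tl⟩)) (lab (Pos.nd ⟨.N, hd, tl⟩))
    exact h2 z _ ⟨rfl, hz⟩
  · exact fun h => h.elim
  -- N P
  · rintro ⟨-, h2⟩
    obtain ⟨z, hz, hz'⟩ := hfresh (lab (Pos.nd ⟨.N, hd, tl⟩)) (lab (Pos.nd ⟨.P, hd', tl'⟩))
    exact hz' (h2 z _ ⟨rfl, hz⟩).1
  · exact fun h => h.elim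
  -- N N
  · rintro ⟨-, h2⟩
    by_contra hcon
    have hcon' : lab (Pos.nd ⟨.N, hd', tl'⟩) ≠ lab (Pos.nd ⟨.N, hd, tl⟩) :=
      fun h3 => hcon (hlab h3).symm
    exact (h2 _ _ ⟨rfl, hcon'⟩).2 rfl
  · intro h
    have h' : hd = hd' ∧ tl = tl' := by simpa [Pos.nd] using h
    obtain ⟨rfl, rfl⟩ := h'
    exact ⟨fun _ h' => h', fun _ _ h' => h'⟩
  -- N D
  · rintro ⟨h1, -⟩
    by_contra hcon
    exact h1 _ (fun h3 => hcon (hts.1 h3)) rfl
  · intro h
    refine ⟨fun x' h1 h2 => ?_, fun _ _ _ => trivial⟩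
    rw [h2] at h1
    exact h1 (hts.2 h)
  -- D C
  · rintro ⟨-, h2⟩
    exact h2 (lab []) (lab []) trivial
  · exact fun h => h.elim
  -- D P
  · rintro ⟨-, h2⟩
    obtain ⟨z, hz, -⟩ := hfresh (lab (Pos.nd ⟨.P, hd', tl'⟩)) (lab (Pos.nd ⟨.P, hd', tl'⟩))
    exact hz (h2 z z trivial).1
  · exact fun h => h.elim
  -- D N
  · rintro ⟨-, h2⟩
    exact (h2 (lab (Pos.nd ⟨.N, hd', tl'⟩)) (lab tl') trivial).2 rfl
  · exact fun h => h.elim
  -- D D
  · rintro ⟨h1, -⟩
    by_contra hcon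
    exact h1 (x (Pos.nd ⟨.D, hd', tl'⟩)) (fun h3 => hcon (hxx h3.symm)) rfl
  · intro h
    have h' : hd = hd' ∧ tl = tl' := by simpa [Pos.nd] using h
    obtain ⟨rfl, rfl⟩ := h'
    exact ⟨fun _ h' => h', fun _ _ h' => h'⟩

end Pool.Agent.H956R3.TP
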