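import Pool.Agent.H956R3.TP4

/-!
# `Σ`-SOP implies TP
-/

set_option autoImplicit false

namespace Pool.Agent.H956R3.TP

open FirstOrder FirstOrder.Language

universe u v w

theorem branch_prefix (β : ℕ → ℕ) {i j : ℕ} (h : i ≤ j) : branch β i <+: branch β j := by
  refine ⟨(List.range' i (j - i)).map β, ?_⟩
  rw [branch, branch, ← List.map_append]
  congr 1
  rw [List.range_eq_range', List.range_eq_range']
  have := List.range'_append_1 (s := 0) (m := i) (n := j - i)
  rw [Nat.zero_add, Nat.add_sub_cancel' h] at this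
  exact this

/-- the element of kind `κ` at the node `0⌢η` -/
def pos (κ : Kind) (η : List ℕ) : Pos :=
  match η.reverse with
  | [] => ⟨κ, 0, []⟩
  | a :: ξ => ⟨κ, a, ξ ++ [0]⟩

theorem pos_kind (κ : Kind) (η : List ℕ) : (pos κ η).kind = κ := by
  unfold pos
  split <;> rfl

theorem pos_nd (κ : Kind) (η : List ℕ) : (pos κ η).nd = η.reverse ++ [0] := by
  unfold pos
  split
  · rename_i h
    rw [h]
    rfl
  · rename_i h
    rw [h]
    rfl

theorem pos_append (κ : Kind) (η : List ℕ) (i : ℕ) :
    pos κ (η ++ [i]) = ⟨κ, i, η.reverse ++ [0]⟩ := by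
  unfold pos
  rw [List.reverse_append]
  rfl

theorem le_CP {η ζ : List ℕ} (h : ζ <+: η) : pos .C η ≤ pos .P ζ := by
  change leP _ _
  simp only [leP, pos_kind, pos_nd]
  obtain ⟨t, ht⟩ := List.reverse_suffix.2 h
  exact ⟨t, by rw [← List.append_assoc, ht]⟩

theorem le_ND {η ζ : List ℕ} (h : ζ <+: η) : pos .N ζ ≤ pos .D η := by
  change leP _ _
  simp only [leP, pos_kind, pos_nd]
  obtain ⟨t, ht⟩ := List.reverse_suffix.2 h
  exact ⟨t, by rw [← List.append_assoc, ht]⟩

theorem not_le_CD (η : List ℕ) : ¬ pos .C η ≤ pos .D η := by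
  change ¬ leP _ _
  simp only [leP, pos_kind, pos_nd]
  simp

theorem le_PN {η : List ℕ} {i j : ℕ} (h : i ≠ j) : pos .P (η ++ [i]) ≤ pos .N (η ++ [j]) := by
  rw [pos_append, pos_append]
  exact ⟨rfl, h⟩

theorem tp_of_sop {L : FirstOrder.Language.{u, v}} (T : L.Theory) (h : HasSOP.{u, v, w} Pos T) :
    HasTP.{u, v, w} T := by
  obtain ⟨M, n, m, φ, a, h⟩ := h
  refine ⟨M, n, m + m, φ.relabel (Sum.map id (Fin.castAdd m)) ⊓
    (φ.relabel (Sum.map id (Fin.natAdd m))).not,
    fun η => Fin.append (a (pos .P η)) (a (pos .N η)), ?_, 2, ?_⟩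
  · intro β F
    have h1 : ¬ ∀ x : Fin n → M, φ.Realize (Sum.elim x (a (pos .C (branch β (F.sup id))))) →
        φ.Realize (Sum.elim x (a (pos .D (branch β (F.sup id))))) := by
      rw [h]
      exact not_le_CD _
    push Not at h1
    obtain ⟨x, hx1, hx2⟩ := h1
    refine ⟨x, fun i hi => ?_⟩
    have hp : branch β i <+: branch β (F.sup id) := branch_prefix β (Finset.le_sup (f := id) hi)
    rw [Formula.realize_inf, Formula.realize_not, Formula.realize_relabel, Formula.realize_relabel]
    have e1 : (Sum.elim x (Fin.append (a (pos .P (branch β i))) (a (pos .N (branch β i))))) ∘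
        Sum.map id (Fin.castAdd m) = Sum.elim x (a (pos .P (branch β i))) := by
      funext q
      cases q with
      | inl q => rfl
      | inr q => exact Fin.append_left _ _ q
    have e2 : (Sum.elim x (Fin.append (a (pos .P (branch β i))) (a (pos .N (branch β i))))) ∘
        Sum.map id (Fin.natAdd m) = Sum.elim x (a (pos .N (branch β i))) := by
      funext q
      cases q with
      | inl q => rfl
      | inr q => exact Fin.append_right _ _ q
    rw [e1, e2]
    refine ⟨(h _ _).2 (le_CP hp) x hx1, fun h3 => hx2 ((h _ _).2 (le_ND hp) x h3)⟩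
  · rintro η J hJ ⟨x, hx⟩
    obtain ⟨i, j, hij, rfl⟩ := Finset.card_eq_two.1 hJ
    have h1 := hx i (Finset.mem_insert_self _ _)
    have h2 := hx j (Finset.mem_insert_of_mem (Finset.mem_singleton_self _))
    rw [Formula.realize_inf, Formula.realize_not, Formula.realize_relabel,
      Formula.realize_relabel] at h1 h2
    have e1 : ∀ i, (Sum.elim x (Fin.append (a (pos .P (η ++ [i]))) (a (pos .N (η ++ [i]))))) ∘
        Sum.map id (Fin.castAdd m) = Sum.elim x (a (pos .P (η ++ [i]))) := by
      intro i
      funext q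
      cases q with
      | inl q => rfl
      | inr q => exact Fin.append_left _ _ q
    have e2 : ∀ i, (Sum.elim x (Fin.append (a (pos .P (η ++ [i]))) (a (pos .N (η ++ [i]))))) ∘
        Sum.map id (Fin.natAdd m) = Sum.elim x (a (pos .N (η ++ [i]))) := by
      intro i
      funext q
      cases q with
      | inl q => rfl
      | inr q => exact Fin.append_right _ _ q
    rw [e1, e2] at h1 h2
    exact h2.2 ((h _ _).2 (le_PN hij) x h1.1)

end Pool.Agent.H956R3.TP
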