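import Pool.Agent.H956R3.TP5

/-!
# TP implies `Σ`-SOP
-/

set_option autoImplicit false

namespace Pool.Agent.H956R3.TP

open FirstOrder FirstOrder.Language Filter

universe u v w

variable {L : FirstOrder.Language.{u, v}}

/-! ### Extraction of exact trees -/

theorem branch_getD (η : List ℕ) {ζ : List ℕ} (h : ζ <+: η) :
    branch (fun i => η.getD i 0) ζ.length = ζ := by
  obtain ⟨t, rfl⟩ := h
  unfold branch
  apply List.ext_getElem
  · simp
  · intro i h1 h2
    simp [List.getD_eq_getElem?_getD, List.getElem?_append_left h2, List.getElem?_eq_getElem h2]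

theorem exact_of_tp {M : Type w} [L.Structure M] {n m : ℕ} (φ : L.Formula (Fin n ⊕ Fin m))
    (a : List ℕ → Fin m → M)
    (h1 : ∀ (β : ℕ → ℕ) (F : Finset ℕ), ∃ x : Fin n → M, ∀ i ∈ F,
      φ.Realize (Sum.elim x (a (branch β i))))
    (k : ℕ) (h2 : ∀ (η : List ℕ) (J : Finset ℕ), J.card = k →
      ¬ ∃ x : Fin n → M, ∀ i ∈ J, φ.Realize (Sum.elim x (a (η ++ [i])))) :
    ∃ m₀ : ℕ, ∀ N W : ℕ, Exact (fun (x : Fin n → M) (y : Fin m₀ × Fin m → M) =>
      ∀ i, φ.Realize (Sum.elim x (fun j => y (i, j)))) N W := by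
  obtain ⟨m₀, hm₀⟩ := two_tree (fun η => {x : Fin n → M | φ.Realize (Sum.elim x (a η))})
    (by
      intro η
      obtain ⟨x, hx⟩ := h1 (fun i => η.getD i 0) (Finset.range (η.length + 1))
      refine ⟨x, fun ζ hζ => ?_⟩
      have := hx ζ.length (Finset.mem_range.2 (by have := hζ.length_le; omega))
      rw [branch_getD η hζ] at this
      exact this) k h2
  refine ⟨m₀, exact_of_twoTree fun N W => ?_⟩
  obtain ⟨f, hf1, hf2⟩ := hm₀ N W
  refine ⟨fun θ p => a (f θ.reverse p.1) p.2, ?_, ?_⟩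
  · rintro θ ⟨hθ1, hθ2⟩
    obtain ⟨x, hx⟩ := hf1 θ.reverse (by simpa using hθ1) (by simpa using hθ2)
    refine ⟨x, fun ζ hζ0 hζ i => ?_⟩
    exact hx ζ.reverse (by simpa using hζ0) (List.reverse_prefix.2 hζ) i
  · rintro ξ c c' hξ hw hc hc' hne ⟨x, hx1, hx2⟩
    refine hf2 ξ.reverse c c' (by simpa using hξ) (by simpa using hw) hc hc' hne ⟨x, ?_, ?_⟩
    · intro i
      have := hx1 i
      simpa using this
    · intro i
      have := hx2 i
      simpa using this

theorem infinite_of_exact {X Y : Type*} {Rel : X → Y → Prop} (h : ∀ N W, Exact Rel N W) :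
    Infinite X := by
  by_contra hcon
  rw [not_infinite_iff_finite] at hcon
  have := Fintype.ofFinite X
  obtain ⟨b, x, hex, -⟩ := h 1 (Fintype.card X + 1)
  have hv : ∀ i : Fin (Fintype.card X + 1), Valid 1 (Fintype.card X + 1) [(i : ℕ)] := by
    intro i
    refine ⟨by simp, ?_⟩
    intro a ha
    rw [List.mem_singleton] at ha
    rw [ha]
    exact i.2
  have hinj : Function.Injective fun i : Fin (Fintype.card X + 1) => x [(i : ℕ)] := by
    intro i j hij
    have h1 := (hex [(i : ℕ)] [(i : ℕ)] (hv i) (hv i) (by simp)).2 (List.suffix_refl _)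
    have hij' : x [(i : ℕ)] = x [(j : ℕ)] := hij
    rw [hij', hex [(j : ℕ)] [(i : ℕ)] (hv j) (hv i) (by simp)] at h1
    have h2 := h1.eq_of_length rfl
    simp only [List.cons.injEq, and_true] at h2
    exact Fin.ext h2
  have := Fintype.card_le_of_injective _ hinj
  rw [Fintype.card_fin] at this
  omega

/-! ### The formula -/

/-- object variables: `x`, `z`, `z'`, `u`, `u'` -/
abbrev Xv (n : ℕ) := Fin n ⊕ Fin 4

/-- parameter variables: `y`, `x₀`, `t`, `t'`, and four variables coding the kind -/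
abbrev Yv (n m m₀ : ℕ) := (Fin m₀ × Fin m) ⊕ (Fin n ⊕ Fin 6)

variable {n m m₀ : ℕ}

/-- equality of two variables -/
noncomputable def eqv {α : Type} (i j : α) : L.Formula α := Term.equal (Term.var i) (Term.var j)

theorem realize_eqv {M : Type w} [L.Structure M] {α : Type} (i j : α) (vv : α → M) :
    (eqv (L := L) i j).Realize vv ↔ vv i = vv j := by
  rw [eqv, Formula.realize_equal]
  rfl

noncomputable def fPsi (φ : L.Formula (Fin n ⊕ Fin m)) (m₀ : ℕ) : L.Formula (Xv n ⊕ Yv n m m₀) :=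
  Formula.iInf fun i : Fin m₀ =>
    φ.relabel (Sum.map Sum.inl fun j => Sum.inl (i, j))

noncomputable def fEq (L : FirstOrder.Language.{u, v}) (n m m₀ : ℕ) :
    L.Formula (Xv n ⊕ Yv n m m₀) :=
  Formula.iInf fun i : Fin n => eqv (Sum.inl (Sum.inl i)) (Sum.inr (Sum.inr (Sum.inl i)))

/-- object variables `z, z', u, u'` -/
def ov (n m m₀ : ℕ) (i : Fin 4) : Xv n ⊕ Yv n m m₀ := Sum.inl (Sum.inr i)

/-- parameter variables `t, t', v₁, …, v₄` -/
def pv (n m m₀ : ℕ) (i : Fin 6) : Xv n ⊕ Yv n m m₀ := Sum.inr (Sum.inr (Sum.inr i))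

noncomputable def fA (L : FirstOrder.Language.{u, v}) (n m m₀ : ℕ) :
    L.Formula (Xv n ⊕ Yv n m m₀) := eqv (pv n m m₀ 2) (pv n m m₀ 3)

noncomputable def fB (L : FirstOrder.Language.{u, v}) (n m m₀ : ℕ) :
    L.Formula (Xv n ⊕ Yv n m m₀) := eqv (pv n m m₀ 4) (pv n m m₀ 5)

noncomputable def comp1 (φ : L.Formula (Fin n ⊕ Fin m)) (m₀ : ℕ) :
    L.Formula (Xv n ⊕ Yv n m m₀) :=
  ((fA L n m m₀ ⊓ fB L n m m₀) ⊓ fPsi φ m₀) ⊔
    (((fA L n m m₀ ⊓ (fB L n m m₀).not) ⊓ (fPsi φ m₀).not) ⊔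
      ((((fA L n m m₀).not ⊓ fB L n m m₀) ⊓ fEq L n m m₀) ⊔
        (((fA L n m m₀).not ⊓ (fB L n m m₀).not) ⊓ (fEq L n m m₀).not)))

noncomputable def comp2 (L : FirstOrder.Language.{u, v}) (n m m₀ : ℕ) :
    L.Formula (Xv n ⊕ Yv n m m₀) :=
  ((fA L n m m₀ ⊓ fB L n m m₀) ⊓ (eqv (ov n m m₀ 0) (pv n m m₀ 0) ⊓
      eqv (ov n m m₀ 1) (pv n m m₀ 1))) ⊔
    (((fA L n m m₀ ⊓ (fB L n m m₀).not) ⊓ (eqv (ov n m m₀ 1) (pv n m m₀ 1) ⊓
      (eqv (ov n m m₀ 0) (pv n m m₀ 0)).not)) ⊔
      ((fA L n m m₀).not ⊓ (fB L n m m₀).not))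

noncomputable def theta (φ : L.Formula (Fin n ⊕ Fin m)) (m₀ : ℕ) :
    L.Formula (Xv n ⊕ Yv n m m₀) :=
  (eqv (ov n m m₀ 2) (ov n m m₀ 3) ⊓ comp1 φ m₀) ⊔
    ((eqv (ov n m m₀ 2) (ov n m m₀ 3)).not ⊓ comp2 L n m m₀)

/-- codes of the kinds -/
def code {M : Type w} (p q : M) : Kind → Fin 4 → M
  | .P => ![p, p, p, p]
  | .N => ![p, p, p, q]
  | .C => ![p, q, p, p]
  | .D => ![p, q, p, q]

/-- the parameter -/
def par {M : Type w} (p q : M) (κ : Kind) (y : Fin m₀ × Fin m → M) (x₀ : Fin n → M) (t t' : M) :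
    Yv n m m₀ → M :=
  Sum.elim y (Sum.elim x₀
    ![t, t', code p q κ 0, code p q κ 1, code p q κ 2, code p q κ 3])

theorem realize_theta {M : Type w} [L.Structure M] (φ : L.Formula (Fin n ⊕ Fin m)) (m₀ : ℕ)
    {p q : M} (hpq : p ≠ q) (κ : Kind) (y : Fin m₀ × Fin m → M) (x₀ : Fin n → M) (t t' : M)
    (vx : Xv n → M) :
    (theta φ m₀).Realize (Sum.elim vx (par p q κ y x₀ t t')) ↔
      (vx (Sum.inr 2) = vx (Sum.inr 3) ∧
        mem1 (fun (x : Fin n → M) (y : Fin m₀ × Fin m → M) =>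
          ∀ i, φ.Realize (Sum.elim x (fun j => y (i, j)))) κ y x₀ (fun i => vx (Sum.inl i))) ∨
      (vx (Sum.inr 2) ≠ vx (Sum.inr 3) ∧
        mem2 κ t t' (vx (Sum.inr 0)) (vx (Sum.inr 1))) := by
  have hpsi : (fPsi φ m₀).Realize (Sum.elim vx (par p q κ y x₀ t t')) ↔
      ∀ i, φ.Realize (Sum.elim (fun i => vx (Sum.inl i)) (fun j => y (i, j))) := by
    rw [fPsi, Formula.realize_iInf]
    refine forall_congr' fun i => ?_
    rw [Formula.realize_relabel]
    have : (Sum.elim vx (par p q κ y x₀ t t')) ∘ (Sum.map Sum.inl fun j => Sum.inl (i, j)) =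
        Sum.elim (fun i => vx (Sum.inl i)) (fun j => y (i, j)) := by
      funext c
      cases c <;> rfl
    rw [this]
  have heq : (fEq L n m m₀).Realize (Sum.elim vx (par p q κ y x₀ t t')) ↔
      (fun i => vx (Sum.inl i)) = x₀ := by
    rw [fEq, Formula.realize_iInf, funext_iff]
    refine forall_congr' fun i => ?_
    rw [realize_eqv]
    rfl
  have hqp : q ≠ p := hpq.symm
  have hA : (fA L n m m₀).Realize (Sum.elim vx (par p q κ y x₀ t t')) ↔ κ = .P ∨ κ = .N := by
    rw [fA, realize_eqv]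
    change code p q κ 0 = code p q κ 1 ↔ _
    cases κ <;> simp [code, hpq]
  have hB : (fB L n m m₀).Realize (Sum.elim vx (par p q κ y x₀ t t')) ↔ κ = .P ∨ κ = .C := by
    rw [fB, realize_eqv]
    change code p q κ 2 = code p q κ 3 ↔ _
    cases κ <;> simp [code, hpq]
  have hu : (eqv (L := L) (ov n m m₀ 2) (ov n m m₀ 3)).Realize
      (Sum.elim vx (par p q κ y x₀ t t')) ↔ vx (Sum.inr 2) = vx (Sum.inr 3) := by
    rw [realize_eqv]
    rfl
  have h0 : (eqv (L := L) (ov n m m₀ 0) (pv n m m₀ 0)).Realize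
      (Sum.elim vx (par p q κ y x₀ t t')) ↔ vx (Sum.inr 0) = t := by
    rw [realize_eqv]
    rfl
  have h1 : (eqv (L := L) (ov n m m₀ 1) (pv n m m₀ 1)).Realize
      (Sum.elim vx (par p q κ y x₀ t t')) ↔ vx (Sum.inr 1) = t' := by
    rw [realize_eqv]
    rfl
  rw [theta, Formula.realize_sup, Formula.realize_inf, Formula.realize_inf, Formula.realize_not,
    hu]
  refine or_congr (and_congr_right fun _ => ?_) (and_congr_right fun _ => ?_)
  · simp only [comp1, Formula.realize_sup, Formula.realize_inf, Formula.realize_not, hA, hB, hpsi,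
      heq]
    cases κ <;> simp [mem1]
  · simp only [comp2, Formula.realize_sup, Formula.realize_inf, Formula.realize_not, hA, hB, h0,
      h1]
    cases κ <;> simp [mem2]

/-! ### Realizing finite pieces of the poset -/

theorem fin_real {M : Type w} [L.Structure M] (φ : L.Formula (Fin n ⊕ Fin m)) (m₀ : ℕ)
    (hex : ∀ N W, Exact (fun (x : Fin n → M) (y : Fin m₀ × Fin m → M) =>
      ∀ i, φ.Realize (Sum.elim x (fun j => y (i, j)))) N W) (F : Finset Pos) :
    ∃ c : Pos → Yv n m m₀ → M, ∀ s ∈ F, ∀ t ∈ F,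
      (∀ vx : Xv n → M, (theta φ m₀).Realize (Sum.elim vx (c s)) →
        (theta φ m₀).Realize (Sum.elim vx (c t))) ↔ s ≤ t := by
  have hinfX : Infinite (Fin n → M) := infinite_of_exact hex
  have hinf : Infinite M := by
    by_contra hcon
    rw [not_infinite_iff_finite] at hcon
    exact not_finite (Fin n → M)
  obtain ⟨p, q, hpq⟩ := exists_pair_ne M
  let lab : List ℕ → M := fun l => Infinite.natEmbedding M (Encodable.encode l)
  have hlab : Function.Injective lab :=
    (Infinite.natEmbedding M).injective.comp Encodable.encode_injective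
  obtain ⟨b, x, h1, h2⟩ := hex (F.sup fun s => s.nd.length) (F.sup (fun s => s.nd.sum) + 1)
  have hval : ∀ s ∈ F, Valid (F.sup fun s => s.nd.length) (F.sup (fun s => s.nd.sum) + 1)
      s.nd := by
    intro s hs
    refine ⟨Finset.le_sup (f := fun s : Pos => s.nd.length) hs, fun a ha => ?_⟩
    have h3 := List.single_le_sum (fun _ _ => Nat.zero_le _) a ha
    have h4 := Finset.le_sup (f := fun s : Pos => s.nd.sum) hs
    have h4' : s.nd.sum ≤ F.sup (fun s => s.nd.sum) := h4
    omega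
  refine ⟨fun s => par p q s.kind (b s.nd) (x s.nd) (lab s.nd) (lab s.tl), fun s hs t ht => ?_⟩
  rw [← incl (Rel := fun (x : Fin n → M) (y : Fin m₀ × Fin m → M) =>
      ∀ i, φ.Realize (Sum.elim x (fun j => y (i, j)))) h1 h2 hlab s t (hval s hs) (hval t ht)]
  simp only [realize_theta φ m₀ hpq]
  constructor
  · intro h
    constructor
    · intro x' hx'
      rcases h (Sum.elim x' ![p, p, p, p]) (Or.inl ⟨rfl, hx'⟩) with h3 | h3
      · exact h3.2
      · exact absurd rfl h3.1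
    · intro z z' hz
      rcases h (Sum.elim (fun _ => p) ![z, z', p, q]) (Or.inr ⟨hpq, hz⟩) with h3 | h3
      · exact absurd h3.1 hpq
      · exact h3.2
  · rintro ⟨h3, h4⟩ vx (⟨h5, h6⟩ | ⟨h5, h6⟩)
    · exact Or.inl ⟨h5, h3 _ h6⟩
    · exact Or.inr ⟨h5, h4 _ _ h6⟩

/-! ### The ultrapower -/

theorem sop_of_fin {T : L.Theory} (M : Theory.ModelType.{u, v, w} T) {X Y : Type} [Finite X]
    [Finite Y] (Θ : L.Formula (X ⊕ Y)) (S : Type) [PartialOrder S]
    (h : ∀ F : Finset S, ∃ c : S → Y → M, ∀ s ∈ F, ∀ t ∈ F,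
      (∀ vx : X → M, Θ.Realize (Sum.elim vx (c s)) → Θ.Realize (Sum.elim vx (c t))) ↔ s ≤ t) :
    HasSOP.{u, v, w} S T := by
  classical
  choose c hc using h
  let 𝒟 : Ultrafilter (Finset S) := Ultrafilter.of atTop
  have h𝒟 : ∀ s t : S, ∀ᶠ F in (𝒟 : Filter (Finset S)), s ∈ F ∧ t ∈ F := by
    intro s t
    have h1 : ∀ᶠ F in (atTop : Filter (Finset S)), {s, t} ≤ F := eventually_ge_atTop _
    filter_upwards [Ultrafilter.of_le (f := (atTop : Filter (Finset S))) h1] with F hF
    exact ⟨hF (by simp), hF (by simp)⟩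
  let eX := (Finite.equivFin X)
  let eY := (Finite.equivFin Y)
  let P : Type w := (𝒟 : Filter (Finset S)).Product (fun _ => (M : Type w))
  have hmod : T.Model P := by
    refine ⟨fun σ hσ => ?_⟩
    refine (Ultraproduct.sentence_realize σ).2 ?_
    exact Eventually.of_forall fun _ => T.realize_sentence_of_mem hσ
  have hne : Nonempty P := Ultraproduct.Product.instNonempty
  let Q : Theory.ModelType.{u, v, w} T := Theory.ModelType.of T P
  refine ⟨Q, Nat.card X, Nat.card Y, Θ.relabel (Sum.map eX eY),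
    fun s i => ((fun F => c F s (eY.symm i) : Finset S → M) : P), fun s t => ?_⟩
  have key : ∀ (X' : Fin (Nat.card X) → Finset S → M) (s : S),
      (Θ.relabel (Sum.map eX eY)).Realize (M := P) (Sum.elim (fun i => ((X' i : Finset S → M) : P))
        (fun i => ((fun F => c F s (eY.symm i) : Finset S → M) : P))) ↔
      ∀ᶠ F in (𝒟 : Filter (Finset S)), Θ.Realize (Sum.elim (fun i => X' (eX i) F) (c F s)) := by
    intro X' s
    rw [Formula.realize_relabel]
    have h1 := Ultraproduct.realize_formula_cast (u := 𝒟) (M := fun _ => (M : Type w)) Θ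
      (Sum.elim (fun i => X' (eX i)) (fun j F => c F s j))
    have h2 : (Sum.elim (fun i => ((X' i : Finset S → M) : P))
        (fun i => ((fun F => c F s (eY.symm i) : Finset S → M) : P))) ∘ Sum.map eX eY =
        fun i => ((Sum.elim (fun i => X' (eX i)) (fun j F => c F s j) i : Finset S → M) : P) := by
      funext i
      cases i with
      | inl i => rfl
      | inr i => simp
    refine (Eq.to_iff (congrArg Θ.Realize h2)).trans ?_
    refine h1.trans ?_
    refine eventually_congr (Eventually.of_forall fun F => ?_)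
    have h3 : (fun i => Sum.elim (fun i => X' (eX i)) (fun j F => c F s j) i F) =
        Sum.elim (fun i => X' (eX i) F) (c F s) := by
      funext i
      cases i <;> rfl
    rw [h3]
  constructor
  · intro h
    by_contra hst
    have h1 : ∀ F : Finset S, ∃ vx : X → M, (s ∈ F ∧ t ∈ F) →
        (Θ.Realize (Sum.elim vx (c F s)) ∧ ¬ Θ.Realize (Sum.elim vx (c F t))) := by
      intro F
      by_cases hF : s ∈ F ∧ t ∈ F
      · have h2 := mt (hc F s hF.1 t hF.2).1 hst
        push Not at h2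
        obtain ⟨vx, h3, h4⟩ := h2
        exact ⟨vx, fun _ => ⟨h3, h4⟩⟩
      · exact ⟨fun _ => Classical.choice M.nonempty', fun h' => absurd h' hF⟩
    choose vx hvx using h1
    have h5 := (key (fun i F => vx F (eX.symm i)) s).2 (by
      filter_upwards [h𝒟 s t] with F hF
      simpa using (hvx F hF).1)
    have h6 := (key (fun i F => vx F (eX.symm i)) t).1 (h _ h5)
    obtain ⟨F, h7, h8⟩ := (h6.and (h𝒟 s t)).exists
    exact (hvx F h8).2 (by simpa using h7)
  · intro hst x hx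
    have hx' : ∃ X' : Fin (Nat.card X) → Finset S → M, x = fun i => ((X' i : Finset S → M) : P) := by
      choose X' hX' using fun i => Quotient.exists_rep (x i)
      exact ⟨X', funext fun i => (hX' i).symm⟩
    obtain ⟨X', rfl⟩ := hx'
    refine (key X' t).2 ?_
    filter_upwards [(key X' s).1 hx, h𝒟 s t] with F h1 h2
    exact (hc F s h2.1 t h2.2).2 hst _ h1

theorem sop_of_tp (T : L.Theory) (h : HasTP.{u, v, w} T) : HasSOP.{u, v, w} Pos T := by
  obtain ⟨M, n, m, φ, a, h1, k, h2⟩ := h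
  obtain ⟨m₀, hm₀⟩ := exact_of_tp φ a h1 k h2
  exact sop_of_fin M (theta φ m₀) Pos (fin_real φ m₀ hm₀)

end Pool.Agent.H956R3.TP
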