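import Pool.Agent.H956R3.Basic

/-!
# Metric ultrapowers over a nonprincipal ultrafilter on `ℕ`
-/

set_option autoImplicit false
set_option linter.unusedSectionVars false

namespace Pool.Agent.H956R3.CL

open unitInterval Filter Topology

universe u

/-- a fixed nonprincipal ultrafilter -/
noncomputable abbrev UU : Ultrafilter ℕ := Filter.hyperfilter ℕ

theorem exists_ulim (f : ℕ → I) : ∃ x, Tendsto f (UU : Filter ℕ) (𝓝 x) := by
  refine ⟨(UU.map f).lim, ?_⟩
  exact Ultrafilter.le_nhds_lim (UU.map f)

noncomputable def ulim (f : ℕ → I) : I := Classical.choose (exists_ulim f)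

theorem tendsto_ulim (f : ℕ → I) : Tendsto f (UU : Filter ℕ) (𝓝 (ulim f)) :=
  Classical.choose_spec (exists_ulim f)

theorem ulim_eq {f : ℕ → I} {x : I} (h : Tendsto f (UU : Filter ℕ) (𝓝 x)) : ulim f = x :=
  tendsto_nhds_unique (tendsto_ulim f) h

theorem tendsto_ulim_real (f : ℕ → I) :
    Tendsto (fun k => (f k : ℝ)) (UU : Filter ℕ) (𝓝 (ulim f : ℝ)) :=
  (continuous_subtype_val.tendsto _).comp (tendsto_ulim f)

/-- Sequences of elements of `M`. -/
structure USeq (_ : Sig.{u}) (M : Type u) : Type u where
  val : ℕ → M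

variable {L : Sig.{u}} {M : Type u} [MetricSpace M] [Str L M]

noncomputable def udist (x y : USeq L M) : I :=
  ulim (fun k => ⟨dist (x.val k) (y.val k), dist_nonneg, Str.dist_le_one L _ _⟩)

theorem tendsto_udist (x y : USeq L M) :
    Tendsto (fun k => dist (x.val k) (y.val k)) (UU : Filter ℕ) (𝓝 (udist x y : ℝ)) :=
  tendsto_ulim_real _

noncomputable instance : PseudoMetricSpace (USeq L M) where
  dist x y := udist x y
  dist_self x := by
    refine tendsto_nhds_unique (tendsto_udist x x) ?_
    simp only [dist_self]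
    exact tendsto_const_nhds
  dist_comm x y := by
    refine tendsto_nhds_unique (tendsto_udist x y) ?_
    have h := tendsto_udist y x
    have h2 : (fun k => dist (y.val k) (x.val k)) = fun k => dist (x.val k) (y.val k) := by
      funext k
      exact dist_comm _ _
    rwa [h2] at h
  dist_triangle x y z :=
    le_of_tendsto_of_tendsto' (tendsto_udist x z) ((tendsto_udist x y).add (tendsto_udist y z))
      fun k => dist_triangle _ _ _

theorem tendsto_dist (x y : USeq L M) :
    Tendsto (fun k => dist (x.val k) (y.val k)) (UU : Filter ℕ) (𝓝 (dist x y)) :=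
  tendsto_udist x y

theorem eventually_dist_lt {x y : USeq L M} {e : ℝ} (h : dist x y < e) :
    ∀ᶠ k in (UU : Filter ℕ), dist (x.val k) (y.val k) < e :=
  (tendsto_dist x y).eventually_lt_const h

theorem dist_le_of_eventually {x y : USeq L M} {e : ℝ}
    (h : ∀ᶠ k in (UU : Filter ℕ), dist (x.val k) (y.val k) ≤ e) : dist x y ≤ e :=
  le_of_tendsto (tendsto_dist x y) h

instance : CompleteSpace (USeq L M) := by
  refine Metric.complete_of_convergent_controlled_sequences (fun n => (1 / 2 : ℝ) ^ n)
    (fun n => by positivity) ?_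
  intro u hu
  -- the good index sets
  let A : ℕ → Set ℕ := fun m => {k | ∀ j ≤ m, dist ((u j).val k) ((u m).val k) < (1 / 2 : ℝ) ^ j}
  let G : ℕ → ℕ → Prop := fun m k => ∀ m' ≤ m, k ∈ A m'
  have hG : ∀ m, ∀ᶠ k in (UU : Filter ℕ), G m k := by
    intro m
    have h1 : ∀ m', ∀ᶠ k in (UU : Filter ℕ), k ∈ A m' := by
      intro m'
      have : ∀ j ∈ Finset.range (m' + 1), ∀ᶠ k in (UU : Filter ℕ),
          dist ((u j).val k) ((u m').val k) < (1 / 2 : ℝ) ^ j := by
        intro j hj
        refine eventually_dist_lt (hu j j m' le_rfl ?_)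
        have := Finset.mem_range.1 hj
        omega
      rw [← Filter.eventually_all_finset] at this
      filter_upwards [this] with k hk j hj
      exact hk j (Finset.mem_range.2 (by omega))
    have h2 : ∀ m' ∈ Finset.range (m + 1), ∀ᶠ k in (UU : Filter ℕ), k ∈ A m' := fun m' _ => h1 m'
    rw [← Filter.eventually_all_finset] at h2
    filter_upwards [h2] with k hk m' hm'
    exact hk m' (Finset.mem_range.2 (by omega))
  classical
  let mm : ℕ → ℕ := fun k => Nat.findGreatest (fun m => G m k) k
  refine ⟨⟨fun k => (u (mm k)).val k⟩, ?_⟩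
  rw [Metric.tendsto_atTop]
  intro e he
  obtain ⟨n0, hn0⟩ := exists_pow_lt_of_lt_one he (by norm_num : (1 / 2 : ℝ) < 1)
  refine ⟨n0, fun n hn => ?_⟩
  refine lt_of_le_of_lt (dist_le_of_eventually (e := (1 / 2 : ℝ) ^ n) ?_) ?_
  · have hge : ∀ᶠ k in (UU : Filter ℕ), n ≤ k :=
      Filter.mem_hyperfilter_of_finite_compl (by
        refine (Set.finite_lt_nat n).subset ?_
        intro k hk
        simpa using hk)
    filter_upwards [hG n, hge] with k hk hnk
    have h1 : n ≤ mm k := Nat.le_findGreatest hnk hk
    have h2 : G (mm k) k := by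
      have := Nat.findGreatest_spec (P := fun m => G m k) hnk hk
      exact this
    exact (h2 (mm k) le_rfl n h1).le
  · refine lt_of_le_of_lt ?_ hn0
    exact pow_le_pow_of_le_one (by norm_num) (by norm_num) hn

/-- The metric ultrapower of `M`. -/
abbrev UP (L : Sig.{u}) (M : Type u) [MetricSpace M] [Str L M] : Type u :=
  SeparationQuotient (USeq L M)

noncomputable def rep (x : UP L M) : USeq L M := Function.surjInv SeparationQuotient.surjective_mk x

theorem mk_rep (x : UP L M) : SeparationQuotient.mk (rep x) = x :=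
  Function.surjInv_eq SeparationQuotient.surjective_mk x

theorem dist_rep_mk (x : USeq L M) : dist (rep (SeparationQuotient.mk x)) x = 0 := by
  rw [← SeparationQuotient.dist_mk, mk_rep, dist_self]

def seqFn {n : ℕ} (f : L.Fn n) (xs : Fin n → USeq L M) : USeq L M :=
  ⟨fun k => Str.fn f (fun i => (xs i).val k)⟩

def seqPr {n : ℕ} (P : L.Pr n) (xs : Fin n → USeq L M) : ℕ → I :=
  fun k => Str.pr P (fun i => (xs i).val k)

theorem seqFn_unif {n : ℕ} (f : L.Fn n) (e : ℝ) (he : 0 < e) (xs ys : Fin n → USeq L M)
    (h : ∀ i, dist (xs i) (ys i) < L.fnMod f e) : dist (seqFn f xs) (seqFn f ys) ≤ e := by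
  refine dist_le_of_eventually ?_
  have : ∀ᶠ k in (UU : Filter ℕ), ∀ i, dist ((xs i).val k) ((ys i).val k) < L.fnMod f e := by
    rw [Filter.eventually_all]
    exact fun i => eventually_dist_lt (h i)
  filter_upwards [this] with k hk
  exact Str.fn_unif f e he _ _ hk

theorem seqPr_unif {n : ℕ} (P : L.Pr n) (e : ℝ) (he : 0 < e) (xs ys : Fin n → USeq L M)
    (h : ∀ i, dist (xs i) (ys i) < L.prMod P e) :
    |(ulim (seqPr P xs) : ℝ) - (ulim (seqPr P ys) : ℝ)| ≤ e := by
  have : ∀ᶠ k in (UU : Filter ℕ), ∀ i, dist ((xs i).val k) ((ys i).val k) < L.prMod P e := by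
    rw [Filter.eventually_all]
    exact fun i => eventually_dist_lt (h i)
  refine le_of_tendsto (((tendsto_ulim_real (seqPr P xs)).sub
    (tendsto_ulim_real (seqPr P ys))).abs) ?_
  filter_upwards [this] with k hk
  exact Str.pr_unif P e he _ _ hk

noncomputable instance : Str L (UP L M) where
  nonempty := by
    obtain ⟨x⟩ := Str.nonempty (L := L) (M := M)
    exact ⟨SeparationQuotient.mk (⟨fun _ => x⟩ : USeq L M)⟩
  complete := inferInstance
  dist_le_one x y := by
    rw [← mk_rep x, ← mk_rep y, SeparationQuotient.dist_mk]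
    exact (udist (rep x) (rep y)).2.2
  fn f xs := SeparationQuotient.mk (seqFn f (fun i => rep (xs i)))
  pr P xs := ulim (seqPr P (fun i => rep (xs i)))
  fn_unif f e he x y h := by
    rw [SeparationQuotient.dist_mk]
    refine seqFn_unif f e he _ _ fun i => ?_
    rw [← SeparationQuotient.dist_mk, mk_rep, mk_rep]
    exact h i
  pr_unif P e he x y h := by
    refine seqPr_unif P e he _ _ fun i => ?_
    rw [← SeparationQuotient.dist_mk, mk_rep, mk_rep]
    exact h i

theorem fn_mk {n : ℕ} (f : L.Fn n) (xs : Fin n → USeq L M) :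
    Str.fn f (fun i => (SeparationQuotient.mk (xs i) : UP L M)) =
      SeparationQuotient.mk (seqFn f xs) := by
  change SeparationQuotient.mk (seqFn f (fun i => rep (SeparationQuotient.mk (xs i)))) = _
  rw [SeparationQuotient.mk_eq_mk, Metric.inseparable_iff]
  refine le_antisymm (le_of_forall_pos_le_add fun e he => ?_) dist_nonneg
  rw [zero_add]
  refine seqFn_unif f e he _ _ fun i => ?_
  rw [dist_rep_mk]
  exact L.fnMod_pos f e he

theorem pr_mk {n : ℕ} (P : L.Pr n) (xs : Fin n → USeq L M) :
    Str.pr P (fun i => (SeparationQuotient.mk (xs i) : UP L M)) = ulim (seqPr P xs) := by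
  change ulim (seqPr P (fun i => rep (SeparationQuotient.mk (xs i)))) = _
  have h : |(ulim (seqPr P (fun i => rep (SeparationQuotient.mk (xs i)))) : ℝ) -
      (ulim (seqPr P xs) : ℝ)| ≤ 0 := by
    refine le_of_forall_pos_le_add fun e he => ?_
    rw [zero_add]
    refine seqPr_unif P e he _ _ fun i => ?_
    rw [dist_rep_mk]
    exact L.prMod_pos P e he
  have h2 := abs_nonpos_iff.1 h
  exact Subtype.ext (by linarith)

/-- the class of a tuple of sequences -/
noncomputable def mkT {n : ℕ} (v : ℕ → Fin n → M) : Fin n → UP L M :=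
  fun i => SeparationQuotient.mk (⟨fun k => v k i⟩ : USeq L M)

theorem term_los {n : ℕ} (t : Term L n) (v : ℕ → Fin n → M) :
    t.eval (mkT (L := L) v) = SeparationQuotient.mk (⟨fun k => t.eval (v k)⟩ : USeq L M) := by
  induction t with
  | var i => rfl
  | app f ts ih =>
    simp only [Term.eval]
    have : (fun i => (ts i).eval (mkT (L := L) v)) =
        fun i => SeparationQuotient.mk (⟨fun k => (ts i).eval (v k)⟩ : USeq L M) := funext ih
    rw [this, fn_mk]
    rfl

theorem snoc_mkT {n : ℕ} (v : ℕ → Fin n → M) (x : USeq L M) :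
    (Fin.snoc (α := fun _ => UP L M) (mkT (L := L) v) (SeparationQuotient.mk x)) =
      mkT (L := L) (fun k => Fin.snoc (α := fun _ => M) (v k) (x.val k)) := by
  funext i
  refine Fin.lastCases ?_ (fun i => ?_) i
  · simp [mkT, Fin.snoc_last]
  · simp [mkT, Fin.snoc_castSucc]

/-- Łoś's theorem. -/
theorem los {n : ℕ} (φ : Fml L n) (v : ℕ → Fin n → M) :
    φ.eval (mkT (L := L) v) = ulim (fun k => φ.eval (v k)) := by
  induction φ with
  | dist s t =>
    simp only [Fml.eval, term_los]
    apply Subtype.ext
    exact SeparationQuotient.dist_mk _ _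
  | pred P ts =>
    simp only [Fml.eval, term_los]
    rw [pr_mk]
    rfl
  | conn c φs ih =>
    simp only [Fml.eval]
    symm
    apply ulim_eq
    refine (c.continuous.tendsto _).comp ?_
    rw [tendsto_pi_nhds]
    intro i
    rw [ih i v]
    exact tendsto_ulim _
  | inf φ ih =>
    simp only [Fml.eval]
    have hne := Str.nonempty (L := L) (M := M)
    apply le_antisymm
    · apply Subtype.coe_le_coe.1
      refine le_of_forall_pos_le_add fun e he => ?_
      have hx : ∀ k, ∃ x : M, (φ.eval (Fin.snoc (α := fun _ => M) (v k) x) : ℝ) ≤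
          ((⨅ x : M, φ.eval (Fin.snoc (α := fun _ => M) (v k) x) : I) : ℝ) + e := by
        intro k
        by_contra hcon
        push Not at hcon
        have h1 := iInf_le_add (fun _ : M => (⨅ x : M, φ.eval (Fin.snoc (α := fun _ => M) (v k) x)))
          (fun x => φ.eval (Fin.snoc (α := fun _ => M) (v k) x)) (-e) (fun x => by
            have := hcon x
            linarith)
        rw [iInf_const] at h1
        linarith
      choose x hx using hx
      refine le_trans (Subtype.coe_le_coe.2 (iInf_le
        (fun z : UP L M => φ.eval (Fin.snoc (α := fun _ => UP L M) (mkT (L := L) v) z))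
          (SeparationQuotient.mk (⟨x⟩ : USeq L M)))) ?_
      rw [snoc_mkT, ih]
      exact le_of_tendsto_of_tendsto' (tendsto_ulim_real _)
        ((tendsto_ulim_real _).add_const e) hx
    · refine le_iInf fun x => ?_
      obtain ⟨x, rfl⟩ := SeparationQuotient.surjective_mk x
      rw [snoc_mkT, ih]
      exact le_of_tendsto_of_tendsto' (tendsto_ulim _) (tendsto_ulim _)
        fun k => iInf_le (fun y => φ.eval (Fin.snoc (α := fun _ => M) (v k) y)) (x.val k)
  | sup φ ih =>
    simp only [Fml.eval]
    have hne := Str.nonempty (L := L) (M := M)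
    apply le_antisymm
    · refine iSup_le fun x => ?_
      obtain ⟨x, rfl⟩ := SeparationQuotient.surjective_mk x
      rw [snoc_mkT, ih]
      exact le_of_tendsto_of_tendsto' (tendsto_ulim _) (tendsto_ulim _)
        fun k => le_iSup (fun y => φ.eval (Fin.snoc (α := fun _ => M) (v k) y)) (x.val k)
    · apply Subtype.coe_le_coe.1
      refine le_of_forall_pos_le_add fun e he => ?_
      have hx : ∀ k, ∃ x : M, ((⨆ x : M, φ.eval (Fin.snoc (α := fun _ => M) (v k) x) : I) : ℝ) ≤
          (φ.eval (Fin.snoc (α := fun _ => M) (v k) x) : ℝ) + e := by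
        intro k
        by_contra hcon
        push Not at hcon
        have h1 := iSup_le_add (fun x => φ.eval (Fin.snoc (α := fun _ => M) (v k) x))
          (fun _ : M => (⨆ x : M, φ.eval (Fin.snoc (α := fun _ => M) (v k) x)))
           (-e) (fun x => by
            have := hcon x
            linarith)
        rw [iSup_const] at h1
        linarith
      choose x hx using hx
      refine le_trans ?_ (add_le_add_left (Subtype.coe_le_coe.2
        (le_iSup (fun z : UP L M => φ.eval (Fin.snoc (α := fun _ => UP L M) (mkT (L := L) v) z))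
          (SeparationQuotient.mk (⟨x⟩ : USeq L M)))) e)
      rw [snoc_mkT, ih]
      exact le_of_tendsto_of_tendsto' (tendsto_ulim_real _)
        ((tendsto_ulim_real _).add_const e) hx

/-- The diagonal embedding. -/
noncomputable def diag (x : M) : UP L M := SeparationQuotient.mk (⟨fun _ => x⟩ : USeq L M)

theorem diag_elementary : Elementary L (diag : M → UP L M) := by
  intro n φ v
  have : (diag ∘ v : Fin n → UP L M) = mkT (L := L) (fun _ => v) := rfl
  rw [this, los]
  exact ulim_eq tendsto_const_nhds

end Pool.Agent.H956R3.CL
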